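import Mathlib
import Pool.Agent.Y14.Fam

/-!
# Response of averages of transports to the noise: the pairs of paths
-/

open MeasureTheory Matrix Filter
open scoped Matrix.Norms.Frobenius ContDiff Topology
open Pool.Agent.H906R3.YM Pool.Agent.W793.YM Pool.Agent.Y14

namespace Pool.Agent.Q204.PL

set_option linter.unusedSectionVars false
set_option linter.unusedVariables false

noncomputable section

variable {N : ℕ} {E : Type*} [DecidableEq E] {J : Finset E}

/-- the matrix of a link, or its adjoint -/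
def sm (J : Finset E) (w : IJ J N → ℝ) (f : E × Bool) : Mat N :=
  if f.2 then mx J w f.1 else (mx J w f.1)ᴴ

/-- the product along a list of oriented links -/
def sp (J : Finset E) (w : IJ J N → ℝ) (l : List (E × Bool)) : Mat N := (l.map (sm J w)).prod

/-- the product with the noise in the links of `S` -/
def ss (J : Finset E) (x ξ : IJ J N → ℝ) (S : Finset E) (l : List (E × Bool)) : Mat N :=
  (l.map fun f => sm J (if f.1 ∈ S then ξ else x) f).prod

lemma sm_add (w w' : IJ J N → ℝ) (f : E × Bool) : sm J (w + w') f = sm J w f + sm J w' f := by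
  unfold sm
  split_ifs
  · exact mx_add _ _ _
  · rw [mx_add, conjTranspose_add]

lemma sm_smul (c : ℝ) (w : IJ J N → ℝ) (f : E × Bool) : sm J (c • w) f = c • sm J w f := by
  unfold sm
  split_ifs
  · exact mx_smul _ _ _
  · rw [mx_smul, conjTranspose_smul, star_trivial]

lemma sm_congr {w w' : IJ J N → ℝ} {f : E × Bool} (h : ∀ i, i.1.1 = f.1 → w i = w' i) :
    sm J w f = sm J w' f := by
  unfold sm
  rw [mx_congr h]

lemma sp_nil (w : IJ J N → ℝ) : sp J w [] = 1 := by simp [sp]

lemma sp_cons (w : IJ J N → ℝ) (f : E × Bool) (l : List (E × Bool)) :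
    sp J w (f :: l) = sm J w f * sp J w l := by simp [sp]

lemma sp_congr {w w' : IJ J N → ℝ} {l : List (E × Bool)}
    (h : ∀ i : IJ J N, i.1.1 ∈ l.map Prod.fst → w i = w' i) : sp J w l = sp J w' l := by
  unfold sp
  congr 1
  refine List.map_congr_left fun f hf => sm_congr fun i hi => h i ?_
  rw [hi]
  exact List.mem_map_of_mem hf

lemma sm_MM (f : E × Bool) : MM fun w : IJ J N → ℝ => sm J w f := by
  intro w i t
  simp only
  rw [upd_aff w i t, sm_add, sm_smul, sm_smul]

lemma sp_MM {l : List (E × Bool)} (hl : (l.map Prod.fst).Nodup) :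
    MM fun w : IJ J N → ℝ => sp J w l := by
  induction l with
  | nil =>
    intro w i t
    simp only [sp_nil]
    rw [← add_smul]; simp
  | cons f l ih =>
    intro w i t
    rw [List.map_cons] at hl
    have hl' := List.nodup_cons.1 hl
    have h1 := ih hl'.2 w i t
    simp only at h1
    have h2 := sm_MM (N := N) (J := J) f w i t
    simp only at h2
    simp only [sp_cons]
    by_cases he : i.1.1 = f.1
    · have h3 : ∀ s : ℝ, sp J (Function.update w i s) l = sp J w l := by
        intro s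
        refine sp_congr fun j hj => ?_
        have : j ≠ i := by
          rintro rfl
          rw [he] at hj
          exact hl'.1 hj
        simp [this]
      rw [h3, h3, h3, h2, add_mul, smul_mul_assoc, smul_mul_assoc]
    · have h3 : ∀ s : ℝ, sm J (Function.update w i s) f = sm J w f := by
        intro s
        refine sm_congr fun j hj => ?_
        have : j ≠ i := by
          rintro rfl
          exact he hj
        simp [this]
      rw [h3, h3, h3, h1, mul_add, mul_smul_comm, mul_smul_comm]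

lemma ss_cons (x ξ : IJ J N → ℝ) (S : Finset E) (f : E × Bool) (l : List (E × Bool)) :
    ss J x ξ S (f :: l) = sm J (if f.1 ∈ S then ξ else x) f * ss J x ξ S l := by simp [ss]

lemma ss_congr {x ξ : IJ J N → ℝ} {S S' : Finset E} {l : List (E × Bool)}
    (h : ∀ e ∈ l.map Prod.fst, e ∈ S ↔ e ∈ S') : ss J x ξ S l = ss J x ξ S' l := by
  unfold ss
  congr 1
  refine List.map_congr_left fun f hf => ?_
  have h1 := h f.1 (List.mem_map_of_mem hf)
  by_cases h2 : f.1 ∈ S
  · rw [if_pos h2, if_pos (h1.1 h2)]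
  · rw [if_neg h2, if_neg fun h3 => h2 (h1.2 h3)]

lemma ss_empty (x ξ : IJ J N → ℝ) (l : List (E × Bool)) : ss J x ξ ∅ l = sp J x l := by
  unfold ss sp
  simp

/-- expansion in the noise -/
lemma sp_expand (x ξ : IJ J N → ℝ) {l : List (E × Bool)} (hl : (l.map Prod.fst).Nodup) :
    sp J (x + ξ) l = ∑ S ∈ (l.map Prod.fst).toFinset.powerset, ss J x ξ S l := by
  induction l with
  | nil => simp [sp, ss]
  | cons f l ih =>
    rw [List.map_cons] at hl
    have h := List.nodup_cons.1 hl
    have h1 : f.1 ∉ (l.map Prod.fst).toFinset := by simpa using h.1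
    rw [List.map_cons, List.toFinset_cons, Finset.sum_powerset_insert h1]
    rw [sp_cons, ih h.2, sm_add, add_mul, Finset.mul_sum, Finset.mul_sum]
    congr 1
    · refine Finset.sum_congr rfl fun S hS => ?_
      have h2 : f.1 ∉ S := fun h' => h1 (Finset.mem_powerset.1 hS h')
      rw [ss_cons, if_neg h2]
    · refine Finset.sum_congr rfl fun S hS => ?_
      rw [ss_cons, if_pos (Finset.mem_insert_self _ _)]
      congr 1
      refine ss_congr fun e he => ?_
      have : e ≠ f.1 := by rintro rfl; exact h.1 he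
      simp [this]

variable {δ : ℝ} {x : IJ J N → ℝ}

variable [Fintype E]

lemma sm_sg_fl (δ : ℝ) (e : E) (s : IJ J N → Bool) (f : E × Bool) :
    sm J (sg δ (fl (fun i : IJ J N => i.1.1 = e) s)) f =
      if f.1 = e then -sm J (sg δ s) f else sm J (sg δ s) f := by
  have h := mx_sg_fl (N := N) (J := J) δ (fun e' => e' = e) s f.1
  unfold sm
  rw [h]
  split_ifs <;> simp

lemma ss_fl_same {e : E} {S : Finset E} {l : List (E × Bool)}
    (h : ∀ f ∈ l, f.1 ∈ S → f.1 ≠ e) (s : IJ J N → Bool) :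
    ss J x (sg δ (fl (fun i : IJ J N => i.1.1 = e) s)) S l = ss J x (sg δ s) S l := by
  unfold ss
  congr 1
  refine List.map_congr_left fun f hf => ?_
  by_cases h1 : f.1 ∈ S
  · rw [if_pos h1, if_pos h1, sm_sg_fl, if_neg (h f hf h1)]
  · rw [if_neg h1, if_neg h1]

lemma ss_fl_neg {e : E} {S : Finset E} {l : List (E × Bool)} (hl : (l.map Prod.fst).Nodup)
    (he : e ∈ S) (hel : e ∈ l.map Prod.fst) (s : IJ J N → Bool) :
    ss J x (sg δ (fl (fun i : IJ J N => i.1.1 = e) s)) S l = -ss J x (sg δ s) S l := by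
  induction l with
  | nil => simp at hel
  | cons f l ih =>
    rw [List.map_cons] at hl hel
    have h := List.nodup_cons.1 hl
    rw [ss_cons, ss_cons]
    by_cases hf : f.1 = e
    · have h1 : f.1 ∈ S := by rw [hf]; exact he
      rw [if_pos h1, if_pos h1, sm_sg_fl, if_pos hf, ss_fl_same fun g hg _ hge => ?_, neg_mul]
      refine h.1 ?_
      rw [hf, ← hge]
      exact List.mem_map_of_mem hg
    · have h2 : e ∈ l.map Prod.fst := by
        rcases List.mem_cons.1 hel with h' | h'
        · exact absurd h'.symm hf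
        · exact h'
      rw [ih h.2 h2]
      by_cases h1 : f.1 ∈ S
      · rw [if_pos h1, if_pos h1, sm_sg_fl, if_neg hf, mul_neg]
      · rw [if_neg h1, if_neg h1, mul_neg]

lemma ind_ss {e : E} {S : Finset E} {l : List (E × Bool)} (he : e ∉ l.map Prod.fst) :
    Ind e fun s : IJ J N → Bool => ss J x (sg δ s) S l := by
  intro s s' h
  show ss J x (sg δ s) S l = ss J x (sg δ s') S l
  unfold ss
  congr 1
  refine List.map_congr_left fun f hf => ?_
  split_ifs
  · refine sm_congr fun i hi => ?_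
    have : i.1.1 ≠ e := by
      rintro rfl
      rw [hi] at he
      exact he (List.mem_map_of_mem hf)
    unfold sg
    rw [h i this]
  · rfl

lemma ip_sum_left {K : Type*} [Fintype K] (A : K → Mat N) (B : Mat N) :
    ip (∑ κ, A κ) B = ∑ κ, ip (A κ) B := by
  rw [ip_apply, conjTranspose_sum, Finset.sum_mul, trace_sum, Complex.re_sum]
  rfl

lemma ip_smul_left (c : ℝ) (A B : Mat N) : ip (c • A) B = c * ip A B := by
  rw [ip_apply, ip_apply, conjTranspose_smul, smul_mul_assoc, trace_smul]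
  simp

lemma av_gen (δ : ℝ) {e : E} (he : e ∈ J) {Z : (IJ J N → Bool) → Mat N} (hZ : Ind e Z)
    (D : Fin N × Fin N × Bool → Mat N) :
    av (fun s => ‖(∑ κ, sg δ s (⟨e, he⟩, κ) • D κ) * Z s‖ ^ 2) =
      δ ^ 2 * av (fun s => ∑ κ, ‖D κ * Z s‖ ^ 2) := by
  have h1 : ∀ s, ‖(∑ κ, sg δ s (⟨e, he⟩, κ) • D κ) * Z s‖ ^ 2 = ∑ κ, ∑ κ',
      sg δ s (⟨e, he⟩, κ) * sg δ s (⟨e, he⟩, κ') * ip (D κ * Z s) (D κ' * Z s) := by
    intro s
    have e1 : (∑ κ, sg δ s (⟨e, he⟩, κ) • D κ) * Z s =
        ∑ κ, sg δ s (⟨e, he⟩, κ) • (D κ * Z s) := by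
      rw [Finset.sum_mul]
      exact Finset.sum_congr rfl fun κ _ => smul_mul_assoc _ _ _
    rw [norm_sq_ip, e1, ip_sum_left]
    refine Finset.sum_congr rfl fun κ _ => ?_
    rw [map_sum]
    refine Finset.sum_congr rfl fun κ' _ => ?_
    rw [map_smul, ip_smul_left, smul_eq_mul]
    ring
  simp only [h1]
  rw [av_sum]
  have h2 : ∀ κ, av (fun s => ∑ κ', sg δ s (⟨e, he⟩, κ) *
      sg δ s (⟨e, he⟩, κ') * ip (D κ * Z s) (D κ' * Z s)) =
      δ ^ 2 * av (fun s => ‖D κ * Z s‖ ^ 2) := by
    intro κ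
    rw [av_sum, Finset.sum_eq_single κ]
    · rw [← av_smul]
      congr 1
      funext s
      have : sg δ s (⟨e, he⟩, κ) * sg δ s (⟨e, he⟩, κ) = δ ^ 2 := by
        unfold sg; split_ifs <;> ring
      rw [this, norm_sq_ip]
    · intro κ' _ hκ
      refine av_odd (S := fun i : IJ J N => i = (⟨e, he⟩, κ)) fun s => ?_
      have e1 : Z (fl (fun i : IJ J N => i = (⟨e, he⟩, κ)) s) = Z s := by
        refine hZ _ _ fun i hi => ?_
        unfold fl
        rw [if_neg]
        rintro rfl
        exact hi rfl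
      rw [e1, sg_fl, sg_fl, if_pos rfl, if_neg (fun h => hκ (Prod.ext_iff.1 h).2)]
      ring
    · simp
  simp only [h2]
  rw [← Finset.mul_sum, ← av_sum]

lemma EEh_apply (κ : Fin N × Fin N × Bool) (a b : Fin N) :
    (EE κ)ᴴ a b = if κ.2.1 = a ∧ κ.1 = b then (if κ.2.2 then 1 else -Complex.I) else 0 := by
  rw [conjTranspose_apply, EE_apply]
  by_cases h : κ.1 = b ∧ κ.2.1 = a
  · have h' : κ.2.1 = a ∧ κ.1 = b := ⟨h.2, h.1⟩
    simp only [h', and_self, if_true]
    split_ifs <;> simp
  · have h' : ¬(κ.2.1 = a ∧ κ.1 = b) := fun h' => h ⟨h'.2, h'.1⟩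
    simp only [h', h, if_false, star_zero]

lemma sum_norm_EEh (Z : Mat N) : ∑ κ, ‖(EE κ)ᴴ * Z‖ ^ 2 = 2 * N * ‖Z‖ ^ 2 := by
  have h1 : ∀ κ : Fin N × Fin N × Bool, ‖(EE κ)ᴴ * Z‖ ^ 2 = ∑ b, ‖Z κ.1 b‖ ^ 2 := by
    intro κ
    rw [norm_sq_entries, Finset.sum_eq_single κ.2.1]
    · refine Finset.sum_congr rfl fun b _ => ?_
      rw [Matrix.mul_apply, Finset.sum_eq_single κ.1]
      · rw [EEh_apply, if_pos ⟨rfl, rfl⟩, norm_mul]
        split_ifs <;> simp
      · intro c _ hc
        rw [EEh_apply, if_neg (fun h => hc h.2.symm), zero_mul]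
      · simp
    · intro a _ ha
      refine Finset.sum_eq_zero fun b _ => ?_
      rw [Matrix.mul_apply, Finset.sum_eq_zero, norm_zero]
      · ring
      · intro c _
        rw [EEh_apply, if_neg (fun h => ha h.1.symm), zero_mul]
    · simp
  simp only [h1]
  rw [Fintype.sum_prod_type]
  simp only [Fintype.sum_prod_type, Fintype.sum_bool]
  rw [norm_sq_entries, Finset.mul_sum]
  refine Finset.sum_congr rfl fun a _ => ?_
  rw [Finset.sum_const, Finset.card_univ, Fintype.card_fin, nsmul_eq_mul]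
  ring

/-- the noise on one oriented link -/
lemma av_sm_sq (δ : ℝ) {f : E × Bool} (he : f.1 ∈ J) {Z : (IJ J N → Bool) → Mat N}
    (hZ : Ind f.1 Z) :
    av (fun s => ‖sm J (sg δ s) f * Z s‖ ^ 2) = 2 * N * δ ^ 2 * av (fun s => ‖Z s‖ ^ 2) := by
  by_cases hb : f.2
  · have h1 : ∀ s : IJ J N → Bool, sm J (sg δ s) f = mx J (sg δ s) f.1 := fun s => by
      unfold sm; rw [if_pos hb]
    simp only [h1]
    exact av_noise_sq δ he hZ
  · have h1 : ∀ s : IJ J N → Bool, sm J (sg δ s) f =
        ∑ κ, sg δ s (⟨f.1, he⟩, κ) • (EE κ)ᴴ := fun s => by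
      unfold sm mx
      rw [if_neg hb, dif_pos he, conjTranspose_sum]
      refine Finset.sum_congr rfl fun κ _ => ?_
      rw [conjTranspose_smul, star_trivial]
    simp only [h1]
    rw [av_gen δ he hZ]
    simp only [sum_norm_EEh]
    rw [av_smul]; ring

lemma sm_unit {f : E × Bool} (h : (mx J x f.1)ᴴ * mx J x f.1 = 1) :
    (sm J x f)ᴴ * sm J x f = 1 := by
  unfold sm
  split_ifs
  · exact h
  · rw [conjTranspose_conjTranspose]
    exact mul_eq_one_comm.1 h

/-- unitary links of `J` -/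
def UN (J : Finset E) (x : IJ J N → ℝ) (l : List (E × Bool)) : Prop :=
  ∀ f ∈ l, f.1 ∈ J ∧ (mx J x f.1)ᴴ * mx J x f.1 = 1

lemma av_ss {l : List (E × Bool)} (hl : (l.map Prod.fst).Nodup) (hu : UN J x l)
    {S : Finset E} (hS : S ⊆ (l.map Prod.fst).toFinset) :
    av (fun s => ‖ss J x (sg δ s) S l‖ ^ 2) = N * (2 * N * δ ^ 2) ^ S.card := by
  induction l generalizing S with
  | nil =>
    have h0 : S = ∅ := by simpa using hS
    subst h0
    simp only [ss, List.map_nil, List.prod_nil, norm_one_sq, av_const, Finset.card_empty, pow_zero,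
      mul_one]
  | cons f l ih =>
    rw [List.map_cons] at hl
    have h := List.nodup_cons.1 hl
    have hu' : UN J x l := fun g hg => hu g (List.mem_cons_of_mem _ hg)
    obtain ⟨hf, hX⟩ := hu f List.mem_cons_self
    rw [List.map_cons, List.toFinset_cons] at hS
    simp only [ss_cons]
    by_cases hfS : f.1 ∈ S
    · simp only [if_pos hfS]
      rw [av_sm_sq δ hf (ind_ss h.1)]
      have e1 : ∀ s : IJ J N → Bool, ss J x (sg δ s) S l = ss J x (sg δ s) (S.erase f.1) l := by
        intro s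
        refine ss_congr fun e he => ?_
        have : e ≠ f.1 := by rintro rfl; exact h.1 he
        simp [this]
      simp only [e1]
      rw [ih h.2 hu' (S := S.erase f.1) fun e he => ?_]
      · have hc : S.card = (S.erase f.1).card + 1 := (Finset.card_erase_add_one hfS).symm
        rw [hc, pow_succ]
        ring
      · obtain ⟨h1, h2⟩ := Finset.mem_erase.1 he
        exact (Finset.mem_insert.1 (hS h2)).resolve_left h1
    · simp only [if_neg hfS]
      simp only [norm_unit_mul (sm_unit hX)]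
      refine ih h.2 hu' fun e he => ?_
      refine (Finset.mem_insert.1 (hS he)).resolve_left ?_
      rintro rfl
      exact hfS he

lemma av_ss_orth {l l' : List (E × Bool)} (hl : (l.map Prod.fst).Nodup)
    (hl' : (l'.map Prod.fst).Nodup) {S S' : Finset E} (hS : S ⊆ (l.map Prod.fst).toFinset)
    (hS' : S' ⊆ (l'.map Prod.fst).toFinset) (hne : S ≠ S') :
    av (fun s => ip (ss J x (sg δ s) S l) (ss J x (sg δ s) S' l')) = 0 := by
  have hex : (∃ e, e ∈ S ∧ e ∉ S') ∨ ∃ e, e ∉ S ∧ e ∈ S' := by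
    by_contra hcon
    push Not at hcon
    refine hne (Finset.ext fun e => ⟨fun h => ?_, fun h => ?_⟩)
    · exact hcon.1 e h
    · by_contra h'
      exact hcon.2 e h' h
  rcases hex with ⟨e, h1, h2⟩ | ⟨e, h1, h2⟩
  · refine av_odd (S := fun i : IJ J N => i.1.1 = e) fun s => ?_
    rw [ss_fl_neg hl h1 (by simpa using hS h1), ss_fl_same fun f _ hf hfe => h2 (by rw [← hfe]; exact hf),
      ip_neg_neg]
  · refine av_odd (S := fun i : IJ J N => i.1.1 = e) fun s => ?_
    rw [ss_fl_neg hl' h2 (by simpa using hS' h2), ss_fl_same fun f _ hf hfe => h1 (by rw [← hfe]; exact hf),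
      map_neg]

/-- **The response of a sum of transports to the noise** is controlled by the numbers of common
links of the pairs of paths. -/
theorem pair_noise {O : Type*} [Fintype O] {l : O → List (E × Bool)}
    (hl : ∀ o, ((l o).map Prod.fst).Nodup) (hu : ∀ o, UN J x (l o)) :
    av (fun s => ‖∑ o, sp J (x + sg δ s) (l o) - ∑ o, sp J x (l o)‖ ^ 2) ≤
      ∑ o, ∑ o', (N : ℝ) * ((1 + 2 * N * δ ^ 2) ^
        (((l o).map Prod.fst).toFinset ∩ ((l o').map Prod.fst).toFinset).card - 1) := by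
  classical
  obtain ⟨F, hF⟩ : ∃ F : O → Finset E, F = fun o => ((l o).map Prod.fst).toFinset := ⟨_, rfl⟩
  obtain ⟨σ, hσ⟩ : ∃ σ : ℝ, σ = 2 * N * δ ^ 2 := ⟨_, rfl⟩
  have hσ0 : 0 ≤ σ := by rw [hσ]; positivity
  obtain ⟨W, hW⟩ : ∃ W : Finset E → (IJ J N → Bool) → Mat N, W = fun S s =>
    ∑ o ∈ Finset.univ.filter (fun o => S ⊆ F o), ss J x (sg δ s) S (l o) := ⟨_, rfl⟩
  obtain ⟨𝒮, h𝒮⟩ : ∃ 𝒮 : Finset (Finset E), 𝒮 = Finset.univ.erase ∅ := ⟨_, rfl⟩
  have hdec : ∀ s, ∑ o, sp J (x + sg δ s) (l o) - ∑ o, sp J x (l o) = ∑ S ∈ 𝒮, W S s := by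
    intro s
    have e1 : ∀ o, sp J (x + sg δ s) (l o) =
        ∑ S, if S ⊆ F o then ss J x (sg δ s) S (l o) else 0 := by
      intro o
      rw [sp_expand x _ (hl o), ← Finset.sum_filter]
      refine Finset.sum_congr ?_ fun _ _ => rfl
      ext S
      rw [hF]
      simp
    have e2 : ∑ o, sp J (x + sg δ s) (l o) = ∑ S, W S s := by
      simp only [e1]
      rw [Finset.sum_comm, hW]
      refine Finset.sum_congr rfl fun S _ => ?_
      simp only
      rw [Finset.sum_filter]
    have e3 : ∑ o, sp J x (l o) = W ∅ s := by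
      rw [hW]
      simp only [Finset.empty_subset, Finset.filter_true, ss_empty]
    rw [e2, e3, h𝒮, ← Finset.sum_erase_add _ _ (Finset.mem_univ (∅ : Finset E)), add_sub_cancel_right]
  have horth : ∀ 𝒯 : Finset (Finset E), av (fun s => ‖∑ S ∈ 𝒯, W S s‖ ^ 2) =
      ∑ S ∈ 𝒯, av (fun s => ‖W S s‖ ^ 2) := by
    intro 𝒯
    induction 𝒯 using Finset.induction_on with
    | empty => simp [av_const]
    | insert a 𝒯 ha ih =>
      rw [Finset.sum_insert ha, ← ih]
      have h1 : ∀ s, ‖∑ b ∈ insert a 𝒯, W b s‖ ^ 2 =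
          (‖W a s‖ ^ 2 + 2 * ip (W a s) (∑ b ∈ 𝒯, W b s)) + ‖∑ b ∈ 𝒯, W b s‖ ^ 2 := by
        intro s
        rw [Finset.sum_insert ha, nsq_add]
      simp only [h1]
      rw [av_add, av_add]
      have h2 : av (fun s => 2 * ip (W a s) (∑ b ∈ 𝒯, W b s)) = 0 := by
        have e1 : ∀ s, ip (W a s) (∑ b ∈ 𝒯, W b s) = ∑ b ∈ 𝒯,
            ∑ o ∈ Finset.univ.filter (fun o => a ⊆ F o),
            ∑ o' ∈ Finset.univ.filter (fun o => b ⊆ F o),
              ip (ss J x (sg δ s) a (l o)) (ss J x (sg δ s) b (l o')) := by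
          intro s
          rw [map_sum]
          refine Finset.sum_congr rfl fun b _ => ?_
          rw [hW]
          simp only
          rw [ip_apply, conjTranspose_sum, Finset.sum_mul, trace_sum, Complex.re_sum]
          refine Finset.sum_congr rfl fun o _ => ?_
          rw [← ip_apply, map_sum]
        rw [av_smul]
        simp only [e1]
        rw [av_sum]
        have e2 : ∀ b ∈ 𝒯, av (fun s => ∑ o ∈ Finset.univ.filter (fun o => a ⊆ F o),
            ∑ o' ∈ Finset.univ.filter (fun o => b ⊆ F o),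
              ip (ss J x (sg δ s) a (l o)) (ss J x (sg δ s) b (l o'))) = 0 := by
          intro b hb
          rw [av_sum]
          refine Finset.sum_eq_zero fun o ho => ?_
          rw [av_sum]
          refine Finset.sum_eq_zero fun o' ho' => ?_
          refine av_ss_orth (hl o) (hl o') ?_ ?_ fun h => ha (h ▸ hb)
          · have := (Finset.mem_filter.1 ho).2
            rwa [hF] at this
          · have := (Finset.mem_filter.1 ho').2
            rwa [hF] at this
        rw [Finset.sum_eq_zero e2, mul_zero]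
      rw [h2, add_zero]
  simp only [hdec]
  rw [horth, ← hσ]
  have h1 : ∀ S, av (fun s => ‖W S s‖ ^ 2) ≤
      ∑ o, ∑ o', if S ⊆ F o ∩ F o' then (N : ℝ) * σ ^ S.card else 0 := by
    intro S
    have h2 : ∀ s, ‖W S s‖ ^ 2 ≤ ∑ o ∈ Finset.univ.filter (fun o => S ⊆ F o),
        ((Finset.univ.filter (fun o => S ⊆ F o)).card : ℝ) * ‖ss J x (sg δ s) S (l o)‖ ^ 2 := by
      intro s
      rw [hW]
      simp only
      refine (nsq_sum_le _ _).trans ?_
      rw [← Finset.mul_sum]
    refine (av_mono h2).trans (le_of_eq ?_)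
    rw [av_sum]
    have h3 : ∀ o ∈ Finset.univ.filter (fun o => S ⊆ F o), av (fun s =>
        ((Finset.univ.filter (fun o => S ⊆ F o)).card : ℝ) * ‖ss J x (sg δ s) S (l o)‖ ^ 2) =
        ∑ o', if S ⊆ F o' then (N : ℝ) * σ ^ S.card else 0 := by
      intro o ho
      have h4 := (Finset.mem_filter.1 ho).2
      rw [hF] at h4
      rw [av_smul, av_ss (hl o) (hu o) h4, ← Finset.sum_filter, Finset.sum_const, nsmul_eq_mul, hσ]
    rw [Finset.sum_congr rfl h3, Finset.sum_filter]
    refine Finset.sum_congr rfl fun o _ => ?_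
    by_cases h5 : S ⊆ F o
    · rw [if_pos h5]
      refine Finset.sum_congr rfl fun o' _ => ?_
      by_cases h6 : S ⊆ F o'
      · rw [if_pos h6, if_pos (Finset.subset_inter h5 h6)]
      · rw [if_neg h6, if_neg fun h => h6 (h.trans Finset.inter_subset_right)]
    · rw [if_neg h5]
      symm
      refine Finset.sum_eq_zero fun o' _ => if_neg fun h => h5 (h.trans Finset.inter_subset_left)
  refine (Finset.sum_le_sum fun S _ => h1 S).trans (le_of_eq ?_)
  rw [Finset.sum_comm]
  refine Finset.sum_congr rfl fun o _ => ?_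
  rw [Finset.sum_comm]
  refine Finset.sum_congr rfl fun o' _ => ?_
  have h2 : ∑ S ∈ 𝒮, (if S ⊆ F o ∩ F o' then (N : ℝ) * σ ^ S.card else 0) =
      ∑ S, (if S ⊆ F o ∩ F o' then (N : ℝ) * σ ^ S.card else 0) - N := by
    rw [h𝒮, ← Finset.sum_erase_add _ _ (Finset.mem_univ (∅ : Finset E)), if_pos (by simp)]
    simp
  have h3 : ∑ S, (if S ⊆ F o ∩ F o' then (N : ℝ) * σ ^ S.card else 0) =
      N * (1 + σ) ^ (F o ∩ F o').card := by
    rw [← Finset.sum_filter]
    have e1 : (Finset.univ.filter fun S => S ⊆ F o ∩ F o') = (F o ∩ F o').powerset := by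
      ext S
      rw [Finset.mem_filter, Finset.mem_powerset]
      exact ⟨fun h => h.2, fun h => ⟨Finset.mem_univ _, h⟩⟩
    rw [e1, ← Finset.mul_sum]
    congr 1
    have e2 := Finset.sum_pow_mul_eq_add_pow σ 1 (F o ∩ F o')
    simp only [one_pow, mul_one] at e2
    rw [e2, add_comm]
  rw [h2, h3, hF]
  ring

end

end Pool.Agent.Q204.PL
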