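import Mathlib
import Pool.Agent.Y14.Word
import Pool.Agent.Q204.YM.Pair

/-!
# Sums of transports in a time slice: reflection positivity and propagation in time
-/

open MeasureTheory Matrix Filter
open scoped Matrix.Norms.Frobenius ContDiff Topology
open Pool.Agent.H906R3.YM hiding Pl
open Pool.Agent.W793.YM Pool.Agent.TH618.YM Pool.Agent.Y14

namespace Pool.Agent.Q204.PL

set_option linter.unusedSectionVars false
set_option linter.unusedVariables false

noncomputable section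

section alg

variable {d m : ℕ} [NeZero m] {G : Type*} [Group G] [TopologicalSpace G] [IsTopologicalGroup G]
  [CompactSpace G] [SecondCountableTopology G] [MeasurableSpace G] [BorelSpace G]
  {hm : 2 ≤ m} {τ : Fin d} {z : Fin d → ZMod (2 * m)}

lemma tr_zero' (U : Ed d (2 * m) → G) : tr 0 U = U := by
  funext e
  unfold tr
  rw [add_zero]

lemma tr_tr' (y w : Fin d → ZMod (2 * m)) (U : Ed d (2 * m) → G) :
    tr y (tr w U) = tr (y + w) U := by
  funext e
  unfold tr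
  simp only [add_assoc]

/-- observables of a time slice which transform like the transports from `0` to `z` -/
structure Sl (τ : Fin d) (z : Fin d → ZMod (2 * m)) (g : (Ed d (2 * m) → G) → G) : Prop where
  cont : Continuous g
  loc : ∀ U U' : Ed d (2 * m) → G,
    (∀ e : Ed d (2 * m), e.1 τ = 0 → e.2 ≠ τ → U e = U' e) → g U = g U'
  gau : ∀ (γ : (Fin d → ZMod (2 * m)) → G) (U : Ed d (2 * m) → G),
    g (gt γ U) = γ 0 * g U * (γ z)⁻¹

variable {g g' : (Ed d (2 * m) → G) → G}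

lemma Sl.gau_tr (h : Sl τ z g) (γ : (Fin d → ZMod (2 * m)) → G) (y : Fin d → ZMod (2 * m))
    (U : Ed d (2 * m) → G) : g (tr y (gt γ U)) = γ y * g (tr y U) * (γ (y + z))⁻¹ := by
  have e1 : tr y (gt γ U) = gt (fun x => γ (x + y)) (tr y U) := by
    funext e
    unfold tr gt
    simp only
    rw [add_right_comm]
  rw [e1, h.gau, zero_add, add_comm z y]

lemma Sl.fix (h : Sl τ z g) (y : Fin d → ZMod (2 * m)) (U : Ed d (2 * m) → G) :
    g (tr y (fix τ U)) = g (tr y U) := by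
  refine h.loc _ _ fun e _ he => ?_
  unfold tr
  exact fix_ne _ _ he

lemma Sl.refl (h : Sl τ z g) (y : Fin d → ZMod (2 * m)) (U : Ed d (2 * m) → G) :
    g (tr y ((TR hm τ).tU U)) = g (tr (rA τ y) U) := by
  refine h.loc _ _ fun e he1 he => ?_
  unfold tr
  rw [tU_ne _ _ he]
  congr 2
  unfold rA
  funext k
  by_cases hk : k = τ
  · subst hk; simp [he1]
  · simp [hk]

/-- the upper part of the loop -/
def ug (τ : Fin d) (z : Fin d → ZMod (2 * m)) (g : (Ed d (2 * m) → G) → G) (T : ℕ)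
    (y : Fin d → ZMod (2 * m)) (U : Ed d (2 * m) → G) : G :=
  ln U τ T y * g (tr (y + T • eT τ) U) * (ln U τ T (y + z))⁻¹

/-- the loop with the sides `g` and `g'` at the distance `T` -/
def lg (τ : Fin d) (z : Fin d → ZMod (2 * m)) (g g' : (Ed d (2 * m) → G) → G) (T : ℕ)
    (y : Fin d → ZMod (2 * m)) (U : Ed d (2 * m) → G) : G :=
  ln U τ T y * g' (tr (y + T • eT τ) U) * (ln U τ T (y + z))⁻¹ * (g (tr y U))⁻¹

lemma lg_gt (h : Sl τ z g) (h' : Sl τ z g') (T : ℕ) (y : Fin d → ZMod (2 * m))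
    (γ : (Fin d → ZMod (2 * m)) → G) (U : Ed d (2 * m) → G) :
    lg τ z g g' T y (gt γ U) = γ y * lg τ z g g' T y U * (γ y)⁻¹ := by
  unfold lg
  rw [ln_gt, ln_gt, h.gau_tr, h'.gau_tr]
  have e1 : y + z + T • eT τ = y + T • eT τ + z := by abel
  rw [e1]
  group

lemma lg_tr (T : ℕ) (y w : Fin d → ZMod (2 * m)) (U : Ed d (2 * m) → G) :
    lg τ z g g' T y (tr w U) = lg τ z g g' T (y + w) U := by
  unfold lg
  rw [ln_tr, ln_tr, tr_tr', tr_tr']
  have e1 : y + T • eT τ + w = y + w + T • eT τ := by abel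
  have e2 : y + z + w = y + w + z := by abel
  rw [e1, e2]

lemma lg_fix (hm : 2 ≤ m) (hz : z τ = 0) (h : Sl τ z g) (h' : Sl τ z g')
    (U : Ed d (2 * m) → G) {x : Fin d → ZMod (2 * m)}
    (hx : x τ = 1) {T1 T2 : ℕ} (h1 : T1 + 1 ≤ m) (h2 : T2 + 1 ≤ m) :
    lg τ z g g' (T1 + 1 + T2) (x - (T1 + 1) • eT τ) (fix τ U) =
      (ln ((TR hm τ).tU U) τ T1 x)⁻¹ *
        (ug τ z g' T2 x U * (ug τ z g T1 x ((TR hm τ).tU U))⁻¹) * ln ((TR hm τ).tU U) τ T1 x := by
  unfold lg ug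
  have hx' : (x + z : Fin d → ZMod (2 * m)) τ = 1 := by rw [Pi.add_apply, hz, hx, add_zero]
  have e1 : x - (T1 + 1) • eT τ + z = x + z - (T1 + 1) • (eT τ : Fin d → ZMod (2 * m)) := by
    abel
  have e2 : x - (T1 + 1) • eT τ + (T1 + 1 + T2) • eT τ = x + T2 • (eT τ : Fin d → ZMod (2 * m)) := by
    rw [add_smul (T1 + 1) T2]; abel
  have e3 : rA τ (x + T1 • eT τ) = x - (T1 + 1) • eT τ := by
    funext k
    unfold rA eT
    by_cases hk : k = τ
    · subst hk; simp [hx]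
    · simp [hk]
  rw [e1, ln_cross hm U hx h1 h2, ln_cross hm U hx' h1 h2, e2, h.fix, h'.fix,
    h.refl (hm := hm), e3]
  group

lemma ug_dep (hm : 2 ≤ m) (hz : z τ = 0) (h : Sl τ z g) {T : ℕ} (hT : T + 1 ≤ m) :
    Dep (TR hm τ).R fun U : Ed d (2 * m) → G => ug τ z g T (eT τ) U := by
  intro U U' hU
  show ug τ z g T (eT τ) U = ug τ z g T (eT τ) U'
  unfold ug
  have hx : (eT τ : Fin d → ZMod (2 * m)) τ = 1 := by simp [eT]
  rw [ln_dep_same hm hU hx hT, ln_dep_same hm hU (z := eT τ + z) (by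
    rw [Pi.add_apply, hz, hx, add_zero]) hT]
  congr 2
  refine h.loc _ _ fun e he1 he => ?_
  unfold tr
  refine hU _ ?_
  show if e.2 = τ then _ else H1 m ((e.1 + (eT τ + T • eT τ) : Fin d → ZMod (2 * m)) τ)
  rw [if_neg he]
  have e1 : (e.1 + (eT τ + T • eT τ) : Fin d → ZMod (2 * m)) τ = ((1 + T : ℕ) : ZMod (2 * m)) := by
    rw [Pi.add_apply, he1, nsmul_same, hx]
    push_cast; ring
  rw [e1]
  exact H1_nat (by omega) (by omega) hm

lemma ug_cont (h : Sl τ z g) (T : ℕ) (y : Fin d → ZMod (2 * m)) :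
    Continuous fun U : Ed d (2 * m) → G => ug τ z g T y U :=
  ((ln_cont _ _ _).mul (h.cont.comp (tr_cont _))).mul (ln_cont _ _ _).inv

lemma lg_cont (h : Sl τ z g) (h' : Sl τ z g') (T : ℕ) (y : Fin d → ZMod (2 * m)) :
    Continuous fun U : Ed d (2 * m) → G => lg τ z g g' T y U :=
  (((ln_cont _ _ _).mul (h'.cont.comp (tr_cont _))).mul (ln_cont _ _ _).inv).mul
    (h.cont.comp (tr_cont _)).inv

end alg

variable {G : Type*} [Group G] [TopologicalSpace G] [IsTopologicalGroup G] [CompactSpace G]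
  [SecondCountableTopology G] [MeasurableSpace G] [BorelSpace G] (μ : Measure G)
  [IsProbabilityMeasure μ] [μ.IsMulLeftInvariant] [μ.IsMulRightInvariant] [μ.IsInvInvariant]
  {N n : ℕ} {L : LD G N n} {d m : ℕ} [NeZero m] {τ : Fin d} {z : Fin d → ZMod (2 * m)}
  {O : Type*} [Fintype O] {g : O → (Ed d (2 * m) → G) → G}

lemma sum_co_rho (a b : O → G) :
    ∑ c, co c (∑ o, L.rho (a o)) * co c (∑ o, L.rho (b o)) =
      ∑ o, ∑ o', rt L (a o * (b o')⁻¹) := by
  have e1 : ∀ c, co c (∑ o, L.rho (a o)) * co c (∑ o, L.rho (b o)) =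
      ∑ o, ∑ o', co c (L.rho (a o)) * co c (L.rho (b o')) := by
    intro c
    rw [map_sum, map_sum, Finset.sum_mul_sum]
  simp only [e1]
  rw [Finset.sum_comm]
  refine Finset.sum_congr rfl fun o _ => ?_
  rw [Finset.sum_comm]
  refine Finset.sum_congr rfl fun o' _ => ?_
  rw [rt_mul]

variable (L) in
/-- the sum of the loops -/
def Fl (τ : Fin d) (z : Fin d → ZMod (2 * m)) (g : O → (Ed d (2 * m) → G) → G) (T : ℕ)
    (y : Fin d → ZMod (2 * m)) (U : Ed d (2 * m) → G) : ℝ :=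
  ∑ o, ∑ o', rt L (lg τ z (g o') (g o) T y U)

variable (L) in
/-- the coordinates of the upper part with the weight -/
def us (β : ℝ) (τ : Fin d) (z : Fin d → ZMod (2 * m)) (g : O → (Ed d (2 * m) → G) → G)
    (T : ℕ) (c : Fin N × Fin N × Bool) (U : Ed d (2 * m) → G) : ℝ :=
  co c (∑ o, L.rho (ug τ z (g o) T (eT τ) U)) * (wR L β m τ).1 U

lemma us_cont (h : ∀ o, Sl τ z (g o)) (β : ℝ) (T : ℕ) (c : Fin N × Fin N × Bool) :
    Continuous (us L β τ z g T c) :=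
  ((co c).continuous.comp (continuous_finsetSum _ fun o _ =>
    L.cont.comp (ug_cont (h o) _ _))).mul (Sm_cont _)

lemma us_dep (hm : 2 ≤ m) (hz : z τ = 0) (h : ∀ o, Sl τ z (g o)) (β : ℝ) {T : ℕ}
    (hT : T + 1 ≤ m) (c : Fin N × Fin N × Bool) : Dep (TR hm τ).R (us L β τ z g T c) := by
  intro U U' hU
  unfold us
  have h1 : ∀ o, ug τ z (g o) T (eT τ) U = ug τ z (g o) T (eT τ) U' := fun o =>
    ug_dep hm hz (h o) hT U U' hU
  simp only [h1]
  rw [wR_dep (L := L) hm β τ U U' hU]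

lemma Fl_cont (h : ∀ o, Sl τ z (g o)) (T : ℕ) (y : Fin d → ZMod (2 * m)) :
    Continuous (Fl L τ z g T y) :=
  continuous_finsetSum _ fun o _ => continuous_finsetSum _ fun o' _ =>
    rt_cont.comp (lg_cont (h o') (h o) _ _)

lemma Fl_tr (T : ℕ) (y w : Fin d → ZMod (2 * m)) (U : Ed d (2 * m) → G) :
    Fl L τ z g T y (tr w U) = Fl L τ z g T (y + w) U := by
  unfold Fl
  simp only [lg_tr]

/-- the expectation of the loops, with reflection positivity -/
theorem Fl_rp (hm : 2 ≤ m) (hz : z τ = 0) (h : ∀ o, Sl τ z (g o)) (β : ℝ) : ∃ c : ℝ, 0 < c ∧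
    ∀ (T1 T2 : ℕ), T1 + 1 ≤ m → T2 + 1 ≤ m →
    Zt μ L β (Fl L τ z g (T1 + 1 + T2) 0) =
      c * ∑ k, (TR hm τ).B μ L β (us L β τ z g T2 k) (us L β τ z g T1 k) := by
  obtain ⟨c, hc, hred⟩ := Zt_red μ (L := L) hm τ β
  refine ⟨c, hc, fun T1 T2 h1 h2 => ?_⟩
  have e1 : Zt μ L β (Fl L τ z g (T1 + 1 + T2) 0) =
      Zt μ L β (Fl L τ z g (T1 + 1 + T2) (eT τ - (T1 + 1) • eT τ)) := by
    rw [← Zt_tr μ β (eT τ - (T1 + 1) • eT τ) (Fl L τ z g (T1 + 1 + T2) 0)]
    simp only [Fl_tr, zero_add]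
  have hg : GI (Fl L τ z g (T1 + 1 + T2) (eT τ - (T1 + 1) • eT τ)) := fun γ U => by
    show Fl L τ z g _ _ (gt γ U) = _
    unfold Fl
    refine Finset.sum_congr rfl fun o _ => Finset.sum_congr rfl fun o' _ => ?_
    rw [lg_gt (h o') (h o), rt_conj]
  rw [e1, hred _ (Fl_cont h _ _) hg]
  congr 1
  have hi2 : ∀ k ∈ (Finset.univ : Finset (Fin N × Fin N × Bool)), Integrable
      (fun U : Ed d (2 * m) → G => us L β τ z g T2 k U * us L β τ z g T1 k ((TR hm τ).tU U) *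
        Real.exp (β * (TR hm τ).ker L U)) (ME μ (Ed d (2 * m))) := fun k _ =>
    integrable_cont μ (((us_cont h β T2 k).mul ((us_cont h β T1 k).comp (TR hm τ).tU_cont)).mul
      (Real.continuous_exp.comp (continuous_const.mul (TR hm τ).ker_cont)))
  unfold Refl.Ew Refl.B
  rw [← integral_finsetSum _ hi2]
  refine integral_congr_ae (Filter.Eventually.of_forall fun U => ?_)
  simp only
  have e2 : Fl L τ z g (T1 + 1 + T2) (eT τ - (T1 + 1) • eT τ) (fix τ U) =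
      ∑ k, co k (∑ o, L.rho (ug τ z (g o) T2 (eT τ) U)) *
        co k (∑ o, L.rho (ug τ z (g o) T1 (eT τ) ((TR hm τ).tU U))) := by
    rw [sum_co_rho]
    unfold Fl
    refine Finset.sum_congr rfl fun o _ => Finset.sum_congr rfl fun o' _ => ?_
    rw [lg_fix hm hz (h o') (h o) U (by simp [eT]) h1 h2, rt_conj']
  rw [e2, Finset.sum_mul]
  refine Finset.sum_congr rfl fun k _ => ?_
  unfold us
  ring

/-- convexity of the expectations of the loops -/
theorem Fl_convex (hm : 2 ≤ m) (hz : z τ = 0) (h : ∀ o, Sl τ z (g o)) {β : ℝ} (hβ : 0 ≤ β)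
    {T1 T2 : ℕ} (h1 : T1 + 1 ≤ m) (h2 : T2 + 1 ≤ m) :
    2 * EX μ L β (Fl L τ z g (T1 + 1 + T2) 0) ≤
      EX μ L β (Fl L τ z g (2 * T1 + 1) 0) + EX μ L β (Fl L τ z g (2 * T2 + 1) 0) := by
  obtain ⟨c, hc, hrp⟩ := Fl_rp μ (L := L) hm hz h β
  have e1 := hrp T1 T2 h1 h2
  have e2 := hrp T1 T1 h1 h1
  have e3 := hrp T2 T2 h2 h2
  have a1 : T1 + 1 + T1 = 2 * T1 + 1 := by omega
  have a2 : T2 + 1 + T2 = 2 * T2 + 1 := by omega
  rw [a1] at e2
  rw [a2] at e3
  have hq : 0 ≤ ∑ k, ((TR hm τ).B μ L β (us L β τ z g T2 k) (us L β τ z g T2 k) +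
      2 * (-1) * (TR hm τ).B μ L β (us L β τ z g T2 k) (us L β τ z g T1 k) +
      (-1) ^ 2 * (TR hm τ).B μ L β (us L β τ z g T1 k) (us L β τ z g T1 k)) :=
    Finset.sum_nonneg fun k _ => (TR hm τ).B_quad μ hβ (us_cont h β T2 k)
      (us_dep hm hz h β h2 k) (us_cont h β T1 k) (us_dep hm hz h β h1 k) (-1)
  rw [Finset.sum_add_distrib, Finset.sum_add_distrib, ← Finset.mul_sum, ← Finset.mul_sum] at hq
  have hZ := Zt_pos μ (L := L) (d := d) (l := 2 * m) β
  unfold EX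
  rw [← mul_div_assoc, ← add_div]
  refine div_le_div_of_nonneg_right ?_ hZ.le
  rw [e1, e2, e3]
  have := mul_nonneg hc.le hq
  linarith

/-! ### the transport in time -/

variable (L) in
/-- the variation of the sum in `T` units of time -/
def Xt (τ : Fin d) (z : Fin d → ZMod (2 * m)) (g : O → (Ed d (2 * m) → G) → G) (T : ℕ)
    (U : Ed d (2 * m) → G) : Mat N :=
  (∑ o, L.rho (g o U)) * L.rho (ln U τ T z) -
    L.rho (ln U τ T 0) * ∑ o, L.rho (g o (tr (T • eT τ) U))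

lemma Xt_cont (h : ∀ o, Sl τ z (g o)) (T : ℕ) : Continuous (Xt L τ z g T) := by
  unfold Xt
  refine Continuous.sub ?_ ?_
  · exact (continuous_finsetSum _ fun o _ => L.cont.comp (h o).cont).mul
      (L.cont.comp (ln_cont _ _ _))
  · exact (L.cont.comp (ln_cont _ _ _)).mul (continuous_finsetSum _ fun o _ =>
      L.cont.comp ((h o).cont.comp (tr_cont _)))

lemma Xt_sq (T : ℕ) (U : Ed d (2 * m) → G) :
    ‖Xt L τ z g T U‖ ^ 2 = ‖∑ o, L.rho (g o U)‖ ^ 2 +
      ‖∑ o, L.rho (g o (tr (T • eT τ) U))‖ ^ 2 - 2 * Fl L τ z g T 0 U := by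
  obtain ⟨A, hA⟩ : ∃ A : Mat N, A = ∑ o, L.rho (g o U * ln U τ T z) := ⟨_, rfl⟩
  obtain ⟨B, hB⟩ : ∃ B : Mat N, B = ∑ o, L.rho (ln U τ T 0 * g o (tr (T • eT τ) U)) := ⟨_, rfl⟩
  have hA' : A = (∑ o, L.rho (g o U)) * L.rho (ln U τ T z) := by
    rw [hA, Finset.sum_mul]
    exact Finset.sum_congr rfl fun o _ => map_mul _ _ _
  have hB' : B = L.rho (ln U τ T 0) * ∑ o, L.rho (g o (tr (T • eT τ) U)) := by
    rw [hB, Finset.mul_sum]
    exact Finset.sum_congr rfl fun o _ => map_mul _ _ _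
  have e1 : Xt L τ z g T U = A - B := by rw [hA', hB']; rfl
  have nA : ‖A‖ = ‖∑ o, L.rho (g o U)‖ := by rw [hA', norm_rmul]
  have nB : ‖B‖ = ‖∑ o, L.rho (g o (tr (T • eT τ) U))‖ := by rw [hB', norm_lmul]
  have e2 : ∑ c, co c B * co c A = Fl L τ z g T 0 U := by
    rw [hA, hB, sum_co_rho]
    unfold Fl lg
    refine Finset.sum_congr rfl fun o _ => Finset.sum_congr rfl fun o' _ => ?_
    rw [zero_add, zero_add, tr_zero']
    congr 1
    group
  rw [e1, ← nA, ← nB, ← e2, norm_sq_co, norm_sq_co, norm_sq_co, ← Finset.sum_add_distrib,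
    Finset.mul_sum, ← Finset.sum_sub_distrib]
  refine Finset.sum_congr rfl fun c _ => ?_
  rw [map_sub]; ring

lemma EX_Xt (h : ∀ o, Sl τ z (g o)) {β : ℝ} (T : ℕ) :
    EX μ L β (fun U => ‖Xt L τ z g T U‖ ^ 2) =
      2 * (EX μ L β (fun U => ‖∑ o, L.rho (g o U)‖ ^ 2) - EX μ L β (Fl L τ z g T 0)) := by
  have c0 : Continuous fun U : Ed d (2 * m) → G => ‖∑ o, L.rho (g o U)‖ ^ 2 :=
    (continuous_finsetSum _ fun o _ => L.cont.comp (h o).cont).norm.pow 2
  have c1 : Continuous fun U : Ed d (2 * m) → G => ‖∑ o, L.rho (g o (tr (T • eT τ) U))‖ ^ 2 :=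
    c0.comp (tr_cont _)
  have c2 : Continuous fun U : Ed d (2 * m) → G => 2 * Fl L τ z g T 0 U :=
    continuous_const.mul (Fl_cont h _ _)
  simp only [Xt_sq]
  have s1 := EX_sub μ (L := L) (β := β) (F := fun U : Ed d (2 * m) → G =>
    ‖∑ o, L.rho (g o U)‖ ^ 2 + ‖∑ o, L.rho (g o (tr (T • eT τ) U))‖ ^ 2)
    (H := fun U => 2 * Fl L τ z g T 0 U) (c0.add c1) c2
  rw [s1, EX_add μ c0 c1, EX_smul,
    EX_tr μ (T • eT τ) (fun U : Ed d (2 * m) → G => ‖∑ o, L.rho (g o U)‖ ^ 2)]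
  ring

lemma Xt_zero (U : Ed d (2 * m) → G) : Xt L τ z g 0 U = 0 := by
  unfold Xt
  rw [ln_zero, ln_zero, map_one, mul_one, one_mul, zero_smul, tr_zero', sub_self]

lemma Xt_add (a b : ℕ) (U : Ed d (2 * m) → G) :
    ‖Xt L τ z g (a + b) U‖ ≤ ‖Xt L τ z g a U‖ + ‖Xt L τ z g b (tr (a • eT τ) U)‖ := by
  have e1 : Xt L τ z g (a + b) U = Xt L τ z g a U * L.rho (ln U τ b (z + a • eT τ)) +
      L.rho (ln U τ a 0) * Xt L τ z g b (tr (a • eT τ) U) := by
    unfold Xt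
    rw [ln_add, ln_add, ln_tr, ln_tr, tr_tr', zero_add, map_mul, map_mul, add_smul,
      add_comm (b • (eT τ : Fin d → ZMod (2 * m)))]
    noncomm_ring
  rw [e1]
  refine (norm_add_le _ _).trans ?_
  rw [norm_rmul, norm_lmul]

lemma en_Xt_add (h : ∀ o, Sl τ z (g o)) {β : ℝ} (a b : ℕ) :
    en μ L β (fun U => ‖Xt L τ z g (a + b) U‖) ≤
      en μ L β (fun U => ‖Xt L τ z g a U‖) + en μ L β (fun U => ‖Xt L τ z g b U‖) := by
  have e1 : en μ L β (fun U => ‖Xt L τ z g b (tr (a • eT τ) U)‖) =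
      en μ L β (fun U => ‖Xt L τ z g b U‖) := by
    unfold en
    rw [EX_tr μ (a • eT τ) (fun U : Ed d (2 * m) → G => ‖Xt L τ z g b U‖ ^ 2)]
  have c1 := (Xt_cont (L := L) h a).norm
  have c2 : Continuous fun U : Ed d (2 * m) → G => ‖Xt L τ z g b (tr (a • eT τ) U)‖ :=
    (Xt_cont (L := L) h b).norm.comp (tr_cont _)
  rw [← e1]
  refine le_trans (en_mono μ (Xt_cont h _).norm (c1.add c2) fun U => ?_) (en_add μ c1 c2)
  rw [abs_of_nonneg (norm_nonneg _)]
  exact Xt_add _ _ _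

/-- **The variation in `T` units of time** is at most `9 T` times the variation in one unit of
time. -/
theorem Xt_time (hm : 2 ≤ m) (hz : z τ = 0) (h : ∀ o, Sl τ z (g o)) {β : ℝ} (hβ : 0 ≤ β)
    {T : ℕ} (hT : T ≤ 2 * m) :
    EX μ L β (fun U => ‖Xt L τ z g T U‖ ^ 2) ≤
      9 * T * EX μ L β (fun U => ‖Xt L τ z g 1 U‖ ^ 2) := by
  obtain ⟨q, hq⟩ : ∃ q : ℕ → ℝ, q = fun T => en μ L β (fun U => ‖Xt L τ z g T U‖) := ⟨_, rfl⟩
  have hq0 : ∀ T, 0 ≤ q T := fun T => by rw [hq]; exact en_nonneg μ _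
  have hqs : ∀ T, q T ^ 2 = EX μ L β (fun U => ‖Xt L τ z g T U‖ ^ 2) := fun T => by
    rw [hq]; exact en_sq μ _
  have hqa : ∀ a b, q (a + b) ≤ q a + q b := fun a b => by
    rw [hq]; exact en_Xt_add μ h a b
  have hqE : ∀ T, q T ^ 2 = 2 * (EX μ L β (fun U => ‖∑ o, L.rho (g o U)‖ ^ 2) -
      EX μ L β (Fl L τ z g T 0)) := fun T => by rw [hqs]; exact EX_Xt μ h T
  obtain ⟨f, hf⟩ : ∃ f : ℕ → ℝ, f = fun T => EX μ L β (Fl L τ z g T 0) := ⟨_, rfl⟩
  obtain ⟨f0, hf0⟩ : ∃ f0 : ℝ, f0 = EX μ L β (fun U => ‖∑ o, L.rho (g o U)‖ ^ 2) := ⟨_, rfl⟩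
  have hqf : ∀ T, q T ^ 2 = 2 * (f0 - f T) := fun T => by rw [hqE, hf, hf0]
  have hcv : ∀ k, k + 2 < m → 2 * f (2 * k + 3) ≤ f (2 * k + 1) + f (2 * k + 5) := by
    intro k hk
    have h1 := Fl_convex μ (L := L) hm hz h hβ (T1 := k) (T2 := k + 2) (by omega) (by omega)
    have e1 : k + 1 + (k + 2) = 2 * k + 3 := by omega
    have e2 : 2 * (k + 2) + 1 = 2 * k + 5 := by omega
    rw [e1, e2] at h1
    rw [hf]; exact h1
  have hstep : ∀ k, k + 1 < m → f (2 * k + 1) - f (2 * k + 3) ≤ f 1 - f 3 := by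
    intro k
    induction k with
    | zero => intro _; exact le_rfl
    | succ k ih =>
      intro hk
      have h1 := ih (by omega)
      have h2 := hcv k (by omega)
      have e1 : 2 * (k + 1) + 1 = 2 * k + 3 := by omega
      have e2 : 2 * (k + 1) + 3 = 2 * k + 5 := by omega
      rw [e1, e2]
      linarith
  have hsum : ∀ k, k < m → f 1 - f (2 * k + 1) ≤ k * (f 1 - f 3) := by
    intro k
    induction k with
    | zero => intro _; simp
    | succ k ih =>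
      intro hk
      have h1 := ih (by omega)
      have h2 := hstep k (by omega)
      have e1 : 2 * (k + 1) + 1 = 2 * k + 3 := by omega
      rw [e1]
      push_cast
      linarith
  have h3 : q 3 ≤ 3 * q 1 := by
    have h1 := hqa 1 2
    have h2 := hqa 1 1
    norm_num at h1 h2
    linarith
  have h3' : q 3 ^ 2 ≤ 9 * q 1 ^ 2 := by
    have := pow_le_pow_left₀ (hq0 3) h3 2
    linarith [show (3 * q 1) ^ 2 = 9 * q 1 ^ 2 by ring]
  have hodd : ∀ k, k < m → q (2 * k + 1) ^ 2 ≤ (9 * k + 1) * q 1 ^ 2 := by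
    intro k hk
    have h1 := hsum k hk
    have h4 := hqf 1
    have h5 := hqf 3
    have h6 := hqf (2 * k + 1)
    have h7 : f 1 - f 3 ≤ 9 / 2 * q 1 ^ 2 := by
      have : 0 ≤ q 1 ^ 2 := sq_nonneg _
      linarith
    have h8 : (k : ℝ) * (f 1 - f 3) ≤ k * (9 / 2 * q 1 ^ 2) :=
      mul_le_mul_of_nonneg_left h7 (Nat.cast_nonneg k)
    rw [h6]
    linarith
  rw [← hqs, ← hqs]
  have hq1 : 0 ≤ q 1 ^ 2 := sq_nonneg _
  rcases Nat.even_or_odd' T with ⟨k, hk | hk⟩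
  · rcases Nat.eq_zero_or_pos k with h0 | h0
    · subst h0
      rw [hk]
      simp only [mul_zero, Nat.cast_zero, zero_mul]
      rw [hqs]
      simp only [Xt_zero, norm_zero]
      have : (fun _ : Ed d (2 * m) → G => (0 : ℝ) ^ 2) = fun _ => 0 := by funext U; ring
      rw [this, EX_const]
    · obtain ⟨e, rfl⟩ : ∃ e, k = e + 1 := ⟨k - 1, by omega⟩
      have h1 := hodd e (by omega)
      have h2 := hqa (2 * e + 1) 1
      have e1 : 2 * e + 1 + 1 = T := by omega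
      rw [e1] at h2
      have h4 : q T ^ 2 ≤ (q (2 * e + 1) + q 1) ^ 2 := pow_le_pow_left₀ (hq0 _) h2 2
      have h5 : (q (2 * e + 1) + q 1) ^ 2 ≤ 2 * q (2 * e + 1) ^ 2 + 2 * q 1 ^ 2 := by
        nlinarith [sq_nonneg (q (2 * e + 1) - q 1)]
      rw [hk]
      push_cast
      have e2 : q (2 * (e + 1)) = q T := by rw [hk]
      rw [e2]
      nlinarith
  · have h1 := hodd k (by omega)
    rw [hk]
    push_cast
    have h2 : (0 : ℝ) ≤ k := Nat.cast_nonneg k
    nlinarith [mul_nonneg h2 hq1]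

/-! ### one unit of time -/

/-- the value of an oriented link -/
def ov (U : Ed d (2 * m) → G) (f : Ed d (2 * m) × Bool) : G := if f.2 then U f.1 else (U f.1)⁻¹

lemma rho_ov {J : Finset (Ed d (2 * m))} {w : IJ J N → ℝ} {U : Ed d (2 * m) → G}
    {f : Ed d (2 * m) × Bool} (h : mx J w f.1 = L.rho (U f.1)) : sm J w f = L.rho (ov U f) := by
  unfold sm ov
  split_ifs
  · exact h
  · rw [h, L.rho_inv]

lemma sp_ov {J : Finset (Ed d (2 * m))} {w : IJ J N → ℝ} {U : Ed d (2 * m) → G}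
    {l : List (Ed d (2 * m) × Bool)} (h : ∀ f ∈ l, mx J w f.1 = L.rho (U f.1)) :
    sp J w l = L.rho ((l.map (ov U)).prod) := by
  induction l with
  | nil => rw [sp_nil, List.map_nil, List.prod_nil, map_one]
  | cons f l ih =>
    rw [sp_cons, List.map_cons, List.prod_cons, map_mul, rho_ov (h f List.mem_cons_self),
      ih fun f' hf' => h f' (List.mem_cons_of_mem _ hf')]

/-- the links shifted by one unit of time -/
def sh (τ : Fin d) (f : Ed d (2 * m) × Bool) : Ed d (2 * m) × Bool := ((f.1.1 + eT τ, f.1.2), f.2)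

/-- **The variation in one unit of time** -/
theorem Xt_one (hm : 2 ≤ m) (hz : z τ = 0) (h : ∀ o, Sl τ z (g o)) {β : ℝ} (hβ : 0 < β)
    (l : O → List (Ed d (2 * m) × Bool))
    (hl : ∀ o, ((l o).map Prod.fst).Nodup)
    (hs : ∀ o, ∀ f ∈ l o, f.1.1 τ = 0 ∧ f.1.2 ≠ τ)
    (hg : ∀ o U, g o U = ((l o).map (ov U)).prod) :
    EX μ L β (fun U => ‖Xt L τ z g 1 U‖ ^ 2) ≤
      ∑ o, ∑ o', (N : ℝ) * ((1 + 2 * N / β) ^
        (((l o).map Prod.fst).toFinset ∩ ((l o').map Prod.fst).toFinset).card - 1) := by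
  classical
  obtain ⟨K, hK⟩ : ∃ K : ℝ, K = ∑ o, ∑ o', (N : ℝ) * ((1 + 2 * N / β) ^
        (((l o).map Prod.fst).toFinset ∩ ((l o').map Prod.fst).toFinset).card - 1) := ⟨_, rfl⟩
  rw [← hK]
  obtain ⟨c, hc, hred⟩ := Zt_red μ (L := L) hm τ β
  have hcont : Continuous fun U : Ed d (2 * m) → G => ‖Xt L τ z g 1 U‖ ^ 2 :=
    (Xt_cont h 1).norm.pow 2
  have hgi : GI fun U : Ed d (2 * m) → G => ‖Xt L τ z g 1 U‖ ^ 2 := fun γ U => by
    show ‖Xt L τ z g 1 (gt γ U)‖ ^ 2 = _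
    have e1 : Xt L τ z g 1 (gt γ U) = L.rho (γ 0) * Xt L τ z g 1 U *
        L.rho ((γ (z + 1 • eT τ))⁻¹) := by
      unfold Xt
      have e2 : ∀ o, L.rho (g o (gt γ U)) = L.rho (γ 0) * L.rho (g o U) * L.rho ((γ z)⁻¹) := by
        intro o
        rw [(h o).gau, map_mul, map_mul]
      have e3 : ∀ o, L.rho (g o (tr (1 • eT τ) (gt γ U))) =
          L.rho (γ (1 • eT τ)) * L.rho (g o (tr (1 • eT τ) U)) *
            L.rho ((γ (z + 1 • eT τ))⁻¹) := by
        intro o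
        rw [(h o).gau_tr, map_mul, map_mul, add_comm z]
      have e4 : ∀ a : G, L.rho a⁻¹ * L.rho a = 1 := fun a => by
        rw [← map_mul, inv_mul_cancel, map_one]
      simp only [e2, e3]
      rw [← Finset.sum_mul, ← Finset.mul_sum, ← Finset.sum_mul, ← Finset.mul_sum, ln_gt, ln_gt,
        map_mul, map_mul, map_mul, map_mul, zero_add]
      calc _ = L.rho (γ 0) * (∑ o, L.rho (g o U)) * (L.rho (γ z)⁻¹ * L.rho (γ z)) *
              L.rho (ln U τ 1 z) * L.rho (γ (z + 1 • eT τ))⁻¹ -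
            L.rho (γ 0) * L.rho (ln U τ 1 0) * (L.rho (γ (1 • eT τ))⁻¹ * L.rho (γ (1 • eT τ))) *
              (∑ o, L.rho (g o (tr (1 • eT τ) U))) * L.rho (γ (z + 1 • eT τ))⁻¹ := by
            noncomm_ring
        _ = _ := by
            rw [e4, e4]
            noncomm_ring
    rw [e1, norm_rmul, norm_lmul]
  have hgi1 : GI fun _ : Ed d (2 * m) → G => (1 : ℝ) := fun γ U => rfl
  unfold EX
  rw [div_le_iff₀ (Zt_pos μ β), hred _ hcont hgi, hred _ continuous_const hgi1]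
  -- the lists at time one
  obtain ⟨l', hl'⟩ : ∃ l' : O → List (Ed d (2 * m) × Bool), l' = fun o => (l o).map (sh τ) :=
    ⟨_, rfl⟩
  have hJ : ∀ o, ∀ f ∈ l' o, f.1 ∈ (TR hm τ).J := by
    intro o f hf
    rw [hl'] at hf
    obtain ⟨f0, hf0, rfl⟩ := List.mem_map.1 hf
    obtain ⟨h1, h2⟩ := hs o f0 hf0
    show _ ∈ Finset.univ.filter _
    rw [Finset.mem_filter]
    refine ⟨Finset.mem_univ _, h2, Or.inl ?_⟩
    unfold sh
    simp only [add_same, h1, zero_add]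
  have hinj : Function.Injective fun e : Ed d (2 * m) => ((e.1 + eT τ, e.2) : Ed d (2 * m)) := by
    intro e e' hee
    have h1 := (Prod.ext_iff.1 hee).1
    have h2 := (Prod.ext_iff.1 hee).2
    exact Prod.ext (add_right_cancel h1) h2
  have hmap : ∀ o, (l' o).map Prod.fst =
      ((l o).map Prod.fst).map fun e : Ed d (2 * m) => ((e.1 + eT τ, e.2) : Ed d (2 * m)) := by
    intro o
    rw [hl']
    simp only [List.map_map]
    rfl
  have hnd : ∀ o, ((l' o).map Prod.fst).Nodup := fun o => by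
    rw [hmap]; exact (hl o).map hinj
  have hcard : ∀ o o', (((l' o).map Prod.fst).toFinset ∩ ((l' o').map Prod.fst).toFinset).card =
      (((l o).map Prod.fst).toFinset ∩ ((l o').map Prod.fst).toFinset).card := by
    intro o o'
    have e1 : ∀ o, ((l' o).map Prod.fst).toFinset = ((l o).map Prod.fst).toFinset.image
        fun e : Ed d (2 * m) => ((e.1 + eT τ, e.2) : Ed d (2 * m)) := by
      intro o
      rw [hmap]
      ext e
      simp
    rw [e1, e1, ← Finset.image_inter _ _ hinj, Finset.card_image_of_injective _ hinj]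
  -- values
  have hov : ∀ o (U : Ed d (2 * m) → G), g o (tr (eT τ) U) = ((l' o).map (ov U)).prod := by
    intro o U
    rw [hg, hl', List.map_map]
    rfl
  have v1 : ∀ o (U : Ed d (2 * m) → G), sp (TR hm τ).J (cv L (TR hm τ) U) (l' o) =
      L.rho (g o (tr (eT τ) U)) := by
    intro o U
    rw [hov]
    exact sp_ov fun f hf => mx_cv _ _ (hJ o f hf)
  have v2 : ∀ o (U : Ed d (2 * m) → G),
      sp (TR hm τ).J (cv L (TR hm τ) ((TR hm τ).tU U)) (l' o) = L.rho (g o U) := by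
    intro o U
    rw [v1, (h o).refl (hm := hm)]
    have e1 : rA τ (eT τ : Fin d → ZMod (2 * m)) = 0 := by
      unfold rA eT
      funext k
      by_cases hk : k = τ
      · subst hk; simp
      · simp [hk]
    rw [e1, tr_zero']
  have hX : ∀ U : Ed d (2 * m) → G, ‖Xt L τ z g 1 (fix τ U)‖ =
      ‖∑ o, sp (TR hm τ).J (cv L (TR hm τ) U) (l' o) -
        ∑ o, sp (TR hm τ).J (cv L (TR hm τ) ((TR hm τ).tU U)) (l' o)‖ := by
    intro U
    simp only [v2]
    simp only [v1]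
    unfold Xt
    have e1 : ∀ y : Fin d → ZMod (2 * m), y τ = 0 → ln (fix τ U) τ 1 y = 1 := by
      intro y hy
      show fix τ U (y, τ) * 1 = 1
      rw [fix_i0' U y (Or.inl hy), mul_one]
    have e2 : ∀ o, g o (fix τ U) = g o U := fun o => by
      have := (h o).fix 0 U
      rwa [tr_zero', tr_zero'] at this
    rw [e1 z hz, e1 0 rfl, map_one, mul_one, one_mul, one_smul]
    simp only [e2, (h _).fix]
    rw [norm_sub_rev]
  have hβ2 : (1 / Real.sqrt β) ^ 2 = 1 / β := by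
    rw [div_pow, one_pow, Real.sq_sqrt hβ.le]
  have hMM : MM fun w : IJ (TR hm τ).J N → ℝ => ∑ o, sp (TR hm τ).J w (l' o) :=
    MM.sum Finset.univ fun o => sp_MM (hnd o)
  have h7 := noise_domM μ (L := L) (TR hm τ) hβ hβ2 hMM
    (Sm_cont (wR L β m τ)) (wR_dep hm β τ) (wR_nonneg β τ)
  simp only [← hX] at h7
  have hUN : ∀ (U : Ed d (2 * m) → G) o, UN (TR hm τ).J (cv L (TR hm τ) U) (l' o) := by
    intro U o f hf
    refine ⟨hJ o f hf, ?_⟩
    rw [mx_cv _ _ (hJ o f hf)]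
    exact L.unit' _
  have h8 : ∀ U : Ed d (2 * m) → G, av (fun s : IJ (TR hm τ).J N → Bool =>
      ‖∑ o, sp (TR hm τ).J (cv L (TR hm τ) U + sg (1 / Real.sqrt β) s) (l' o) -
        ∑ o, sp (TR hm τ).J (cv L (TR hm τ) U) (l' o)‖ ^ 2) ≤ K := by
    intro U
    have h9 := pair_noise (x := cv L (TR hm τ) U) (δ := 1 / Real.sqrt β) hnd (hUN U)
    refine h9.trans (le_of_eq ?_)
    rw [hK]
    refine Finset.sum_congr rfl fun o _ => Finset.sum_congr rfl fun o' _ => ?_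
    rw [hcard, hβ2]
    congr 3
    ring
  have hQc : ∀ s : IJ (TR hm τ).J N → Bool, Continuous fun U : Ed d (2 * m) → G =>
      ‖∑ o, sp (TR hm τ).J (cv L (TR hm τ) U + sg (1 / Real.sqrt β) s) (l' o) -
        ∑ o, sp (TR hm τ).J (cv L (TR hm τ) U) (l' o)‖ ^ 2 := fun s =>
    (((mm_cont hMM).comp ((cv_cont (TR hm τ)).add continuous_const)).sub
      ((mm_cont hMM).comp (cv_cont (TR hm τ)))).norm.pow 2
  have h10 : (TR hm τ).Ew μ L β (wR L β m τ).1 (fun U =>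
      av (fun s : IJ (TR hm τ).J N → Bool =>
      ‖∑ o, sp (TR hm τ).J (cv L (TR hm τ) U + sg (1 / Real.sqrt β) s) (l' o) -
        ∑ o, sp (TR hm τ).J (cv L (TR hm τ) U) (l' o)‖ ^ 2)) ≤
      (TR hm τ).Ew μ L β (wR L β m τ).1 (fun _ => K) :=
    Y14.Ew_mono μ (TR hm τ) (Sm_cont (wR L β m τ)) (wR_nonneg β τ) (av_cont hQc)
      continuous_const h8
  have h11 : (TR hm τ).Ew μ L β (wR L β m τ).1 (fun _ => K) =
      K * (TR hm τ).Ew μ L β (wR L β m τ).1 (fun _ => 1) := by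
    rw [← Refl.Ew_smul]
    simp only [mul_one]
  rw [h11] at h10
  calc _ ≤ c * (K * (TR hm τ).Ew μ L β (wR L β m τ).1 (fun _ => 1)) :=
        mul_le_mul_of_nonneg_left (h7.trans h10) hc.le
    _ = _ := by ring

end

end Pool.Agent.Q204.PL
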