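import Mathlib
import Pool.Agent.TH618.YM.SiteRP
import Pool.Agent.Q204.YM.Slice

/-!
# Paths which leave the straight line and come back to it
-/

open MeasureTheory Matrix Filter
open scoped Matrix.Norms.Frobenius ContDiff Topology
open Pool.Agent.H906R3.YM hiding Pl
open Pool.Agent.W793.YM Pool.Agent.TH618.YM Pool.Agent.Y14

namespace Pool.Agent.Q204.PL

set_option linter.unusedSectionVars false
set_option linter.unusedVariables false

noncomputable section

variable {d m : ℕ} [NeZero m] {G : Type*} [Group G] [TopologicalSpace G] [IsTopologicalGroup G]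
  [CompactSpace G] [SecondCountableTopology G] [MeasurableSpace G] [BorelSpace G]
  {hm : 2 ≤ m} {τ i : Fin d}

/-- the configuration seen from the other end of the line -/
def rf (hm : 2 ≤ m) (i : Fin d) (R : ℕ) (U : Ed d (2 * m) → G) : Ed d (2 * m) → G :=
  (SR hm i).tU (tr (R • eT i) U)

lemma rf_i (R : ℕ) (U : Ed d (2 * m) → G) (x : Fin d → ZMod (2 * m)) :
    rf hm i R U (x, i) = (U (rC i x + R • eT i, i))⁻¹ := by
  unfold rf
  rw [sU_i0]
  rfl

lemma rf_ne (R : ℕ) (U : Ed d (2 * m) → G) (x : Fin d → ZMod (2 * m)) {k : Fin d} (hk : k ≠ i) :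
    rf hm i R U (x, k) = U (rB i x + R • eT i, k) := by
  unfold rf
  rw [sU_ne _ _ hk]
  rfl

lemma rf_cont (R : ℕ) : Continuous (rf (G := G) hm i R) :=
  (SR hm i).tU_cont.comp (tr_cont _)

lemma rf_gt (R : ℕ) (γ : (Fin d → ZMod (2 * m)) → G) (U : Ed d (2 * m) → G) :
    rf hm i R (gt γ U) = gt (fun x => γ (rB i x + R • eT i)) (rf hm i R U) := by
  funext e
  obtain ⟨x, k⟩ := e
  by_cases hk : k = i
  · subst hk
    rw [rf_i]
    unfold gt
    simp only
    rw [rf_i, rB_eq' x, rB_eq x]
    have e1 : rC k x + eT k + R • eT k = rC k x + R • eT k + (eT k : Fin d → ZMod (2 * m)) := by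
      abel
    rw [e1]
    group
  · rw [rf_ne _ _ _ hk]
    unfold gt
    simp only
    rw [rf_ne _ _ _ hk, rB_add hk, add_right_comm]

/-- the path which follows `w`, then the direction `i`, then the mirror image of `w` -/
def pth (hm : 2 ≤ m) (i : Fin d) (R M : ℕ) (w : List (Fin d)) (U : Ed d (2 * m) → G) : G :=
  tp eT U 0 w * ln U i M (dsp eT w) * (tp eT (rf hm i R U) 0 w)⁻¹

lemma mirror_end {R M q : ℕ} (hR : R = 2 * q + M) {w : List (Fin d)} (hw : w.count i = q) :
    rB i (dsp eT w) + R • eT i = dsp eT w + M • (eT i : Fin d → ZMod (2 * m)) := by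
  funext k
  unfold rB eT
  by_cases hk : k = i
  · subst hk
    simp only [Pi.add_apply, Function.update_self, Pi.smul_apply, Pi.single_eq_same]
    have h := dsp_apply (l := 2 * m) w k
    unfold eT at h
    rw [h, hw, hR]
    push_cast
    ring
  · simp [hk]

lemma mem_lk0 {w : List (Fin d)} {e : Ed d (2 * m)} (he : e ∈ lk eT 0 w) :
    ∃ w1 w2, w = w1 ++ e.2 :: w2 ∧ ∀ k, e.1 k = (w1.count k : ZMod (2 * m)) := by
  obtain ⟨w1, w2, h1, h2⟩ := mem_lk he
  refine ⟨w1, w2, h1, fun k => ?_⟩
  rw [h2, zero_add]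
  exact dsp_apply w1 k

lemma lk0_slice {w : List (Fin d)} (hw : τ ∉ w) {e : Ed d (2 * m)} (he : e ∈ lk eT 0 w) :
    e.1 τ = 0 ∧ e.2 ≠ τ := by
  obtain ⟨w1, w2, h1, h2⟩ := mem_lk0 he
  constructor
  · rw [h2, List.count_eq_zero_of_not_mem, Nat.cast_zero]
    intro h
    apply hw
    rw [h1]
    exact List.mem_append_left _ h
  · rintro rfl
    apply hw
    rw [h1]
    exact List.mem_append_right _ List.mem_cons_self

theorem pth_sl (hm : 2 ≤ m) (hi : i ≠ τ) {R M q : ℕ} (hR : R = 2 * q + M) {w : List (Fin d)}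
    (hq : w.count i = q) (hw : τ ∉ w) :
    Sl τ (R • eT i) (pth (G := G) hm i R M w) where
  cont := ((tp_cont _ _).mul (ln_cont _ _ _)).mul ((tp_cont _ _).comp (rf_cont R)).inv
  loc U U' h := by
    unfold pth
    have h1 : tp eT U 0 w = tp eT U' 0 w := tp_congr fun e he =>
      h e (lk0_slice hw he).1 (lk0_slice hw he).2
    have h2 : tp eT (rf hm i R U) 0 w = tp eT (rf hm i R U') 0 w := by
      refine tp_congr fun e he => ?_
      obtain ⟨h3, h4⟩ := lk0_slice hw he
      obtain ⟨x, k⟩ := e
      simp only at h3 h4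
      by_cases hk : k = i
      · subst hk
        rw [rf_i, rf_i, h _ ?_ h4]
        show (rC k x + R • eT k : Fin d → ZMod (2 * m)) τ = 0
        rw [nsmul_ne hi]
        unfold rC
        simp [hi.symm, h3]
      · rw [rf_ne _ _ _ hk, rf_ne _ _ _ hk, h _ ?_ h4]
        show (rB i x + R • eT i : Fin d → ZMod (2 * m)) τ = 0
        rw [nsmul_ne hi]
        unfold rB
        simp [hi.symm, h3]
    have h3 : ln U i M (dsp eT w) = ln U' i M (dsp eT w) := by
      have h4 : (dsp eT w : Fin d → ZMod (2 * m)) τ = 0 := by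
        rw [dsp_apply, List.count_eq_zero_of_not_mem hw, Nat.cast_zero]
      rw [← tp_rep, ← tp_rep]
      refine tp_congr fun e he => ?_
      obtain ⟨w1, w2, h5, h6⟩ := mem_lk he
      have h7 : ∀ k ∈ List.replicate M i, k = i := fun k hk => List.eq_of_mem_replicate hk
      have h8 : e.2 = i := h7 _ (by rw [h5]; exact List.mem_append_right _ List.mem_cons_self)
      have h9 : τ ∉ w1 := fun h' => hi (h7 τ (by
        rw [h5]; exact List.mem_append_left _ h')).symm
      refine h e ?_ (by rw [h8]; exact hi)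
      rw [h6, Pi.add_apply, h4, dsp_apply, List.count_eq_zero_of_not_mem h9, Nat.cast_zero,
        add_zero]
    rw [h1, h2, h3]
  gau γ U := by
    unfold pth
    rw [tp_gt, ln_gt, rf_gt, tp_gt]
    simp only [zero_add]
    rw [mirror_end hR hq]
    have e1 : rB i (0 : Fin d → ZMod (2 * m)) + R • eT i = R • eT i := by
      have : rB i (0 : Fin d → ZMod (2 * m)) = 0 := by
        unfold rB
        simp
      rw [this, zero_add]
    rw [e1]
    group

/-! ### the links -/

lemma tp_prod (U : Ed d (2 * m) → G) (x : Fin d → ZMod (2 * m)) (w : List (Fin d)) :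
    tp eT U x w = ((lk eT x w).map U).prod := by
  induction w generalizing x with
  | nil => simp [tp_nil, lk]
  | cons k w ih => rw [tp_cons, lk, List.map_cons, List.prod_cons, ih]

/-- the mirror image of a link -/
def mir (i : Fin d) (R : ℕ) (e : Ed d (2 * m)) : Ed d (2 * m) :=
  if e.2 = i then (rC i e.1 + R • eT i, e.2) else (rB i e.1 + R • eT i, e.2)

lemma mir_inj (i : Fin d) (R : ℕ) : Function.Injective (mir (m := m) i R) := by
  intro e e' h
  unfold mir at h
  have h2 : e.2 = e'.2 := by
    by_cases h1 : e.2 = i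
    · by_cases h2 : e'.2 = i
      · rw [h1, h2]
      · rw [if_pos h1, if_neg h2] at h
        exact (Prod.ext_iff.1 h).2
    · by_cases h2 : e'.2 = i
      · rw [if_neg h1, if_pos h2] at h
        exact (Prod.ext_iff.1 h).2
      · rw [if_neg h1, if_neg h2] at h
        exact (Prod.ext_iff.1 h).2
  refine Prod.ext ?_ h2
  by_cases h1 : e.2 = i
  · rw [if_pos h1, if_pos (h2 ▸ h1)] at h
    have h3 := add_right_cancel (Prod.ext_iff.1 h).1
    rw [← rC_rC i e.1, h3, rC_rC]
  · rw [if_neg h1, if_neg (h2 ▸ h1)] at h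
    have h3 := add_right_cancel (Prod.ext_iff.1 h).1
    rw [← rB_rB i e.1, h3, rB_rB]

/-- the mirror image of a link, with its orientation -/
def mif (i : Fin d) (R : ℕ) (e : Ed d (2 * m)) : Ed d (2 * m) × Bool :=
  (mir i R e, decide (e.2 = i))

lemma ov_mif (R : ℕ) (U : Ed d (2 * m) → G) (e : Ed d (2 * m)) :
    ov U (mif i R e) = (rf hm i R U e)⁻¹ := by
  obtain ⟨x, k⟩ := e
  unfold ov mif mir
  by_cases hk : k = i
  · subst hk
    simp only [if_true, decide_true]
    rw [rf_i, inv_inv]
  · simp only [hk, if_false, decide_false, Bool.false_eq_true]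
    rw [rf_ne _ _ _ hk]

/-- the links of the path -/
def pl (m : ℕ) [NeZero m] (i : Fin d) (R M : ℕ) (w : List (Fin d)) : List (Ed d (2 * m) × Bool) :=
  (lk eT 0 w).map (fun e => (e, true)) ++
    (lk eT (dsp eT w) (List.replicate M i)).map (fun e => (e, true)) ++
    ((lk eT 0 w).map (mif i R)).reverse

lemma pth_eq (R M : ℕ) (w : List (Fin d)) (U : Ed d (2 * m) → G) :
    pth hm i R M w U = ((pl m i R M w).map (ov U)).prod := by
  unfold pth pl
  rw [List.map_append, List.map_append, List.prod_append, List.prod_append, tp_prod, ← tp_rep,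
    tp_prod, tp_prod, List.prod_inv_reverse]
  congr 1
  · congr 1
    · rw [List.map_map]; rfl
    · rw [List.map_map]; rfl
  · rw [List.map_reverse, List.map_map, List.map_map]
    congr 2
    refine List.map_congr_left fun e _ => ?_
    simp only [Function.comp_apply]
    exact (ov_mif R U e).symm

lemma pl_fst (R M : ℕ) (w : List (Fin d)) : (pl m i R M w).map Prod.fst =
    lk eT 0 w ++ lk eT (dsp eT w) (List.replicate M i) ++ ((lk eT 0 w).map (mir i R)).reverse := by
  unfold pl
  rw [List.map_append, List.map_append, List.map_reverse, List.map_map, List.map_map,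
    List.map_map]
  congr 2
  · exact List.map_id _
  · exact List.map_id _

lemma pl_length (R M : ℕ) (w : List (Fin d)) :
    (pl m i R M w).length = 2 * w.length + M := by
  unfold pl
  simp only [List.length_append, List.length_map, List.length_reverse, lk_length,
    List.length_replicate]
  omega

/-- the words which are empty or end with `i` -/
def EI (i : Fin d) (w : List (Fin d)) : Prop := w = [] ∨ ∃ w', w = w' ++ [i]

lemma EI.lt {w w1 w2 : List (Fin d)} {k : Fin d} (h : EI i w) (hw : w = w1 ++ k :: w2) :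
    w1.count i < w.count i := by
  rcases h with h | ⟨w', h⟩
  · rw [h] at hw
    simp at hw
  · rw [hw, List.count_append]
    have : 0 < (k :: w2).count i := by
      rw [List.count_pos_iff]
      have h1 : (w1 ++ k :: w2).getLast (by simp) = i := by
        have : w1 ++ k :: w2 = w' ++ [i] := by rw [← hw, h]
        simp only [this, List.getLast_append_singleton]
      have h2 : (w1 ++ k :: w2).getLast (by simp) = (k :: w2).getLast (by simp) :=
        List.getLast_append_of_ne_nil _ (by simp)
      rw [← h1, h2]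
      exact List.getLast_mem _
    omega

lemma zone_cone {R q : ℕ} (hR : R < 2 * m) (hqR : q ≤ R) {w : List (Fin d)} (hq : w.count i = q)
    (hw : EI i w) {e : Ed d (2 * m)} (he : e ∈ lk eT 0 w) : (e.1 i).val < q := by
  obtain ⟨w1, w2, h1, h2⟩ := mem_lk0 he
  have h3 := hw.lt h1
  rw [h2, val_nat (by omega)]
  omega

lemma mem_mid {M : ℕ} {w : List (Fin d)} {e : Ed d (2 * m)}
    (he : e ∈ lk eT (dsp eT w) (List.replicate M i)) :
    e.2 = i ∧ ∃ r < M, e.1 = dsp eT w + r • eT i := by
  obtain ⟨w1, w2, h1, h2⟩ := mem_lk he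
  have h7 : ∀ k ∈ List.replicate M i, k = i := fun k hk => List.eq_of_mem_replicate hk
  refine ⟨h7 _ (by rw [h1]; exact List.mem_append_right _ List.mem_cons_self), w1.length, ?_, ?_⟩
  · have h3 := congrArg List.length h1
    simp only [List.length_replicate, List.length_append, List.length_cons] at h3
    omega
  · have h4 : w1 = List.replicate w1.length i := List.eq_replicate_of_mem fun k hk =>
      h7 k (by rw [h1]; exact List.mem_append_left _ hk)
    rw [h2, h4, dsp_rep, List.length_replicate]

lemma zone_mid {R M q : ℕ} (hRm : R < 2 * m) (hR : R = 2 * q + M) {w : List (Fin d)}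
    (hq : w.count i = q) {e : Ed d (2 * m)}
    (he : e ∈ lk eT (dsp eT w) (List.replicate M i)) :
    q ≤ (e.1 i).val ∧ (e.1 i).val < R - q := by
  obtain ⟨h1, r, hr, h2⟩ := mem_mid he
  rw [h2, nsmul_same, dsp_apply, hq]
  have e1 : (q : ZMod (2 * m)) + r = ((q + r : ℕ) : ZMod (2 * m)) := by push_cast; ring
  rw [e1, val_nat (by omega)]
  omega

lemma zone_mir {R q : ℕ} (hR : R < 2 * m) (hqR : q ≤ R) {w : List (Fin d)}
    (hq : w.count i = q) (hw : EI i w) {e : Ed d (2 * m)} (he : e ∈ lk eT 0 w) :
    R - q ≤ ((mir i R e).1 i).val := by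
  obtain ⟨w1, w2, h1, h2⟩ := mem_lk0 he
  have h3 := hw.lt h1
  unfold mir
  split_ifs with h
  · show R - q ≤ ((rC i e.1 + R • eT i : Fin d → ZMod (2 * m)) i).val
    rw [nsmul_same, rC_same, h2]
    have e1 : -1 - (w1.count i : ZMod (2 * m)) + R = ((R - 1 - w1.count i : ℕ) : ZMod (2 * m)) := by
      rw [Nat.cast_sub (by omega), Nat.cast_sub (by omega)]
      push_cast; ring
    rw [e1, val_nat (by omega)]
    omega
  · show R - q ≤ ((rB i e.1 + R • eT i : Fin d → ZMod (2 * m)) i).val
    rw [nsmul_same, rB_same, h2]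
    have e1 : -(w1.count i : ZMod (2 * m)) + R = ((R - w1.count i : ℕ) : ZMod (2 * m)) := by
      rw [Nat.cast_sub (by omega)]
      ring
    rw [e1, val_nat (by omega)]
    omega

lemma pl_nodup {R M q : ℕ} (hRm : R < 2 * m) (hR : R = 2 * q + M) {w : List (Fin d)}
    (hq : w.count i = q) (hw : EI i w) (hlen : w.length < 2 * m) :
    ((pl m i R M w).map Prod.fst).Nodup := by
  rw [pl_fst, List.nodup_append, List.nodup_append]
  refine ⟨⟨lk_nodup _ hlen, lk_nodup _ (by rw [List.length_replicate]; omega), ?_⟩, ?_, ?_⟩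
  · rintro a ha b hb rfl
    have h1 := zone_cone hRm (by omega) hq hw ha
    have h2 := zone_mid hRm hR hq hb
    omega
  · rw [List.nodup_reverse]
    exact (lk_nodup _ hlen).map (mir_inj i R)
  · rintro a ha b hb rfl
    rw [List.mem_reverse, List.mem_map] at hb
    obtain ⟨e, he, rfl⟩ := hb
    have h1 := zone_mir hRm (by omega) hq hw he
    rcases List.mem_append.1 ha with h | h
    · have h2 := zone_cone hRm (by omega) hq hw h
      omega
    · have h2 := zone_mid hRm hR hq h
      omega

lemma pl_slice (hi : i ≠ τ) {R M : ℕ} {w : List (Fin d)} (hw : τ ∉ w)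
    {f : Ed d (2 * m) × Bool} (hf : f ∈ pl m i R M w) : f.1.1 τ = 0 ∧ f.1.2 ≠ τ := by
  have h0 : f.1 ∈ (pl m i R M w).map Prod.fst := List.mem_map_of_mem hf
  rw [pl_fst, List.mem_append, List.mem_append, List.mem_reverse, List.mem_map] at h0
  rcases h0 with (h | h) | ⟨e, he, h⟩
  · exact lk0_slice hw h
  · obtain ⟨h1, r, hr, h2⟩ := mem_mid h
    refine ⟨?_, by rw [h1]; exact hi⟩
    rw [h2, nsmul_ne hi, dsp_apply, List.count_eq_zero_of_not_mem hw, Nat.cast_zero]
  · obtain ⟨h1, h2⟩ := lk0_slice hw he
    rw [← h]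
    unfold mir
    split_ifs with h3
    · refine ⟨?_, h2⟩
      show (rC i e.1 + R • eT i : Fin d → ZMod (2 * m)) τ = 0
      rw [nsmul_ne hi]
      unfold rC
      simp [hi.symm, h1]
    · refine ⟨?_, h2⟩
      show (rB i e.1 + R • eT i : Fin d → ZMod (2 * m)) τ = 0
      rw [nsmul_ne hi]
      unfold rB
      simp [hi.symm, h1]

/-- the common links of two paths -/
lemma pl_inter {R M q : ℕ} (hRm : R < 2 * m) (hR : R = 2 * q + M) {w w' : List (Fin d)}
    (hq : w.count i = q) (hw : EI i w) (hq' : w'.count i = q) (hw' : EI i w') :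
    (((pl m i R M w).map Prod.fst).toFinset ∩ ((pl m i R M w').map Prod.fst).toFinset).card ≤
      2 * ((lk (eT (l := 2 * m)) 0 w).toFinset ∩ (lk eT 0 w').toFinset).card +
        M * (if (dsp eT w : Fin d → ZMod (2 * m)) = dsp eT w' then 1 else 0) := by
  classical
  obtain ⟨C, hC⟩ : ∃ C : List (Fin d) → Finset (Ed d (2 * m)), C = fun w => (lk eT 0 w).toFinset :=
    ⟨_, rfl⟩
  obtain ⟨D, hD⟩ : ∃ D : List (Fin d) → Finset (Ed d (2 * m)), D = fun w =>
    (lk eT (dsp eT w) (List.replicate M i)).toFinset := ⟨_, rfl⟩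
  have hF : ∀ w : List (Fin d), ((pl m i R M w).map Prod.fst).toFinset =
      C w ∪ D w ∪ (C w).image (mir i R) := by
    intro w
    rw [pl_fst, hC, hD]
    ext e
    simp
  have hsub : (C w ∪ D w ∪ (C w).image (mir i R)) ∩ (C w' ∪ D w' ∪ (C w').image (mir i R)) ⊆
      (C w ∩ C w') ∪ (D w ∩ D w') ∪ ((C w).image (mir i R) ∩ (C w').image (mir i R)) := by
    intro e he
    obtain ⟨h1, h2⟩ := Finset.mem_inter.1 he
    have zC : ∀ v : List (Fin d), v.count i = q → EI i v → e ∈ C v → (e.1 i).val < q := by
      intro v hv hv' h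
      rw [hC] at h
      exact zone_cone hRm (by omega) hv hv' (List.mem_toFinset.1 h)
    have zD : ∀ v : List (Fin d), v.count i = q → e ∈ D v →
        q ≤ (e.1 i).val ∧ (e.1 i).val < R - q := by
      intro v hv h
      rw [hD] at h
      exact zone_mid hRm hR hv (List.mem_toFinset.1 h)
    have zM : ∀ v : List (Fin d), v.count i = q → EI i v → e ∈ (C v).image (mir i R) →
        R - q ≤ (e.1 i).val := by
      intro v hv hv' h
      obtain ⟨e', he', h3⟩ := Finset.mem_image.1 h
      rw [hC] at he'
      rw [← h3]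
      exact zone_mir hRm (by omega) hv hv' (List.mem_toFinset.1 he')
    simp only [Finset.mem_union] at h1 h2
    simp only [Finset.mem_union, Finset.mem_inter]
    rcases h1 with (h1 | h1) | h1
    · have a1 := zC w hq hw h1
      rcases h2 with (h2 | h2) | h2
      · exact Or.inl (Or.inl ⟨h1, h2⟩)
      · have a2 := zD w' hq' h2
        omega
      · have a2 := zM w' hq' hw' h2
        omega
    · have a1 := zD w hq h1
      rcases h2 with (h2 | h2) | h2
      · have a2 := zC w' hq' hw' h2
        omega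
      · exact Or.inl (Or.inr ⟨h1, h2⟩)
      · have a2 := zM w' hq' hw' h2
        omega
    · have a1 := zM w hq hw h1
      rcases h2 with (h2 | h2) | h2
      · have a2 := zC w' hq' hw' h2
        omega
      · have a2 := zD w' hq' h2
        omega
      · exact Or.inr ⟨h1, h2⟩
  rw [hF, hF]
  refine (Finset.card_le_card hsub).trans ?_
  refine (Finset.card_union_le _ _).trans ?_
  have h1 := Finset.card_union_le (C w ∩ C w') (D w ∩ D w')
  have h2 : ((C w).image (mir i R) ∩ (C w').image (mir i R)).card = (C w ∩ C w').card := by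
    rw [← Finset.image_inter _ _ (mir_inj i R), Finset.card_image_of_injective _ (mir_inj i R)]
  have h3 : (D w ∩ D w').card ≤
      M * (if (dsp eT w : Fin d → ZMod (2 * m)) = dsp eT w' then 1 else 0) := by
    split_ifs with h
    · rw [mul_one]
      refine (Finset.card_le_card Finset.inter_subset_left).trans ?_
      rw [hD]
      refine (List.toFinset_card_le _).trans ?_
      rw [lk_length, List.length_replicate]
    · rw [mul_zero, Nat.le_zero, Finset.card_eq_zero, Finset.eq_empty_iff_forall_notMem]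
      intro e he
      obtain ⟨a1, a2⟩ := Finset.mem_inter.1 he
      rw [hD] at a1 a2
      obtain ⟨b1, r, hr, b2⟩ := mem_mid (List.mem_toFinset.1 a1)
      obtain ⟨b1', r', hr', b2'⟩ := mem_mid (List.mem_toFinset.1 a2)
      have h4 : (dsp eT w + r • eT i : Fin d → ZMod (2 * m)) = dsp eT w' + r' • eT i := by
        rw [← b2, ← b2']
      have h5 := congrFun h4 i
      rw [nsmul_same, nsmul_same, dsp_apply, dsp_apply, hq, hq'] at h5
      have h6 : (r : ZMod (2 * m)) = r' := add_left_cancel h5
      have h7 : r = r' := by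
        have h8 := congrArg ZMod.val h6
        rwa [val_nat (by omega), val_nat (by omega)] at h8
      subst h7
      exact h (add_right_cancel h4)
  have h4 : (C w ∩ C w').card = ((lk (eT (l := 2 * m)) 0 w).toFinset ∩
      (lk eT 0 w').toFinset).card := by rw [hC]
  omega

end

end Pool.Agent.Q204.PL
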