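import Mathlib
import Pool.Agent.Q204.YM.Path

/-!
# The family of paths
-/

open MeasureTheory Matrix Filter
open scoped Matrix.Norms.Frobenius ContDiff Topology
open Pool.Agent.H906R3.YM hiding Pl
open Pool.Agent.W793.YM Pool.Agent.TH618.YM Pool.Agent.Y14

namespace Pool.Agent.Q204.PL

set_option linter.unusedSectionVars false
set_option linter.unusedVariables false

noncomputable section

section words

variable {d : ℕ}

/-- the stage `k` -/
def stg (i y z : Fin d) (a b c k : ℕ) : List (Fin d) :=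
  List.replicate (c % 2 ^ k) i ++ (List.replicate (2 ^ k * (a / 2 ^ k % 2)) y ++
    (List.replicate (2 ^ k * (b / 2 ^ k % 2)) z ++ List.replicate (2 ^ k - c % 2 ^ k) i))

/-- the words of the family -/
def cw (i y z : Fin d) (a b c : ℕ) : ℕ → List (Fin d)
  | 0 => []
  | k + 1 => cw i y z a b c k ++ stg i y z a b c k

variable {i y z : Fin d} {a b c k : ℕ}

lemma cw_succ : cw i y z a b c (k + 1) = cw i y z a b c k ++ stg i y z a b c k := rfl

lemma cmod_le (c k : ℕ) : c % 2 ^ k < 2 ^ k := Nat.mod_lt _ (by positivity)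

lemma stg_count_i (hy : i ≠ y) (hz : i ≠ z) : (stg i y z a b c k).count i = 2 ^ k := by
  unfold stg
  have := cmod_le c k
  simp only [List.count_append, List.count_replicate, beq_iff_eq, if_true, hy.symm, hz.symm,
    if_false]
  omega

lemma stg_count_y (hy : i ≠ y) (hz : i ≠ z) (hyz : y ≠ z) :
    (stg i y z a b c k).count y = 2 ^ k * (a / 2 ^ k % 2) := by
  unfold stg
  simp only [List.count_append, List.count_replicate, beq_iff_eq, if_true, hy, hyz.symm,
    if_false]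
  omega

lemma stg_count_z (hy : i ≠ y) (hz : i ≠ z) (hyz : y ≠ z) :
    (stg i y z a b c k).count z = 2 ^ k * (b / 2 ^ k % 2) := by
  unfold stg
  simp only [List.count_append, List.count_replicate, beq_iff_eq, if_true, hz, hyz,
    if_false]
  omega

lemma stg_mem {j : Fin d} (h : j ∈ stg i y z a b c k) : j = i ∨ j = y ∨ j = z := by
  unfold stg at h
  simp only [List.mem_append, List.mem_replicate] at h
  tauto

lemma cw_mem {j : Fin d} (h : j ∈ cw i y z a b c k) : j = i ∨ j = y ∨ j = z := by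
  induction k with
  | zero => simp [cw] at h
  | succ k ih =>
    rw [cw_succ, List.mem_append] at h
    exact h.elim ih stg_mem

lemma cw_count_i (hy : i ≠ y) (hz : i ≠ z) : (cw i y z a b c k).count i = 2 ^ k - 1 := by
  induction k with
  | zero => simp [cw]
  | succ k ih =>
    rw [cw_succ, List.count_append, ih, stg_count_i hy hz, pow_succ]
    have : 0 < 2 ^ k := by positivity
    omega

lemma cw_count_y (hy : i ≠ y) (hz : i ≠ z) (hyz : y ≠ z) :
    (cw i y z a b c k).count y = a % 2 ^ k := by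
  induction k with
  | zero => simp [cw, Nat.mod_one]
  | succ k ih => rw [cw_succ, List.count_append, ih, stg_count_y hy hz hyz, Nat.mod_pow_succ]

lemma cw_count_z (hy : i ≠ y) (hz : i ≠ z) (hyz : y ≠ z) :
    (cw i y z a b c k).count z = b % 2 ^ k := by
  induction k with
  | zero => simp [cw, Nat.mod_one]
  | succ k ih => rw [cw_succ, List.count_append, ih, stg_count_z hy hz hyz, Nat.mod_pow_succ]

lemma bit_le (a k : ℕ) : 2 ^ k * (a / 2 ^ k % 2) ≤ 2 ^ k := by
  have : a / 2 ^ k % 2 ≤ 1 := by omega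
  calc 2 ^ k * (a / 2 ^ k % 2) ≤ 2 ^ k * 1 := Nat.mul_le_mul_left _ this
    _ = _ := mul_one _

lemma stg_length : (stg i y z a b c k).length ≤ 3 * 2 ^ k := by
  unfold stg
  simp only [List.length_append, List.length_replicate]
  have := cmod_le c k
  have := bit_le a k
  have := bit_le b k
  omega

lemma cw_length : (cw i y z a b c k).length ≤ 3 * (2 ^ k - 1) := by
  induction k with
  | zero => simp [cw]
  | succ k ih =>
    rw [cw_succ, List.length_append, pow_succ]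
    have := stg_length (i := i) (y := y) (z := z) (a := a) (b := b) (c := c) (k := k)
    have : 0 < 2 ^ k := by positivity
    omega

lemma cw_EI : EI i (cw i y z a b c k) := by
  rcases k with _ | k
  · left; rfl
  · right
    have := cmod_le c k
    obtain ⟨s, hs⟩ : ∃ s, 2 ^ k - c % 2 ^ k = s + 1 := ⟨2 ^ k - c % 2 ^ k - 1, by omega⟩
    rw [cw_succ]
    unfold stg
    rw [hs, List.replicate_succ', ← List.append_assoc, ← List.append_assoc, ← List.append_assoc,
      ← List.append_assoc]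
    exact ⟨_, rfl⟩

end words

section count

variable {d m : ℕ} [NeZero m] {i y z : Fin d} {a b c a' b' c' k : ℕ}

lemma mem_rep {x : Fin d → ZMod (2 * m)} {M : ℕ} {j : Fin d} {e : Ed d (2 * m)}
    (he : e ∈ lk eT x (List.replicate M j)) : e.2 = j ∧ ∃ r < M, e.1 = x + r • eT j := by
  obtain ⟨w1, w2, h1, h2⟩ := mem_lk he
  have h7 : ∀ k ∈ List.replicate M j, k = j := fun k hk => List.eq_of_mem_replicate hk
  refine ⟨h7 _ (by rw [h1]; exact List.mem_append_right _ List.mem_cons_self), w1.length, ?_, ?_⟩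
  · have h3 := congrArg List.length h1
    simp only [List.length_replicate, List.length_append, List.length_cons] at h3
    omega
  · have h4 : w1 = List.replicate w1.length j := List.eq_replicate_of_mem fun k hk =>
      h7 k (by rw [h1]; exact List.mem_append_left _ hk)
    rw [h2, h4, dsp_rep, List.length_replicate]

lemma vadd {p q : ℕ} (h : p + q < 2 * m) : ((p : ZMod (2 * m)) + (q : ZMod (2 * m))).val = p + q := by
  have e1 : (p : ZMod (2 * m)) + (q : ZMod (2 * m)) = ((p + q : ℕ) : ZMod (2 * m)) := by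
    push_cast; ring
  rw [e1, val_nat h]

/-- the links of the stage `k` -/
lemma mem_stg (hy : i ≠ y) (hz : i ≠ z) (hyz : y ≠ z) (hk : 2 ^ (k + 1) ≤ 2 * m)
    {e : Ed d (2 * m)}
    (he : e ∈ lk eT (dsp eT (cw i y z a b c k)) (stg i y z a b c k)) :
    2 ^ k - 1 ≤ (e.1 i).val ∧
    ((e.2 = i ∧ (e.1 y).val % 2 ^ k = a % 2 ^ k ∧ (e.1 z).val % 2 ^ k = b % 2 ^ k) ∨
    (e.2 = y ∧ (e.1 i).val = 2 ^ k - 1 + c % 2 ^ k ∧ (e.1 z).val = b % 2 ^ k) ∨
    (e.2 = z ∧ (e.1 i).val = 2 ^ k - 1 + c % 2 ^ k ∧ (e.1 y).val % 2 ^ k = a % 2 ^ k)) := by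
  have hpos : 0 < 2 ^ k := by positivity
  have hc := cmod_le c k
  have ha := cmod_le a k
  have hb := cmod_le b k
  have hab := bit_le a k
  have hbb := bit_le b k
  rw [pow_succ] at hk
  obtain ⟨p, hp⟩ : ∃ p : Fin d → ZMod (2 * m), p = dsp eT (cw i y z a b c k) := ⟨_, rfl⟩
  have hpi : p i = ((2 ^ k - 1 : ℕ) : ZMod (2 * m)) := by
    rw [hp, dsp_apply, cw_count_i hy hz]
  have hpy : p y = ((a % 2 ^ k : ℕ) : ZMod (2 * m)) := by
    rw [hp, dsp_apply, cw_count_y hy hz hyz]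
  have hpz : p z = ((b % 2 ^ k : ℕ) : ZMod (2 * m)) := by
    rw [hp, dsp_apply, cw_count_z hy hz hyz]
  obtain ⟨A, hA⟩ : ∃ A, A = 2 ^ k * (a / 2 ^ k % 2) := ⟨_, rfl⟩
  obtain ⟨B, hB⟩ : ∃ B, B = 2 ^ k * (b / 2 ^ k % 2) := ⟨_, rfl⟩
  have hAm : (a % 2 ^ k + A) % 2 ^ k = a % 2 ^ k := by
    rw [hA, Nat.add_mul_mod_self_left, Nat.mod_mod]
  have hBm : (b % 2 ^ k + B) % 2 ^ k = b % 2 ^ k := by
    rw [hB, Nat.add_mul_mod_self_left, Nat.mod_mod]
  unfold stg at he
  rw [← hp] at he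
  rw [← hA] at hab he
  rw [← hB] at hbb he
  rw [lk_append, lk_append, lk_append, dsp_rep, dsp_rep, dsp_rep] at he
  simp only [List.mem_append] at he
  rcases he with he | he | he | he
  · obtain ⟨h1, r, hr, h2⟩ := mem_rep he
    have e1 : (e.1 i).val = 2 ^ k - 1 + r := by
      rw [h2, nsmul_same, hpi, vadd (by omega)]
    have e2 : (e.1 y).val = a % 2 ^ k := by
      rw [h2, nsmul_ne hy, hpy, val_nat (by omega)]
    have e3 : (e.1 z).val = b % 2 ^ k := by
      rw [h2, nsmul_ne hz, hpz, val_nat (by omega)]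
    refine ⟨by omega, Or.inl ⟨h1, ?_, ?_⟩⟩
    · rw [e2, Nat.mod_mod]
    · rw [e3, Nat.mod_mod]
  · obtain ⟨h1, r, hr, h2⟩ := mem_rep he
    have e1 : (e.1 i).val = 2 ^ k - 1 + c % 2 ^ k := by
      rw [h2, nsmul_ne hy.symm, nsmul_same, hpi, vadd (by omega)]
    have e3 : (e.1 z).val = b % 2 ^ k := by
      rw [h2, nsmul_ne hyz, nsmul_ne hz, hpz, val_nat (by omega)]
    exact ⟨by omega, Or.inr (Or.inl ⟨h1, e1, e3⟩)⟩
  · obtain ⟨h1, r, hr, h2⟩ := mem_rep he
    have e1 : (e.1 i).val = 2 ^ k - 1 + c % 2 ^ k := by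
      rw [h2, nsmul_ne hz.symm, nsmul_ne hy.symm, nsmul_same, hpi, vadd (by omega)]
    have e2 : (e.1 y).val = a % 2 ^ k + A := by
      rw [h2, nsmul_ne hyz.symm, nsmul_same, nsmul_ne hy, hpy, vadd (by omega)]
    exact ⟨by omega, Or.inr (Or.inr ⟨h1, e1, by rw [e2, hAm]⟩)⟩
  · obtain ⟨h1, r, hr, h2⟩ := mem_rep he
    have e1 : (e.1 i).val = 2 ^ k - 1 + (c % 2 ^ k + r) := by
      rw [h2, nsmul_same, nsmul_ne hz.symm, nsmul_ne hy.symm, nsmul_same, hpi, add_assoc]
      have : ((c % 2 ^ k : ℕ) : ZMod (2 * m)) + (r : ZMod (2 * m)) =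
          ((c % 2 ^ k + r : ℕ) : ZMod (2 * m)) := by push_cast; ring
      rw [this, vadd (by omega)]
    have e2 : (e.1 y).val = a % 2 ^ k + A := by
      rw [h2, nsmul_ne hy, nsmul_ne hyz.symm, nsmul_same, nsmul_ne hy, hpy, vadd (by omega)]
    have e3 : (e.1 z).val = b % 2 ^ k + B := by
      rw [h2, nsmul_ne hz, nsmul_same, nsmul_ne hyz, nsmul_ne hz, hpz, vadd (by omega)]
    exact ⟨by omega, Or.inl ⟨h1, by rw [e2, hAm], by rw [e3, hBm]⟩⟩

lemma lk_snd (x : Fin d → ZMod (2 * m)) (w : List (Fin d)) : (lk eT x w).map Prod.snd = w := by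
  induction w generalizing x with
  | nil => rfl
  | cons j w ih => rw [lk, List.map_cons, ih]

lemma card_dir (x : Fin d → ZMod (2 * m)) (w : List (Fin d)) (j : Fin d) :
    ((lk eT x w).toFinset.filter fun e => e.2 = j).card ≤ w.count j := by
  have h1 : ((lk eT x w).toFinset.filter fun e => e.2 = j) =
      ((lk eT x w).filter fun e => decide (e.2 = j)).toFinset := by
    ext e; simp
  rw [h1]
  refine (List.toFinset_card_le _).trans ?_
  have h2 : w.count j = ((lk eT x w).map Prod.snd).count j := by rw [lk_snd]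
  rw [h2, List.count, List.countP_map, ← List.countP_eq_length_filter]
  refine le_of_eq (List.countP_congr fun e _ => ?_)
  simp

/-- the indicator of the congruence modulo `2 ^ k` -/
def eq2 (k a a' : ℕ) : ℝ := if a % 2 ^ k = a' % 2 ^ k then 1 else 0

lemma eq2_nonneg (k a a' : ℕ) : 0 ≤ eq2 k a a' := by
  unfold eq2; split_ifs <;> norm_num

/-- the number of common links of two words -/
def cmn (m : ℕ) [NeZero m] (w w' : List (Fin d)) : ℕ :=
  ((lk (eT (l := 2 * m)) 0 w).toFinset ∩ (lk eT 0 w').toFinset).card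

lemma cmn_succ (hy : i ≠ y) (hz : i ≠ z) (hyz : y ≠ z) (hk : 2 ^ (k + 1) ≤ 2 * m) :
    (cmn m (cw i y z a b c (k + 1)) (cw i y z a' b' c' (k + 1)) : ℝ) ≤
      cmn m (cw i y z a b c k) (cw i y z a' b' c' k) +
      2 ^ k * (eq2 k a a' * eq2 k b b' + eq2 k b b' * eq2 k c c' + eq2 k a a' * eq2 k c c') := by
  classical
  obtain ⟨C, hC⟩ : ∃ C : Finset (Ed d (2 * m)), C = (lk eT 0 (cw i y z a b c k)).toFinset :=
    ⟨_, rfl⟩
  obtain ⟨C', hC'⟩ : ∃ C : Finset (Ed d (2 * m)), C = (lk eT 0 (cw i y z a' b' c' k)).toFinset :=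
    ⟨_, rfl⟩
  obtain ⟨S, hS⟩ : ∃ S : Finset (Ed d (2 * m)), S =
    (lk eT (dsp eT (cw i y z a b c k)) (stg i y z a b c k)).toFinset := ⟨_, rfl⟩
  obtain ⟨S', hS'⟩ : ∃ S : Finset (Ed d (2 * m)), S =
    (lk eT (dsp eT (cw i y z a' b' c' k)) (stg i y z a' b' c' k)).toFinset := ⟨_, rfl⟩
  have hpos : 0 < 2 ^ k := by positivity
  have hk2 : 2 ^ k * 2 ≤ 2 * m := by rw [← pow_succ]; exact hk
  have e1 : (lk (eT (l := 2 * m)) 0 (cw i y z a b c (k + 1))).toFinset = C ∪ S := by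
    rw [cw_succ, lk_append, List.toFinset_append, hC, hS, zero_add]
  have e2 : (lk (eT (l := 2 * m)) 0 (cw i y z a' b' c' (k + 1))).toFinset = C' ∪ S' := by
    rw [cw_succ, lk_append, List.toFinset_append, hC', hS', zero_add]
  have zC : ∀ e ∈ C, (e.1 i).val < 2 ^ k - 1 := fun e he => by
    rw [hC] at he
    exact zone_cone (R := 2 ^ k - 1) (by omega) le_rfl (cw_count_i hy hz) cw_EI
      (List.mem_toFinset.1 he)
  have zC' : ∀ e ∈ C', (e.1 i).val < 2 ^ k - 1 := fun e he => by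
    rw [hC'] at he
    exact zone_cone (R := 2 ^ k - 1) (by omega) le_rfl (cw_count_i hy hz) cw_EI
      (List.mem_toFinset.1 he)
  have zS := fun e (he : e ∈ S) => mem_stg hy hz hyz hk
    (List.mem_toFinset.1 (by rw [hS] at he; exact he))
  have zS' := fun e (he : e ∈ S') => mem_stg hy hz hyz hk
    (List.mem_toFinset.1 (by rw [hS'] at he; exact he))
  obtain ⟨P, hP⟩ : ∃ P : Fin d → Finset (Ed d (2 * m)), P = fun j =>
    (S ∩ S').filter fun e => e.2 = j := ⟨_, rfl⟩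
  have hsub : (C ∪ S) ∩ (C' ∪ S') ⊆ (C ∩ C') ∪ (P i ∪ P y ∪ P z) := by
    intro e he
    obtain ⟨h1, h2⟩ := Finset.mem_inter.1 he
    rcases Finset.mem_union.1 h1 with h1 | h1
    · rcases Finset.mem_union.1 h2 with h2 | h2
      · exact Finset.mem_union_left _ (Finset.mem_inter.2 ⟨h1, h2⟩)
      · have a1 := zC e h1
        have a2 := (zS' e h2).1
        omega
    · rcases Finset.mem_union.1 h2 with h2 | h2
      · have a1 := zC' e h2
        have a2 := (zS e h1).1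
        omega
      · refine Finset.mem_union_right _ ?_
        rw [hP]
        simp only [Finset.mem_union, Finset.mem_filter, Finset.mem_inter]
        rcases (zS e h1).2 with h3 | h3 | h3
        · exact Or.inl (Or.inl ⟨⟨h1, h2⟩, h3.1⟩)
        · exact Or.inl (Or.inr ⟨⟨h1, h2⟩, h3.1⟩)
        · exact Or.inr ⟨⟨h1, h2⟩, h3.1⟩
  have hPc : ∀ j, (P j).card ≤ (stg i y z a b c k).count j := by
    intro j
    rw [hP]
    refine (Finset.card_le_card (Finset.filter_subset_filter _ Finset.inter_subset_left)).trans ?_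
    rw [hS]
    exact card_dir _ _ _
  have hb1 := hPc i
  rw [stg_count_i hy hz] at hb1
  have hb2 : (P y).card ≤ 2 ^ k :=
    (hPc y).trans (by rw [stg_count_y hy hz hyz]; exact bit_le a k)
  have hb3 : (P z).card ≤ 2 ^ k :=
    (hPc z).trans (by rw [stg_count_z hy hz hyz]; exact bit_le b k)
  have key : ∀ (j : Fin d) (p q : Prop) [Decidable p] [Decidable q], (P j).card ≤ 2 ^ k →
      (∀ e ∈ S, e ∈ S' → e.2 = j → p ∧ q) →
      ((P j).card : ℝ) ≤ 2 ^ k * ((if p then (1 : ℝ) else 0) * (if q then 1 else 0)) := by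
    intro j p q _ _ hle himp
    by_cases hpq : p ∧ q
    · rw [if_pos hpq.1, if_pos hpq.2, mul_one, mul_one]
      exact_mod_cast hle
    · have h0 : P j = ∅ := by
        rw [Finset.eq_empty_iff_forall_notMem]
        intro e he
        rw [hP] at he
        simp only [Finset.mem_filter, Finset.mem_inter] at he
        exact hpq (himp e he.1.1 he.1.2 he.2)
      rw [h0, Finset.card_empty, Nat.cast_zero]
      exact mul_nonneg (by positivity) (mul_nonneg (by split_ifs <;> norm_num)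
        (by split_ifs <;> norm_num))
  have k1 := key i (a % 2 ^ k = a' % 2 ^ k) (b % 2 ^ k = b' % 2 ^ k) hb1 (by
    intro e h1 h2 h3
    rcases (zS e h1).2 with h4 | h4 | h4
    · rcases (zS' e h2).2 with h5 | h5 | h5
      · exact ⟨h4.2.1.symm.trans h5.2.1, h4.2.2.symm.trans h5.2.2⟩
      · exact absurd (h3.symm.trans h5.1) hy
      · exact absurd (h3.symm.trans h5.1) hz
    · exact absurd (h3.symm.trans h4.1) hy
    · exact absurd (h3.symm.trans h4.1) hz)
  have k2 := key y (b % 2 ^ k = b' % 2 ^ k) (c % 2 ^ k = c' % 2 ^ k) hb2 (by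
    intro e h1 h2 h3
    rcases (zS e h1).2 with h4 | h4 | h4
    · exact absurd (h4.1.symm.trans h3) hy
    · rcases (zS' e h2).2 with h5 | h5 | h5
      · exact absurd (h5.1.symm.trans h3) hy
      · refine ⟨h4.2.2.symm.trans h5.2.2, ?_⟩
        have := h4.2.1.symm.trans h5.2.1
        omega
      · exact absurd (h3.symm.trans h5.1) hyz
    · exact absurd (h3.symm.trans h4.1) hyz)
  have k3 := key z (a % 2 ^ k = a' % 2 ^ k) (c % 2 ^ k = c' % 2 ^ k) hb3 (by
    intro e h1 h2 h3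
    rcases (zS e h1).2 with h4 | h4 | h4
    · exact absurd (h4.1.symm.trans h3) hz
    · exact absurd (h4.1.symm.trans h3) hyz
    · rcases (zS' e h2).2 with h5 | h5 | h5
      · exact absurd (h5.1.symm.trans h3) hz
      · exact absurd (h5.1.symm.trans h3) hyz
      · refine ⟨h4.2.2.symm.trans h5.2.2, ?_⟩
        have := h4.2.1.symm.trans h5.2.1
        omega)
  have hcard : (cmn m (cw i y z a b c (k + 1)) (cw i y z a' b' c' (k + 1))) ≤
      (C ∩ C').card + ((P i).card + (P y).card + (P z).card) := by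
    unfold cmn
    rw [e1, e2]
    refine (Finset.card_le_card hsub).trans ?_
    refine (Finset.card_union_le _ _).trans ?_
    refine Nat.add_le_add_left ?_ _
    refine (Finset.card_union_le _ _).trans ?_
    exact Nat.add_le_add_right (Finset.card_union_le _ _) _
  have hcard' : (cmn m (cw i y z a b c (k + 1)) (cw i y z a' b' c' (k + 1)) : ℝ) ≤
      (C ∩ C').card + ((P i).card + (P y).card + (P z).card) := by exact_mod_cast hcard
  have h0 : ((C ∩ C').card : ℝ) = cmn m (cw i y z a b c k) (cw i y z a' b' c' k) := by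
    rw [hC, hC']; rfl
  rw [h0] at hcard'
  unfold eq2
  linarith

lemma cmn_zero : cmn m (cw i y z a b c 0) (cw i y z a' b' c' 0) = 0 := by
  unfold cmn cw
  simp [lk]

end count

/-! ### summation over the pairs -/

lemma sum_pair {A B : Type*} [Fintype A] [Fintype B] (f : A → A → ℝ) (F : B → B → ℝ) :
    ∑ p : A × B, ∑ p' : A × B, f p.1 p'.1 * F p.2 p'.2 =
      (∑ a, ∑ a', f a a') * ∑ b, ∑ b', F b b' := by
  rw [Fintype.sum_prod_type, Finset.sum_mul_sum]
  refine Finset.sum_congr rfl fun a _ => Finset.sum_congr rfl fun b _ => ?_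
  rw [Fintype.sum_prod_type, Finset.sum_mul_sum]

lemma sum_eq2 {n k : ℕ} (hk : k ≤ n) :
    ∑ a : Fin (2 ^ n), ∑ a' : Fin (2 ^ n), eq2 k a a' = (2 ^ n) ^ 2 / 2 ^ k := by
  have h1 : ∀ a : Fin (2 ^ n), ∑ a' : Fin (2 ^ n), eq2 k a a' = 2 ^ n / 2 ^ k := by
    intro a
    rw [Fin.sum_univ_eq_sum_range (fun a' => eq2 k a a')]
    unfold eq2
    rw [Finset.sum_boole]
    have h2 := Nat.count_modEq_card (2 ^ n) (r := 2 ^ k) (by positivity) (a : ℕ)
    rw [Nat.count_eq_card_filter_range] at h2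
    have h3 : ((Finset.range (2 ^ n)).filter fun x => (a : ℕ) % 2 ^ k = x % 2 ^ k) =
        (Finset.range (2 ^ n)).filter fun x => x ≡ (a : ℕ) [MOD 2 ^ k] := by
      refine Finset.filter_congr fun x _ => ?_
      unfold Nat.ModEq
      exact eq_comm
    have h4 : 2 ^ n % 2 ^ k = 0 := Nat.mod_eq_zero_of_dvd (pow_dvd_pow 2 hk)
    rw [h3, h2, h4, if_neg (Nat.not_lt_zero _), add_zero, Nat.cast_div (pow_dvd_pow 2 hk)
      (by positivity)]
    push_cast
    rfl
  simp only [h1]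
  rw [Finset.sum_const, Finset.card_univ, Fintype.card_fin, nsmul_eq_mul]
  push_cast
  ring

lemma sum_one {n : ℕ} :
    ∑ a : Fin (2 ^ n), ∑ a' : Fin (2 ^ n), (1 : ℝ) = (2 ^ n) ^ 2 := by
  simp only [Finset.sum_const, Finset.card_univ, Fintype.card_fin, nsmul_eq_mul]
  push_cast
  ring

/-- the parameters of the paths -/
abbrev PO (n : ℕ) := Fin (2 ^ n) × Fin (2 ^ n) × Fin (2 ^ n)

lemma sum_ab {n k : ℕ} (hk : k ≤ n) :
    ∑ o : PO n, ∑ o' : PO n, eq2 k o.1 o'.1 * eq2 k o.2.1 o'.2.1 = (2 ^ n) ^ 6 / (2 ^ k) ^ 2 := by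
  have h1 := sum_pair (fun a a' : Fin (2 ^ n) => eq2 k a a')
    (fun p p' : Fin (2 ^ n) × Fin (2 ^ n) => eq2 k p.1 p'.1 * 1)
  have h2 := sum_pair (fun a a' : Fin (2 ^ n) => eq2 k a a') (fun p p' : Fin (2 ^ n) => (1 : ℝ))
  simp only [mul_one] at h1 h2
  rw [h1, h2, sum_eq2 hk, sum_one]
  field_simp

lemma sum_bc {n k : ℕ} (hk : k ≤ n) :
    ∑ o : PO n, ∑ o' : PO n, eq2 k o.2.1 o'.2.1 * eq2 k o.2.2 o'.2.2 =
      (2 ^ n) ^ 6 / (2 ^ k) ^ 2 := by
  have h1 := sum_pair (fun a a' : Fin (2 ^ n) => (1 : ℝ))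
    (fun p p' : Fin (2 ^ n) × Fin (2 ^ n) => eq2 k p.1 p'.1 * eq2 k p.2 p'.2)
  have h2 := sum_pair (fun a a' : Fin (2 ^ n) => eq2 k a a')
    (fun p p' : Fin (2 ^ n) => eq2 k p p')
  simp only [one_mul] at h1
  rw [h1, h2, sum_eq2 hk, sum_one]
  field_simp

lemma sum_ac {n k : ℕ} (hk : k ≤ n) :
    ∑ o : PO n, ∑ o' : PO n, eq2 k o.1 o'.1 * eq2 k o.2.2 o'.2.2 =
      (2 ^ n) ^ 6 / (2 ^ k) ^ 2 := by
  have h1 := sum_pair (fun a a' : Fin (2 ^ n) => eq2 k a a')
    (fun p p' : Fin (2 ^ n) × Fin (2 ^ n) => 1 * eq2 k p.2 p'.2)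
  have h2 := sum_pair (fun a a' : Fin (2 ^ n) => (1 : ℝ))
    (fun p p' : Fin (2 ^ n) => eq2 k p p')
  simp only [one_mul] at h1 h2
  rw [h1, h2, sum_eq2 hk, sum_one]
  field_simp

variable {d m : ℕ} [NeZero m] {i y z : Fin d}

/-- **the mean number of common links of the cones** -/
lemma sum_cmn (hy : i ≠ y) (hz : i ≠ z) (hyz : y ≠ z) {n k : ℕ} (hk : k ≤ n)
    (hn : 2 ^ n ≤ 2 * m) :
    ∑ o : PO n, ∑ o' : PO n, (cmn m (cw i y z o.1 o.2.1 o.2.2 k)
      (cw i y z o'.1 o'.2.1 o'.2.2 k) : ℝ) ≤ 6 * (2 ^ n) ^ 6 * (1 - 1 / 2 ^ k) := by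
  induction k with
  | zero =>
    simp only [cmn_zero, Nat.cast_zero, Finset.sum_const_zero, pow_zero]
    norm_num
  | succ k ih =>
    have h1 := ih (by omega)
    have h2 : ∀ o o' : PO n, (cmn m (cw i y z o.1 o.2.1 o.2.2 (k + 1))
        (cw i y z o'.1 o'.2.1 o'.2.2 (k + 1)) : ℝ) ≤
        cmn m (cw i y z o.1 o.2.1 o.2.2 k) (cw i y z o'.1 o'.2.1 o'.2.2 k) +
        (2 ^ k * (eq2 k o.1 o'.1 * eq2 k o.2.1 o'.2.1) +
          2 ^ k * (eq2 k o.2.1 o'.2.1 * eq2 k o.2.2 o'.2.2) +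
          2 ^ k * (eq2 k o.1 o'.1 * eq2 k o.2.2 o'.2.2)) := by
      intro o o'
      have := cmn_succ (m := m) (a := o.1) (b := o.2.1) (c := o.2.2) (a' := o'.1) (b' := o'.2.1)
        (c' := o'.2.2) hy hz hyz ((Nat.pow_le_pow_right (by norm_num) hk).trans hn)
      linarith
    refine (Finset.sum_le_sum fun o _ => Finset.sum_le_sum fun o' _ => h2 o o').trans ?_
    simp only [Finset.sum_add_distrib, ← Finset.mul_sum]
    rw [sum_ab (by omega), sum_bc (by omega), sum_ac (by omega)]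
    have h3 : (2 : ℝ) ^ k * ((2 ^ n) ^ 6 / (2 ^ k) ^ 2) = (2 ^ n) ^ 6 / 2 ^ k := by field_simp
    rw [h3]
    have h4 : 6 * ((2 : ℝ) ^ n) ^ 6 * (1 - 1 / 2 ^ (k + 1)) = 6 * (2 ^ n) ^ 6 * (1 - 1 / 2 ^ k) +
        3 * ((2 ^ n) ^ 6 / 2 ^ k) := by
      rw [pow_succ]
      field_simp
      ring
    rw [h4]
    linarith

/-- **the mean number of common links of the paths** -/
theorem sum_pl (hy : i ≠ y) (hz : i ≠ z) (hyz : y ≠ z) {n R M : ℕ} (hRm : R < 2 * m)
    (hR : R = 2 * (2 ^ n - 1) + M) (hM : (M : ℝ) ≤ 4 * (2 ^ n) ^ 2) :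
    ∑ o : PO n, ∑ o' : PO n,
      ((((pl m i R M (cw i y z o.1 o.2.1 o.2.2 n)).map Prod.fst).toFinset ∩
        ((pl m i R M (cw i y z o'.1 o'.2.1 o'.2.2 n)).map Prod.fst).toFinset).card : ℝ) ≤
      16 * (2 ^ n) ^ 6 := by
  have hpos : 0 < 2 ^ n := by positivity
  have hn : 2 ^ n ≤ 2 * m := by
    have := NeZero.pos m
    omega
  have h1 := sum_cmn (m := m) hy hz hyz (le_refl n) hn
  have h2 : ∀ o o' : PO n,
      ((((pl m i R M (cw i y z o.1 o.2.1 o.2.2 n)).map Prod.fst).toFinset ∩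
        ((pl m i R M (cw i y z o'.1 o'.2.1 o'.2.2 n)).map Prod.fst).toFinset).card : ℝ) ≤
      2 * (cmn m (cw i y z o.1 o.2.1 o.2.2 n) (cw i y z o'.1 o'.2.1 o'.2.2 n) : ℝ) +
        M * (eq2 n o.1 o'.1 * eq2 n o.2.1 o'.2.1) := by
    intro o o'
    have h3 := pl_inter (m := m) hRm hR (cw_count_i (a := o.1) (b := o.2.1) (c := o.2.2) hy hz)
      cw_EI (cw_count_i (a := o'.1) (b := o'.2.1) (c := o'.2.2) hy hz) cw_EI
    have h4 : (((if (dsp eT (cw i y z o.1 o.2.1 o.2.2 n) : Fin d → ZMod (2 * m)) =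
        dsp eT (cw i y z o'.1 o'.2.1 o'.2.2 n) then 1 else 0 : ℕ)) : ℝ) ≤
        eq2 n o.1 o'.1 * eq2 n o.2.1 o'.2.1 := by
      split_ifs with h
      · have e1 := congrFun h y
        have e2 := congrFun h z
        rw [dsp_apply, dsp_apply, cw_count_y hy hz hyz, cw_count_y hy hz hyz] at e1
        rw [dsp_apply, dsp_apply, cw_count_z hy hz hyz, cw_count_z hy hz hyz] at e2
        have f1 := congrArg ZMod.val e1
        have f2 := congrArg ZMod.val e2
        rw [val_nat (lt_of_lt_of_le (cmod_le _ _) hn), val_nat (lt_of_lt_of_le (cmod_le _ _) hn)]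
          at f1 f2
        unfold eq2
        rw [if_pos f1, if_pos f2]
        norm_num
      · rw [Nat.cast_zero]
        exact mul_nonneg (eq2_nonneg _ _ _) (eq2_nonneg _ _ _)
    have h5 := (Nat.cast_le (α := ℝ)).2 h3
    push_cast at h5
    push_cast at h4
    refine h5.trans ?_
    unfold cmn
    refine add_le_add le_rfl ?_
    exact mul_le_mul_of_nonneg_left h4 (Nat.cast_nonneg _)
  refine (Finset.sum_le_sum fun o _ => Finset.sum_le_sum fun o' _ => h2 o o').trans ?_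
  simp only [Finset.sum_add_distrib, ← Finset.mul_sum]
  rw [sum_ab le_rfl]
  have h3 : (M : ℝ) * ((2 ^ n) ^ 6 / (2 ^ n) ^ 2) ≤ 4 * (2 ^ n) ^ 6 := by
    calc (M : ℝ) * ((2 ^ n) ^ 6 / (2 ^ n) ^ 2) ≤ (4 * (2 ^ n) ^ 2) * ((2 ^ n) ^ 6 / (2 ^ n) ^ 2) :=
          mul_le_mul_of_nonneg_right hM (by positivity)
      _ = _ := by field_simp
  have h4 : 6 * ((2 : ℝ) ^ n) ^ 6 * (1 - 1 / 2 ^ n) ≤ 6 * (2 ^ n) ^ 6 := by
    have : (0 : ℝ) ≤ 1 / 2 ^ n := by positivity
    have h5 : (0 : ℝ) ≤ 6 * (2 ^ n) ^ 6 := by positivity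
    nlinarith
  linarith

end

end Pool.Agent.Q204.PL
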