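import Mathlib
import Pool.Agent.Y14.Sort
import Pool.Agent.Q204.YM.Cone

/-!
# Comparison of the transports along the paths with the transport along the straight line
-/

open MeasureTheory Matrix Filter
open scoped Matrix.Norms.Frobenius ContDiff Topology
open Pool.Agent.H906R3.YM hiding Pl
open Pool.Agent.W793.YM Pool.Agent.TH618.YM Pool.Agent.Y14

namespace Pool.Agent.Q204.PL

set_option linter.unusedSectionVars false
set_option linter.unusedVariables false

noncomputable section

variable {G : Type*} [Group G] [TopologicalSpace G] [IsTopologicalGroup G] [CompactSpace G]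
  [SecondCountableTopology G] [MeasurableSpace G] [BorelSpace G] (μ : Measure G)
  [IsProbabilityMeasure μ] [μ.IsMulLeftInvariant] [μ.IsMulRightInvariant] [μ.IsInvInvariant]
  {N n' : ℕ} {L : LD G N n'} {d m : ℕ} [NeZero m] {τ i y z : Fin d} {β : ℝ} {hm : 2 ≤ m}

/-! ### invariance under reflections -/

lemma act_sU (hm : 2 ≤ m) (i : Fin d) (U : Ed d (2 * m) → G) :
    act L ((SR hm i).tU U) = act L U := by
  rw [act_sS (i0 := i) hm, act_sS (i0 := i) hm U, (SR hm i).tU_tU, add_comm]

lemma EX_rf (hm : 2 ≤ m) (i : Fin d) (R : ℕ) (F : (Ed d (2 * m) → G) → ℝ) :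
    EX μ L β (fun U => F (rf hm i R U)) = EX μ L β F := by
  have h1 : EX μ L β (fun U => F ((SR hm i).tU U)) = EX μ L β F := by
    unfold EX Zt
    congr 1
    rw [← (SR hm i).integral μ (fun U => F U * Real.exp (-(β * act L U)))]
    simp only [act_sU]
  rw [← h1, ← EX_tr μ (R • eT i) (fun U => F ((SR hm i).tU U))]
  rfl

/-! ### distances -/

lemma dd_inv (g h : G) : dd L g⁻¹ h⁻¹ = dd L g h := by
  unfold dd
  rw [L.rho_inv, L.rho_inv, ← conjTranspose_sub, norm_ct]

lemma dd_rect (U : Ed d (2 * m) → G) (x : Fin d → ZMod (2 * m)) (i j : Fin d) (a b : ℕ) :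
    dd L (ln U i a x * ln U j b (x + a • eT i)) (ln U j b x * ln U i a (x + b • eT j)) =
      dv L (rect U x i j a b) := by
  rw [dd_dv]
  unfold rect
  congr 1
  group

lemma ln_rf_same (R k : ℕ) (x : Fin d → ZMod (2 * m)) (U : Ed d (2 * m) → G) :
    ln (rf hm i R U) i k x = (ln U i k (rB i x - k • eT i + R • eT i))⁻¹ := by
  unfold rf
  rw [ln_sU_same, ln_tr]

lemma ln_rf_ne {j : Fin d} (hj : j ≠ i) (R k : ℕ) (x : Fin d → ZMod (2 * m))
    (U : Ed d (2 * m) → G) : ln (rf hm i R U) j k x = ln U j k (rB i x + R • eT i) := by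
  unfold rf
  rw [ln_sU_ne hj, ln_tr]

/-- the word with three straight parts -/
def wt (i y z : Fin d) (q a b : ℕ) : List (Fin d) :=
  List.replicate q i ++ (List.replicate a y ++ List.replicate b z)

lemma dsp_wt (q a b : ℕ) : (dsp eT (wt i y z q a b) : Fin d → ZMod (2 * m)) =
    q • eT i + (a • eT y + b • eT z) := by
  unfold wt
  rw [dsp_append, dsp_append, dsp_rep, dsp_rep, dsp_rep]

lemma tp_wt (U : Ed d (2 * m) → G) (q a b : ℕ) :
    tp eT U 0 (wt i y z q a b) =
      ln U i q 0 * (ln U y a (q • eT i) * ln U z b (q • eT i + a • eT y)) := by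
  unfold wt
  rw [tp_append, tp_append, tp_rep, tp_rep, tp_rep, dsp_rep, dsp_rep, zero_add]

lemma pth_straight (hy : i ≠ y) (hz : i ≠ z) {R M q a b : ℕ} (hR : R = 2 * q + M)
    (U : Ed d (2 * m) → G) :
    dd L (pth hm i R M (wt i y z q a b) U) (ln U i R 0) ≤
      dv L (rect U (q • eT i + a • eT y) z i b M) + dv L (rect U (q • eT i) y i a M) := by
  obtain ⟨x, hx⟩ : ∃ x : Fin d → ZMod (2 * m), x = q • eT i := ⟨_, rfl⟩
  have r1 : rB i (0 : Fin d → ZMod (2 * m)) - q • eT i + R • eT i = x + M • eT i := by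
    have h0 : rB i (0 : Fin d → ZMod (2 * m)) = 0 := by unfold rB; simp
    rw [h0, hx, hR, add_smul, mul_smul, two_smul]
    abel
  have r2 : rB i x + R • eT i = x + M • (eT i : Fin d → ZMod (2 * m)) := by
    rw [hx, hR]
    funext k
    unfold rB eT
    by_cases hk : k = i
    · subst hk
      simp
      ring
    · simp [hk]
  have r3 : rB i (x + a • eT y) + R • eT i = x + M • eT i + a • (eT y : Fin d → ZMod (2 * m)) := by
    rw [hx, hR]
    funext k
    unfold rB eT
    by_cases hk : k = i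
    · subst hk
      simp [hy]
      ring
    · simp [hk]
  have e1 : tp eT U 0 (wt i y z q a b) =
      ln U i q 0 * (ln U y a x * ln U z b (x + a • eT y)) := by rw [tp_wt, hx]
  have e2 : tp eT (rf hm i R U) 0 (wt i y z q a b) =
      (ln U i q (x + M • eT i))⁻¹ *
        (ln U y a (x + M • eT i) * ln U z b (x + M • eT i + a • eT y)) := by
    rw [tp_wt, ln_rf_same, r1, ← hx, ln_rf_ne hy.symm, ln_rf_ne hz.symm, r2, r3]
  have e3 : (dsp eT (wt i y z q a b) : Fin d → ZMod (2 * m)) = x + a • eT y + b • eT z := by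
    rw [dsp_wt, hx, add_assoc]
  have e4 : ln U i R 0 = ln U i q 0 * ln U i M x * ln U i q (x + M • eT i) := by
    have : R = q + M + q := by omega
    rw [this, ln_add, ln_add, hx, zero_add, zero_add, add_smul]
  have e5 : pth hm i R M (wt i y z q a b) U = ln U i q 0 *
      ((ln U y a x * (ln U z b (x + a • eT y) * ln U i M (x + a • eT y + b • eT z))) *
        (ln U y a (x + M • eT i) * ln U z b (x + M • eT i + a • eT y))⁻¹) *
        ln U i q (x + M • eT i) := by
    unfold pth
    rw [e1, e2, e3]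
    group
  have e6 : ln U i q 0 * ln U i M x * ln U i q (x + M • eT i) = ln U i q 0 *
      ((ln U i M x * ln U y a (x + M • eT i) * ln U z b (x + M • eT i + a • eT y)) *
        (ln U y a (x + M • eT i) * ln U z b (x + M • eT i + a • eT y))⁻¹) *
        ln U i q (x + M • eT i) := by
    group
  rw [e5, e4, e6, dd_rmul, dd_lmul, dd_rmul, ← hx]
  refine (dd_tri _ (ln U y a x * (ln U i M (x + a • eT y) *
    ln U z b (x + a • eT y + M • eT i))) _).trans ?_
  refine add_le_add (le_of_eq ?_) (le_of_eq ?_)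
  · rw [dd_lmul, dd_rect]
  · rw [← mul_assoc, add_right_comm x (a • eT y), dd_rmul, dd_rect]

lemma dd_pth {R M : ℕ} {w w' : List (Fin d)}
    (h : (dsp eT w : Fin d → ZMod (2 * m)) = dsp eT w') (U : Ed d (2 * m) → G) :
    dd L (pth hm i R M w U) (pth hm i R M w' U) ≤
      dd L (tp eT U 0 w) (tp eT U 0 w') +
        dd L (tp eT (rf hm i R U) 0 w) (tp eT (rf hm i R U) 0 w') := by
  unfold pth
  rw [← h]
  refine (dd_tri _ (tp eT U 0 w' * ln U i M (dsp eT w) * (tp eT (rf hm i R U) 0 w)⁻¹) _).trans ?_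
  refine add_le_add (le_of_eq ?_) (le_of_eq ?_)
  · rw [dd_rmul, dd_rmul]
  · rw [dd_lmul, dd_inv]

lemma pth_cont {R M : ℕ} (w : List (Fin d)) : Continuous (pth (G := G) hm i R M w) :=
  ((tp_cont _ _).mul (ln_cont _ _ _)).mul ((tp_cont _ _).comp (rf_cont R)).inv

lemma en_pth {R M : ℕ} {w w' : List (Fin d)}
    (h : (dsp eT w : Fin d → ZMod (2 * m)) = dsp eT w') :
    en μ L β (fun U => dd L (pth hm i R M w U) (pth hm i R M w' U)) ≤
      2 * en μ L β (fun U : Ed d (2 * m) → G => dd L (tp eT U 0 w) (tp eT U 0 w')) := by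
  have c1 : Continuous fun U : Ed d (2 * m) → G => dd L (tp eT U 0 w) (tp eT U 0 w') :=
    ddc _ _ _ _
  have c2 : Continuous fun U : Ed d (2 * m) → G =>
      dd L (tp eT (rf hm i R U) 0 w) (tp eT (rf hm i R U) 0 w') := c1.comp (rf_cont R)
  have e1 : en μ L β (fun U : Ed d (2 * m) → G =>
      dd L (tp eT (rf hm i R U) 0 w) (tp eT (rf hm i R U) 0 w')) =
      en μ L β (fun U : Ed d (2 * m) → G => dd L (tp eT U 0 w) (tp eT U 0 w')) := by
    unfold en
    rw [EX_rf μ hm i R (fun U : Ed d (2 * m) → G => dd L (tp eT U 0 w) (tp eT U 0 w') ^ 2)]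
  refine le_trans (en_mono μ (dd_cont (pth_cont w) (pth_cont w')) (c1.add c2) fun U => ?_)
    ((en_add μ c1 c2).trans (le_of_eq ?_))
  · rw [abs_of_nonneg (dd_nonneg _ _)]
    exact dd_pth h U
  · rw [e1]; ring

variable (L) in
/-- the size of the deviation of a rectangle -/
def ps (m : ℕ) [NeZero m] (β : ℝ) (i j : Fin d) (a b : ℕ) : ℝ :=
  en μ L β (fun U : Ed d (2 * m) → G => dv L (rect U 0 i j a b))

lemma ps_nonneg (i j : Fin d) (a b : ℕ) : 0 ≤ ps μ L m β i j a b := en_nonneg μ _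

lemma ps_x (x : Fin d → ZMod (2 * m)) (i j : Fin d) (a b : ℕ) :
    en μ L β (fun U : Ed d (2 * m) → G => dv L (rect U x i j a b)) = ps μ L m β i j a b := by
  unfold ps en
  rw [← EX_tr μ x (fun U : Ed d (2 * m) → G => dv L (rect U 0 i j a b) ^ 2)]
  simp only [rect_tr, zero_add]

lemma ps_swap (i j : Fin d) (a b : ℕ) : ps μ L m β i j a b = ps μ L m β j i b a := by
  unfold ps
  congr 1
  funext U
  rw [rect_swap, dv_inv]

lemma ps_area (hm : 2 ≤ m) (hN : 1 ≤ N) (hβ : 0 < β) {i j : Fin d} (hij : i ≠ j) {a b : ℕ}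
    (ha : a < 2 * m) (hb : b < 2 * m) {Q : ℝ} (hQ : (a * b : ℝ) ≤ Q) :
    ps μ L m β i j a b ≤ kp N β * Real.sqrt Q := by
  unfold ps en kp
  rw [← Real.sqrt_mul (by positivity)]
  refine Real.sqrt_le_sqrt ((rect_bound μ hm hN hβ hij 0 ha hb).trans ?_)
  exact mul_le_mul_of_nonneg_left hQ (by positivity)

lemma ps_sq (hN : 1 ≤ N) (i j : Fin d) (a b : ℕ) :
    ps μ L m β i j a b ^ 2 = 2 * N * (1 - wR2 μ L m β i j a b) := by
  unfold ps
  rw [en_sq, EX_dv_rect μ hN]

/-! ### the cones -/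

/-- the displacement of the cone -/
def vk (i y z : Fin d) (a b k : ℕ) : Fin d → ℕ := fun j =>
  if j = i then 2 ^ k - 1 else if j = y then a % 2 ^ k else if j = z then b % 2 ^ k else 0

lemma srt_cw (hm : 2 ≤ m) (hN : 1 ≤ N) (hβ : 0 < β) (hy : i ≠ y) (hz : i ≠ z) (hyz : y ≠ z)
    (a b c k : ℕ) (hk : 2 ^ k < 2 * m) :
    Srt μ L β (0 : Fin d → ZMod (2 * m)) (cw i y z a b c k) (vk i y z a b k)
      (8 * d * (kp N β * (2 ^ k - 1))) := by
  induction k with
  | zero =>
    refine (Srt.nil μ 0).mono μ (fun j => ?_) (by norm_num)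
    unfold vk
    simp [Nat.mod_one]
  | succ k ih =>
    have hpos : 0 < 2 ^ k := by positivity
    have h2 : 2 ^ (k + 1) = 2 * 2 ^ k := by rw [pow_succ]; ring
    rw [h2] at hk
    have h0 := ih (by omega)
    have hc := cmod_le c k
    have ha := cmod_le a k
    have hb := cmod_le b k
    have hab := bit_le a k
    have hbb := bit_le b k
    have ha2 := Nat.mod_pow_succ (x := a) (b := 2) (k := k)
    have hb2 := Nat.mod_pow_succ (x := b) (b := 2) (k := k)
    rw [cw_succ]
    unfold stg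
    obtain ⟨A, hA⟩ : ∃ A, A = 2 ^ k * (a / 2 ^ k % 2) := ⟨_, rfl⟩
    obtain ⟨B, hB⟩ : ∃ B, B = 2 ^ k * (b / 2 ^ k % 2) := ⟨_, rfl⟩
    rw [← hA] at hab ha2 ⊢
    rw [← hB] at hbb hb2 ⊢
    have h1 := h0.rep' μ hm hN hβ hk (nn := c % 2 ^ k) (by omega) (fun j => by
      unfold vk
      split_ifs <;> omega) i
    have h3 := h1.rep' μ hm hN hβ hk (nn := A) (by omega) (fun j => by
      unfold vk
      split_ifs <;> omega) y
    have h4 := h3.rep' μ hm hN hβ hk (nn := B) (by omega) (fun j => by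
      unfold vk
      split_ifs <;> omega) z
    have h5 := h4.rep' μ hm hN hβ hk (nn := 2 ^ k - c % 2 ^ k) (by omega) (fun j => by
      unfold vk
      split_ifs <;> omega) i
    rw [List.append_assoc, List.append_assoc, List.append_assoc] at h5
    refine h5.mono μ (fun j => ?_) (le_of_eq ?_)
    · unfold vk
      rw [ha2, hb2, h2]
      by_cases hji : j = i
      · subst hji
        simp only [if_true, hy, hz, if_false]
        omega
      · by_cases hjy : j = y
        · subst hjy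
          simp only [if_true, hji, hyz, if_false]
          omega
        · by_cases hjz : j = z
          · subst hjz
            simp only [if_true, hji, hjy, if_false]
            omega
          · simp only [hji, hjy, hjz, if_false]
    · rw [pow_succ]
      push_cast
      ring

lemma srt_wt (hm : 2 ≤ m) (hN : 1 ≤ N) (hβ : 0 < β) (hy : i ≠ y) (hz : i ≠ z) (hyz : y ≠ z)
    {a b n : ℕ} (ha : a < 2 ^ n) (hb : b < 2 ^ n) (hk : 2 ^ n < 2 * m) :
    Srt μ L β (0 : Fin d → ZMod (2 * m)) (wt i y z (2 ^ n - 1) a b) (vk i y z a b n)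
      (3 * d * (kp N β * 2 ^ n)) := by
  have h1 := (Srt.nil μ (L := L) (β := β) (0 : Fin d → ZMod (2 * m))).rep' μ hm hN hβ hk
    (nn := 2 ^ n - 1) (by omega) (fun j => by omega) i
  have h3 := h1.rep' μ hm hN hβ hk (nn := a) (by omega) (fun j => by
      split_ifs <;> omega) y
  have h4 := h3.rep' μ hm hN hβ hk (nn := b) (by omega) (fun j => by
      split_ifs <;> omega) z
  rw [List.nil_append, List.append_assoc] at h4
  refine h4.mono μ (fun j => ?_) (le_of_eq ?_)
  · unfold vk
    rw [Nat.mod_eq_of_lt ha, Nat.mod_eq_of_lt hb]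
    by_cases hji : j = i
    · subst hji
      simp only [if_true, hy, hz, if_false]
      omega
    · by_cases hjy : j = y
      · subst hjy
        simp only [if_true, hji, hyz, if_false]
        omega
      · by_cases hjz : j = z
        · subst hjz
          simp only [if_true, hji, hjy, if_false]
          omega
        · simp only [hji, hjy, hjz, if_false]
  · push_cast
    ring

/-- **the transport along a path of the family is close to the one along the line** -/
theorem en_line (hm : 2 ≤ m) (hN : 1 ≤ N) (hβ : 0 < β) (hy : i ≠ y) (hz : i ≠ z) (hyz : y ≠ z)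
    {a b c n R M : ℕ} (ha : a < 2 ^ n) (hb : b < 2 ^ n) (hR : R = 2 * (2 ^ n - 1) + M)
    (hk : 2 ^ n < 2 * m) :
    en μ L β (fun U : Ed d (2 * m) → G =>
      dd L (pth hm i R M (cw i y z a b c n) U) (ln U i R 0)) ≤
      22 * d * (kp N β * 2 ^ n) + (ps μ L m β z i b M + ps μ L m β y i a M) := by
  have h1 := srt_cw μ (L := L) hm hN hβ hy hz hyz a b c n hk
  have h2 := srt_wt μ (L := L) hm hN hβ hy hz hyz ha hb hk
  have h3 := h1.cmp μ h2
  have hd : (dsp eT (cw i y z a b c n) : Fin d → ZMod (2 * m)) =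
      dsp eT (wt i y z (2 ^ n - 1) a b) := h1.1.trans h2.1.symm
  have h4 := en_pth μ (L := L) (β := β) (hm := hm) (i := i) (R := R) (M := M) hd
  have h5 : en μ L β (fun U : Ed d (2 * m) → G =>
      dd L (pth hm i R M (wt i y z (2 ^ n - 1) a b) U) (ln U i R 0)) ≤
      ps μ L m β z i b M + ps μ L m β y i a M := by
    have c1 : Continuous fun U : Ed d (2 * m) → G =>
        dv L (rect U ((2 ^ n - 1) • eT i + a • eT y) z i b M) := dv_cont.comp (rect_cont _ _ _ _ _)
    have c2 : Continuous fun U : Ed d (2 * m) → G =>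
        dv L (rect U ((2 ^ n - 1) • eT i) y i a M) := dv_cont.comp (rect_cont _ _ _ _ _)
    rw [← ps_x μ ((2 ^ n - 1) • eT i + a • eT y) z i b M, ← ps_x μ ((2 ^ n - 1) • eT i) y i a M]
    refine le_trans (en_mono μ (dd_cont (pth_cont _) (ln_cont _ _ _)) (c1.add c2) fun U => ?_)
      (en_add μ c1 c2)
    rw [abs_of_nonneg (dd_nonneg _ _)]
    exact pth_straight hy hz hR U
  have h6 := en_tri μ (L := L) (β := β) (pth_cont (G := G) (hm := hm) (i := i) (R := R) (M := M)
    (cw i y z a b c n)) (pth_cont (G := G) (hm := hm) (i := i) (R := R) (M := M)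
    (wt i y z (2 ^ n - 1) a b)) (ln_cont i R 0)
  have hk0 : 0 ≤ kp N β := kp_nonneg
  have hd0 : (0 : ℝ) ≤ d := Nat.cast_nonneg _
  have h7 := mul_nonneg hd0 hk0
  have h8 : 2 * (8 * d * (kp N β * (2 ^ n - 1)) + 3 * d * (kp N β * 2 ^ n)) ≤
      22 * d * (kp N β * 2 ^ n) := by nlinarith
  linarith

/-! ### the rectangle -/

variable {O : Type*} [Fintype O] {g : O → (Ed d (2 * m) → G) → G}

lemma rect_family (hi : i ≠ τ) {R T : ℕ} (h : ∀ o, Sl τ (R • eT i) (g o)) :
    (Fintype.card O : ℝ) * ps μ L m β i τ R T ≤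
      2 * ∑ o, en μ L β (fun U => dd L (g o U) (ln U i R 0)) +
        en μ L β (fun U => ‖Xt L τ (R • eT i) g T U‖) := by
  obtain ⟨K, hK⟩ : ∃ K : ℝ, K = Fintype.card O := ⟨_, rfl⟩
  have hK0 : 0 ≤ K := by rw [hK]; exact Nat.cast_nonneg _
  have c1 : ∀ o, Continuous fun U : Ed d (2 * m) → G => dd L (g o U) (ln U i R 0) := fun o =>
    dd_cont (h o).cont (ln_cont _ _ _)
  have c2 : Continuous fun U : Ed d (2 * m) → G => ∑ o, dd L (g o U) (ln U i R 0) :=
    continuous_finsetSum _ fun o _ => c1 o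
  have c3 : Continuous fun U : Ed d (2 * m) → G =>
      ∑ o, dd L (g o (tr (T • eT τ) U)) (ln (tr (T • eT τ) U) i R 0) := c2.comp (tr_cont _)
  have c4 : Continuous fun U : Ed d (2 * m) → G => ‖Xt L τ (R • eT i) g T U‖ :=
    (Xt_cont h T).norm
  have hpt : ∀ U : Ed d (2 * m) → G, K * dv L (rect U 0 i τ R T) ≤
      ∑ o, dd L (g o U) (ln U i R 0) + (‖Xt L τ (R • eT i) g T U‖ +
        ∑ o, dd L (g o (tr (T • eT τ) U)) (ln (tr (T • eT τ) U) i R 0)) := by
    intro U
    have e0 : ln (tr (T • eT τ) U) i R 0 = ln U i R (T • eT τ) := by rw [ln_tr, zero_add]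
    rw [← dd_rect, zero_add, zero_add, e0]
    unfold dd
    have e1 : K * ‖L.rho (ln U i R 0 * ln U τ T (R • eT i)) -
        L.rho (ln U τ T 0 * ln U i R (T • eT τ))‖ =
        ‖K • (L.rho (ln U i R 0 * ln U τ T (R • eT i)) -
        L.rho (ln U τ T 0 * ln U i R (T • eT τ)))‖ := by
      rw [norm_smul, Real.norm_of_nonneg hK0]
    have e2 : K • (L.rho (ln U i R 0 * ln U τ T (R • eT i)) -
        L.rho (ln U τ T 0 * ln U i R (T • eT τ))) =
        (∑ o, (L.rho (ln U i R 0) - L.rho (g o U))) * L.rho (ln U τ T (R • eT i)) +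
        (Xt L τ (R • eT i) g T U + L.rho (ln U τ T 0) *
          ∑ o, (L.rho (g o (tr (T • eT τ) U)) - L.rho (ln U i R (T • eT τ)))) := by
      unfold Xt
      rw [Finset.sum_sub_distrib, Finset.sum_sub_distrib, Finset.sum_const, Finset.sum_const,
        Finset.card_univ, map_mul, map_mul, hK, Nat.cast_smul_eq_nsmul, smul_sub, sub_mul, mul_sub,
        smul_mul_assoc, mul_smul_comm]
      abel
    rw [e1, e2]
    refine (norm_add_le _ _).trans ?_
    rw [norm_rmul]
    refine add_le_add ?_ ((norm_add_le _ _).trans ?_)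
    · refine (norm_sum_le _ _).trans (le_of_eq ?_)
      exact Finset.sum_congr rfl fun o _ => norm_sub_rev _ _
    · rw [norm_lmul]
      exact add_le_add le_rfl (norm_sum_le _ _)
  have e5 : en μ L β (fun U : Ed d (2 * m) → G =>
      ∑ o, dd L (g o (tr (T • eT τ) U)) (ln (tr (T • eT τ) U) i R 0)) =
      en μ L β (fun U : Ed d (2 * m) → G => ∑ o, dd L (g o U) (ln U i R 0)) := by
    unfold en
    rw [EX_tr μ (T • eT τ) (fun U : Ed d (2 * m) → G => (∑ o, dd L (g o U) (ln U i R 0)) ^ 2)]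
  have e6 : en μ L β (fun U : Ed d (2 * m) → G => ∑ o, dd L (g o U) (ln U i R 0)) ≤
      ∑ o, en μ L β (fun U => dd L (g o U) (ln U i R 0)) := en_sum μ _ c1
  rw [← hK]
  unfold ps
  rw [← en_smul μ hK0]
  have c5 : Continuous fun U : Ed d (2 * m) → G => K * dv L (rect U 0 i τ R T) :=
    continuous_const.mul (dv_cont.comp (rect_cont _ _ _ _ _))
  have c6 : Continuous fun U : Ed d (2 * m) → G => ‖Xt L τ (R • eT i) g T U‖ +
      ∑ o, dd L (g o (tr (T • eT τ) U)) (ln (tr (T • eT τ) U) i R 0) := c4.add c3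
  have f1 := en_add μ (L := L) (β := β) c2 c6
  have f2 := en_add μ (L := L) (β := β) c4 c3
  rw [e5] at f2
  refine (en_mono μ c5 (c2.add c6) fun U => ?_).trans (f1.trans ?_)
  · rw [abs_of_nonneg (mul_nonneg hK0 (dv_nonneg _))]
    exact hpt U
  · linarith

end

end Pool.Agent.Q204.PL
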