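import Mathlib
import Pool.Agent.Q204.YM.Comp

/-!
# The perimeter law up to the scale `β`
-/

open MeasureTheory Matrix Filter
open scoped Matrix.Norms.Frobenius ContDiff Topology
open Pool.Agent.H906R3.YM hiding Pl
open Pool.Agent.W793.YM Pool.Agent.TH618.YM Pool.Agent.Y14

namespace Pool.Agent.Q204.PL

set_option linter.unusedSectionVars false
set_option linter.unusedVariables false

noncomputable section

lemma pow_sub_one_le {σ : ℝ} (hσ : 0 ≤ σ) {c : ℕ} (h : σ * c ≤ 1) :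
    (1 + σ) ^ c - 1 ≤ 2 * (σ * c) := by
  obtain ⟨x, hx⟩ : ∃ x : ℝ, x = σ * c := ⟨_, rfl⟩
  have hx0 : 0 ≤ x := by rw [hx]; positivity
  rw [← hx] at h ⊢
  have h2 : (1 + σ) ^ c ≤ Real.exp x := by
    rw [hx, mul_comm, Real.exp_nat_mul]
    exact pow_le_pow_left₀ (by linarith) (by linarith [Real.add_one_le_exp σ]) _
  have h3 := Real.abs_exp_sub_one_sub_id_le (x := x) (by rw [abs_of_nonneg hx0]; exact h)
  have h4 := (abs_le.1 h3).2
  nlinarith

variable {G : Type*} [Group G] [TopologicalSpace G] [IsTopologicalGroup G] [CompactSpace G]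
  [SecondCountableTopology G] [MeasurableSpace G] [BorelSpace G] (μ : Measure G)
  [IsProbabilityMeasure μ] [μ.IsMulLeftInvariant] [μ.IsMulRightInvariant] [μ.IsInvInvariant]
  {N n' : ℕ} {L : LD G N n'} {d m : ℕ} [NeZero m] {τ i y z : Fin d} {β : ℝ} {hm : 2 ≤ m}

/-- **One scale.** -/
theorem step (hm : 2 ≤ m) (hN : 1 ≤ N) (hβ : 0 < β) (hi : i ≠ τ) (hyτ : y ≠ τ) (hzτ : z ≠ τ)
    (hy : i ≠ y) (hz : i ≠ z) (hyz : y ≠ z) {n R M T : ℕ} (hR : R = 2 * (2 ^ n - 1) + M)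
    (hRm : R < m) (hM : (M : ℝ) ≤ 4 * (2 ^ n) ^ 2) (hT : T ≤ 2 * m)
    (hRβ : 6 * N * R ≤ β) {P : ℝ} (hPz : ∀ b < 2 ^ n, ps μ L m β z i b M ≤ P)
    (hPy : ∀ a < 2 ^ n, ps μ L m β y i a M ≤ P) :
    ps μ L m β i τ R T ≤ kp N β * (44 * d * 2 ^ n + 17 * Real.sqrt T) + 4 * P := by
  have hpos : 0 < 2 ^ n := by positivity
  have hposR : (0 : ℝ) < 2 ^ n := by positivity
  have hk0 : 0 ≤ kp N β := kp_nonneg
  have hN0 : (0 : ℝ) ≤ N := Nat.cast_nonneg _
  obtain ⟨g, hg⟩ : ∃ g : PO n → (Ed d (2 * m) → G) → G, g = fun o =>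
    pth hm i R M (cw i y z o.1 o.2.1 o.2.2 n) := ⟨_, rfl⟩
  have hτw : ∀ o : PO n, τ ∉ cw i y z (o.1 : ℕ) o.2.1 o.2.2 n := by
    intro o h
    rcases cw_mem h with h | h | h
    · exact hi h.symm
    · exact hyτ h.symm
    · exact hzτ h.symm
  have hsl : ∀ o, Sl τ (R • eT i) (g o) := fun o => by
    rw [hg]
    exact pth_sl hm hi hR (cw_count_i hy hz) (hτw o)
  have hz0 : (R • eT i : Fin d → ZMod (2 * m)) τ = 0 := by
    have := nsmul_ne (τ := τ) hi (0 : Fin d → ZMod (2 * m)) R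
    rwa [zero_add] at this
  -- one unit of time
  obtain ⟨σ, hσ⟩ : ∃ σ : ℝ, σ = 2 * N / β := ⟨_, rfl⟩
  have hσ0 : 0 ≤ σ := by rw [hσ]; positivity
  have hσR : σ * (3 * R) ≤ 1 := by
    rw [hσ, div_mul_eq_mul_div, div_le_one hβ]
    linarith
  have h1 : EX μ L β (fun U => ‖Xt L τ (R • eT i) g 1 U‖ ^ 2) ≤
      32 * (N * σ * (2 ^ n) ^ 6) := by
    have f1 := Xt_one μ (L := L) hm hz0 hsl hβ
      (fun o => pl m i R M (cw i y z o.1 o.2.1 o.2.2 n))
      (fun o => pl_nodup (by omega) hR (cw_count_i hy hz) cw_EI (by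
        have := cw_length (i := i) (y := y) (z := z) (a := o.1) (b := o.2.1) (c := o.2.2) (k := n)
        omega))
      (fun o f hf => pl_slice hi (hτw o) hf) (fun o U => by rw [hg]; exact pth_eq _ _ _ _)
    refine f1.trans ?_
    rw [← hσ]
    have f2 : ∀ o o' : PO n, (N : ℝ) * ((1 + σ) ^
        ((((pl m i R M (cw i y z (o.1 : ℕ) o.2.1 o.2.2 n)).map Prod.fst).toFinset ∩
        ((pl m i R M (cw i y z (o'.1 : ℕ) o'.2.1 o'.2.2 n)).map Prod.fst).toFinset).card) - 1) ≤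
        2 * N * σ * ((((pl m i R M (cw i y z (o.1 : ℕ) o.2.1 o.2.2 n)).map Prod.fst).toFinset ∩
        ((pl m i R M (cw i y z (o'.1 : ℕ) o'.2.1 o'.2.2 n)).map Prod.fst).toFinset).card : ℝ) := by
      intro o o'
      obtain ⟨c, hc⟩ : ∃ c, c =
        (((pl m i R M (cw i y z (o.1 : ℕ) o.2.1 o.2.2 n)).map Prod.fst).toFinset ∩
        ((pl m i R M (cw i y z (o'.1 : ℕ) o'.2.1 o'.2.2 n)).map Prod.fst).toFinset).card :=
        ⟨_, rfl⟩
      rw [← hc]
      have hcR : c ≤ 3 * R := by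
        rw [hc]
        refine (Finset.card_le_card Finset.inter_subset_left).trans ?_
        refine (List.toFinset_card_le _).trans ?_
        rw [List.length_map, pl_length]
        have := cw_length (i := i) (y := y) (z := z) (a := o.1) (b := o.2.1) (c := o.2.2) (k := n)
        omega
      have hcR' : (c : ℝ) ≤ 3 * R := by exact_mod_cast hcR
      have f3 := pow_sub_one_le hσ0 (c := c) ((mul_le_mul_of_nonneg_left hcR' hσ0).trans hσR)
      calc (N : ℝ) * ((1 + σ) ^ c - 1) ≤ N * (2 * (σ * c)) := mul_le_mul_of_nonneg_left f3 hN0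
        _ = _ := by ring
    refine (Finset.sum_le_sum fun o _ => Finset.sum_le_sum fun o' _ => f2 o o').trans ?_
    simp only [← Finset.mul_sum]
    have f4 := sum_pl (m := m) hy hz hyz (by omega) hR hM
    have f5 : 0 ≤ 2 * N * σ := by positivity
    calc _ ≤ 2 * N * σ * (16 * (2 ^ n) ^ 6) := mul_le_mul_of_nonneg_left f4 f5
      _ = _ := by ring
  -- all times
  have h2 := Xt_time μ (L := L) hm hz0 hsl hβ.le hT
  have hkp : kp N β ^ 2 = N * σ := by
    rw [kp_sq hβ, hσ]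
    ring
  have h3 : en μ L β (fun U => ‖Xt L τ (R • eT i) g T U‖) ≤
      17 * (kp N β * Real.sqrt T) * (2 ^ n) ^ 3 := by
    have e1 : en μ L β (fun U => ‖Xt L τ (R • eT i) g T U‖) ^ 2 ≤
        (17 * (kp N β * Real.sqrt T) * (2 ^ n) ^ 3) ^ 2 := by
      rw [en_sq]
      have e2 : (17 * (kp N β * Real.sqrt T) * (2 ^ n) ^ 3) ^ 2 =
          289 * (N * σ * T) * (2 ^ n) ^ 6 := by
        have : (17 * (kp N β * Real.sqrt T) * (2 ^ n) ^ 3) ^ 2 =
          289 * (kp N β ^ 2 * Real.sqrt T ^ 2) * (2 ^ n) ^ 6 := by ring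
        rw [this, hkp, Real.sq_sqrt (Nat.cast_nonneg _)]
      rw [e2]
      refine h2.trans ?_
      have e3 : (0 : ℝ) ≤ 9 * T := by positivity
      have e4 := mul_le_mul_of_nonneg_left h1 e3
      have e5 : 0 ≤ N * σ * T * (2 ^ n) ^ 6 := by positivity
      nlinarith
    exact (pow_le_pow_iff_left₀ (en_nonneg μ _) (by positivity) two_ne_zero).1 e1
  -- the comparison
  have h4 := rect_family μ (L := L) (β := β) (T := T) hi hsl
  have h5 : ∀ o : PO n, en μ L β (fun U => dd L (g o U) (ln U i R 0)) ≤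
      22 * d * (kp N β * 2 ^ n) + 2 * P := by
    intro o
    rw [hg]
    refine (en_line μ hm hN hβ hy hz hyz (c := o.2.2) o.1.2 o.2.1.2 hR (by omega)).trans ?_
    have := hPz o.2.1 o.2.1.2
    have := hPy o.1 o.1.2
    linarith
  have h6 : ∑ o : PO n, en μ L β (fun U => dd L (g o U) (ln U i R 0)) ≤
      (2 ^ n) ^ 3 * (22 * d * (kp N β * 2 ^ n) + 2 * P) := by
    refine (Finset.sum_le_sum fun o _ => h5 o).trans (le_of_eq ?_)
    rw [Finset.sum_const, Finset.card_univ, nsmul_eq_mul, Fintype.card_prod, Fintype.card_prod,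
      Fintype.card_fin]
    push_cast
    ring
  have h7 : (Fintype.card (PO n) : ℝ) = (2 ^ n) ^ 3 := by
    rw [Fintype.card_prod, Fintype.card_prod, Fintype.card_fin]
    push_cast
    ring
  rw [h7] at h4
  have h8 : (2 ^ n) ^ 3 * ps μ L m β i τ R T ≤ (2 ^ n) ^ 3 *
      (kp N β * (44 * d * 2 ^ n + 17 * Real.sqrt T) + 4 * P) := by
    refine h4.trans ?_
    nlinarith
  exact le_of_mul_le_mul_left h8 (by positivity)

/-- the scale of the side `R` -/
def sc (R : ℕ) : ℕ := Nat.log 4 R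

lemma sc_le {R : ℕ} (hR : 1 ≤ R) : (2 ^ sc R) ^ 2 ≤ R := by
  have h := Nat.pow_log_le_self 4 (x := R) (by omega)
  unfold sc
  calc (2 ^ Nat.log 4 R) ^ 2 = 4 ^ Nat.log 4 R := by
        rw [← pow_mul, mul_comm, pow_mul]; norm_num
    _ ≤ R := h

lemma lt_sc (R : ℕ) : R < 4 * (2 ^ sc R) ^ 2 := by
  have h := Nat.lt_pow_succ_log_self (b := 4) (by norm_num) R
  unfold sc
  calc R < 4 ^ (Nat.log 4 R).succ := h
    _ = 4 * (2 ^ Nat.log 4 R) ^ 2 := by
        rw [← pow_mul, mul_comm (Nat.log 4 R), pow_mul, pow_succ]; norm_num; ring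

lemma sc_two {R : ℕ} (hR : 1 ≤ R) : 2 * (2 ^ sc R - 1) ≤ R := by
  have h := sc_le hR
  obtain ⟨x, hx⟩ : ∃ x, x = 2 ^ sc R := ⟨_, rfl⟩
  have h0 : 0 < x := by rw [hx]; positivity
  rw [← hx] at h ⊢
  obtain ⟨e, rfl⟩ : ∃ e, x = e + 1 := ⟨x - 1, by omega⟩
  rw [Nat.add_sub_cancel]
  nlinarith [sq_nonneg (e : ℤ)]

/-- two more directions -/
lemma exists_dirs (hd : 4 ≤ d) (i τ : Fin d) : ∃ y z : Fin d, y ≠ τ ∧ z ≠ τ ∧ i ≠ y ∧ i ≠ z ∧
    y ≠ z := by
  classical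
  have h1 : 1 < ((Finset.univ.erase i).erase τ).card := by
    have h2 := Finset.pred_card_le_card_erase (s := Finset.univ.erase i) (a := τ)
    have h3 := Finset.pred_card_le_card_erase (s := (Finset.univ : Finset (Fin d))) (a := i)
    rw [Finset.card_univ, Fintype.card_fin] at h3
    omega
  obtain ⟨y, hy, z, hz, hyz⟩ := Finset.one_lt_card.1 h1
  simp only [Finset.mem_erase, Finset.mem_univ, and_true] at hy hz
  exact ⟨y, z, hy.1, hz.1, hy.2.symm, hz.2.symm, hyz⟩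

/-- the first bound -/
lemma pass_one (hm : 2 ≤ m) (hN : 1 ≤ N) (hd : 4 ≤ d) (hβ : 0 < β) (hi : i ≠ τ) {R T : ℕ}
    (hR : 1 ≤ R) (hRm : R < m) (hT : T ≤ 2 * m) (hRβ : 6 * N * R ≤ β) :
    ps μ L m β i τ R T ≤ kp N β * (44 * d * 2 ^ sc R + 17 * Real.sqrt T +
      4 * Real.sqrt (2 ^ sc R * R)) := by
  obtain ⟨y, z, h1, h2, h3, h4, h5⟩ := exists_dirs hd i τ
  have h6 := sc_two hR
  have h7 := sc_le hR
  have h8 : 2 ^ sc R ≤ R := by
    have : 0 < 2 ^ sc R := by positivity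
    nlinarith
  have hM : ((R - 2 * (2 ^ sc R - 1) : ℕ) : ℝ) ≤ 4 * (2 ^ sc R) ^ 2 := by
    have := lt_sc R
    have h9 : R - 2 * (2 ^ sc R - 1) ≤ 4 * (2 ^ sc R) ^ 2 := by omega
    exact_mod_cast h9
  have harea : ∀ (k : Fin d), k ≠ i → ∀ a < 2 ^ sc R,
      ps μ L m β k i a (R - 2 * (2 ^ sc R - 1)) ≤ kp N β * Real.sqrt (2 ^ sc R * R) := by
    intro k hk a ha
    refine ps_area μ hm hN hβ hk (by omega) (by omega) ?_
    have e1 : (a : ℝ) ≤ 2 ^ sc R := by exact_mod_cast ha.le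
    have e2 : ((R - 2 * (2 ^ sc R - 1) : ℕ) : ℝ) ≤ R := by exact_mod_cast Nat.sub_le _ _
    exact mul_le_mul e1 e2 (Nat.cast_nonneg _) (by positivity)
  have h9 := step μ (L := L) (T := T) hm hN hβ hi h1 h2 h3 h4 h5 (n := sc R) (R := R)
    (M := R - 2 * (2 ^ sc R - 1)) (by omega) hRm hM hT hRβ
    (P := kp N β * Real.sqrt (2 ^ sc R * R)) (harea z h4.symm) (harea y h3.symm)
  linarith

/-- the second bound -/
lemma pass_two (hm : 2 ≤ m) (hN : 1 ≤ N) (hd : 4 ≤ d) (hβ : 0 < β) (hi : i ≠ τ) {R T : ℕ}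
    (hR : 1 ≤ R) (hRm : R < m) (hT : T ≤ 2 * m) (hRβ : 6 * N * R ≤ β) :
    ps μ L m β i τ R T ≤ kp N β * ((220 * d + 84) * Real.sqrt R + 17 * Real.sqrt T) := by
  obtain ⟨y, z, h1, h2, h3, h4, h5⟩ := exists_dirs hd i τ
  have h6 := sc_two hR
  have h7 := sc_le hR
  have hk0 : 0 ≤ kp N β := kp_nonneg
  have hd0 : (0 : ℝ) ≤ d := Nat.cast_nonneg _
  have h8 : 2 ^ sc R ≤ R := by
    have : 0 < 2 ^ sc R := by positivity
    nlinarith
  have hM : ((R - 2 * (2 ^ sc R - 1) : ℕ) : ℝ) ≤ 4 * (2 ^ sc R) ^ 2 := by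
    have := lt_sc R
    have h9 : R - 2 * (2 ^ sc R - 1) ≤ 4 * (2 ^ sc R) ^ 2 := by omega
    exact_mod_cast h9
  have hR0 : (0 : ℝ) ≤ R := Nat.cast_nonneg _
  have hs0 : 0 ≤ Real.sqrt R := Real.sqrt_nonneg _
  have hsR : (2 : ℝ) ^ sc R ≤ Real.sqrt R := by
    refine Real.le_sqrt_of_sq_le ?_
    exact_mod_cast h7
  have hb : ∀ (k : Fin d), k ≠ i → ∀ a < 2 ^ sc R,
      ps μ L m β k i a (R - 2 * (2 ^ sc R - 1)) ≤
        kp N β * ((44 * d + 21) * Real.sqrt R) := by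
    intro k hk a ha
    rcases Nat.eq_zero_or_pos a with h0 | h0
    · subst h0
      refine (ps_area μ hm hN hβ hk (a := 0) (Q := 0) (by omega) (by omega) (by simp)).trans ?_
      rw [Real.sqrt_zero, mul_zero]
      positivity
    · have e0 : a < R := by omega
      have e1 := pass_one μ (L := L) (T := R - 2 * (2 ^ sc R - 1)) hm hN hd hβ hk
        (R := a) h0 (by omega) (by omega) (by
          have : (a : ℝ) ≤ R := by exact_mod_cast e0.le
          have hN0 : (0 : ℝ) ≤ 6 * N := by positivity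
          exact (mul_le_mul_of_nonneg_left this hN0).trans hRβ)
      refine e1.trans (mul_le_mul_of_nonneg_left ?_ hk0)
      have e2 := sc_le h0
      have e3 : 2 ^ sc a ≤ a := by
        have : 0 < 2 ^ sc a := by positivity
        nlinarith
      have e4 : (2 : ℝ) ^ sc a ≤ Real.sqrt R := by
        have f1 : (2 : ℝ) ^ sc a ≤ a := by exact_mod_cast e3
        have f2 : (a : ℝ) ≤ 2 ^ sc R := by exact_mod_cast ha.le
        linarith
      have e5 : Real.sqrt ((R - 2 * (2 ^ sc R - 1) : ℕ) : ℝ) ≤ Real.sqrt R :=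
        Real.sqrt_le_sqrt (by exact_mod_cast Nat.sub_le _ _)
      have e6 : Real.sqrt (2 ^ sc a * a) ≤ Real.sqrt R := by
        refine Real.sqrt_le_sqrt ?_
        have f1 : 2 ^ sc a * a ≤ R := by
          calc 2 ^ sc a * a ≤ a * a := Nat.mul_le_mul_right _ e3
            _ ≤ 2 ^ sc R * 2 ^ sc R := Nat.mul_le_mul ha.le ha.le
            _ = (2 ^ sc R) ^ 2 := (pow_two _).symm
            _ ≤ R := h7
        exact_mod_cast f1
      have e7 : 44 * (d : ℝ) * 2 ^ sc a ≤ 44 * d * Real.sqrt R :=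
        mul_le_mul_of_nonneg_left e4 (by positivity)
      linarith
  have h9 := step μ (L := L) (T := T) hm hN hβ hi h1 h2 h3 h4 h5 (n := sc R) (R := R)
    (M := R - 2 * (2 ^ sc R - 1)) (by omega) hRm hM hT hRβ
    (P := kp N β * ((44 * d + 21) * Real.sqrt R)) (hb z h4.symm) (hb y h3.symm)
  have h10 : kp N β * (44 * d * 2 ^ sc R) ≤ kp N β * (44 * d * Real.sqrt R) :=
    mul_le_mul_of_nonneg_left (mul_le_mul_of_nonneg_left hsR (by positivity)) hk0
  linarith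

/-- the constant -/
def Cd (d : ℕ) : ℝ := 2 * (220 * d + 84) ^ 2

/-- **The perimeter law up to the scale `β`.** -/
theorem perim (hm : 2 ≤ m) (hN : 1 ≤ N) (hd : 4 ≤ d) (hβ : 0 < β) (hi : i ≠ τ) {R T : ℕ}
    (hRm : R < m) (hT : T < 2 * m) :
    1 - wR2 μ L m β i τ R T ≤ Cd d * N * (R + T) / β := by
  have hd0 : (0 : ℝ) ≤ d := Nat.cast_nonneg _
  have hN1 : (1 : ℝ) ≤ N := by exact_mod_cast hN
  have hR0 : (0 : ℝ) ≤ R := Nat.cast_nonneg _
  have hT0 : (0 : ℝ) ≤ T := Nat.cast_nonneg _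
  obtain ⟨A, hA⟩ : ∃ A : ℝ, A = 220 * d + 84 := ⟨_, rfl⟩
  have hA0 : 84 ≤ A := by rw [hA]; linarith
  have hCd : Cd d = 2 * A ^ 2 := by unfold Cd; rw [hA]
  have hA2 : 6 ≤ 2 * A ^ 2 := by nlinarith
  rw [hCd]
  rcases Nat.eq_zero_or_pos R with h0 | h0
  · subst h0
    rw [wR2_zero μ hN, sub_self]
    positivity
  · by_cases hRβ : 6 * N * R ≤ β
    · have h1 := pass_two μ (L := L) (T := T) hm hN hd hβ hi h0 hRm hT.le hRβ
      rw [← hA] at h1
      have h2 := pow_le_pow_left₀ (ps_nonneg μ i τ R T) h1 2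
      rw [ps_sq μ hN, mul_pow, kp_sq hβ] at h2
      have h3 : (A * Real.sqrt R + 17 * Real.sqrt T) ^ 2 ≤ 2 * A ^ 2 * (R + T) := by
        have e1 := Real.sq_sqrt hR0
        have e2 := Real.sq_sqrt hT0
        have e3 := Real.sqrt_nonneg (R : ℝ)
        have e4 := Real.sqrt_nonneg (T : ℝ)
        have e5 : (A * Real.sqrt R + 17 * Real.sqrt T) ^ 2 ≤
            2 * (A ^ 2 * Real.sqrt R ^ 2 + 289 * Real.sqrt T ^ 2) := by
          nlinarith [sq_nonneg (A * Real.sqrt R - 17 * Real.sqrt T)]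
        rw [e1, e2] at e5
        have e6 : 289 * (T : ℝ) ≤ A ^ 2 * T := mul_le_mul_of_nonneg_right (by nlinarith) hT0
        nlinarith
      have h4 : 2 * N ^ 2 / β * (A * Real.sqrt R + 17 * Real.sqrt T) ^ 2 ≤
          2 * N ^ 2 / β * (2 * A ^ 2 * (R + T)) := mul_le_mul_of_nonneg_left h3 (by positivity)
      have h5 : 2 * (N : ℝ) * (1 - wR2 μ L m β i τ R T) ≤
          2 * N * (2 * A ^ 2 * N * (R + T) / β) := by
        refine (h2.trans h4).trans (le_of_eq ?_)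
        ring
      exact le_of_mul_le_mul_left h5 (by positivity)
    · push Not at hRβ
      have h1 := wR2_nonneg μ (L := L) hm hi hβ.le (by omega : R < 2 * m) T
      have h2 : 1 ≤ 2 * A ^ 2 * N * (R + T) / β := by
        rw [le_div_iff₀ hβ, one_mul]
        refine hRβ.le.trans ?_
        have e1 : 6 * (N : ℝ) * R ≤ 2 * A ^ 2 * (N * R) := by
          have := mul_le_mul_of_nonneg_right hA2 (mul_nonneg (by linarith : (0 : ℝ) ≤ N) hR0)
          linarith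
        have e2 : 0 ≤ 2 * A ^ 2 * (N * T) := by positivity
        linarith
      linarith

end

end Pool.Agent.Q204.PL
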