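import Mathlib
import Pool.Agent.TH618.YM.Pot
import Pool.Agent.Q204.YM.Perim

/-!
# The static potential and the string tension
-/

open MeasureTheory Matrix Filter
open scoped Matrix.Norms.Frobenius ContDiff Topology
open Pool.Agent.H906R3.YM hiding Pl
open Pool.Agent.W793.YM Pool.Agent.TH618.YM Pool.Agent.Y14

namespace Pool.Agent.Q204.PL

set_option linter.unusedSectionVars false
set_option linter.unusedVariables false

noncomputable section

lemma concave_ratio {f : ℕ → ℝ} (h0 : f 0 = 0)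
    (hc : ∀ k, f k + f (k + 2) ≤ 2 * f (k + 1)) {K T : ℕ} (hK : 1 ≤ K) (hT : K ≤ T) :
    f T ≤ T / K * f K := by
  have hK0 : (0 : ℝ) < K := by exact_mod_cast hK
  induction T, hT using Nat.le_induction with
  | base => rw [div_self hK0.ne', one_mul]
  | succ T hT ih =>
    have h1 := concave_mono h0 hc T
    have hT0 : (0 : ℝ) < T := by exact_mod_cast (by omega : 0 < T)
    have h2 : f (T + 1) ≤ (T + 1) / T * f T := by
      rw [div_mul_eq_mul_div, le_div_iff₀ hT0]
      linarith
    refine h2.trans ?_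
    have h3 : ((T : ℝ) + 1) / T * f T ≤ (T + 1) / T * (T / K * f K) :=
      mul_le_mul_of_nonneg_left ih (by positivity)
    refine h3.trans (le_of_eq ?_)
    push_cast
    field_simp

/-- the bounds for a double sequence with a perimeter law up to the scale `β` -/
lemma double_bound {w : ℕ → ℕ → ℝ} {D β : ℝ} (hD : 1 ≤ D) (hβ : 8 * D ≤ β)
    (h0 : ∀ T, w 0 T = 1) (h0' : ∀ R, w R 0 = 1) (hle : ∀ R T, w R T ≤ 1)
    (hc : ∀ R T, w (R + 1) T ^ 2 ≤ w R T * w (R + 2) T)
    (hc' : ∀ R T, w R (T + 1) ^ 2 ≤ w R T * w R (T + 2))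
    (hw : ∀ R T : ℕ, 1 - D * (R + T) / β ≤ w R T) :
    (∀ R T : ℕ, Real.exp (-(32 * D ^ 2 * ((R + T) / β + R * T / β ^ 2))) ≤ w R T) ∧
    ∃ (P : ℕ → ℝ) (σ : ℝ),
      (∀ R, Tendsto (fun T : ℕ => -Real.log (w R T) / T) atTop (𝓝 (P R))) ∧
      Tendsto (fun R : ℕ => P R / R) atTop (𝓝 σ) ∧
      (∀ R : ℕ, P R ≤ 96 * D ^ 2 * (1 / β + R / β ^ 2)) ∧ 0 ≤ σ ∧ σ ≤ 96 * D ^ 2 / β ^ 2 := by
  have hD0 : 0 < D := by linarith
  have hβ0 : 0 < β := by linarith
  have h11 : 0 < w 1 1 := by
    refine lt_of_lt_of_le ?_ (hw 1 1)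
    have : D * ((1 : ℕ) + (1 : ℕ)) / β ≤ 1 / 4 := by
      rw [div_le_iff₀ hβ0]
      push_cast
      linarith
    linarith
  obtain ⟨hpos, P, σ, hP, hσ, hσ0, hPle, hσle⟩ := double h0 h0' hle hc hc' h11
  obtain ⟨f, hf⟩ : ∃ f : ℕ → ℕ → ℝ, f = fun R T => -Real.log (w R T) := ⟨_, rfl⟩
  have f0 : ∀ T, f 0 T = 0 := fun T => by
    rw [hf]; simp only [h0, Real.log_one, neg_zero]
  have f0' : ∀ R, f R 0 = 0 := fun R => by
    rw [hf]; simp only [h0', Real.log_one, neg_zero]
  have fc : ∀ R T, f R T + f (R + 2) T ≤ 2 * f (R + 1) T := fun R T => by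
    rw [hf]; exact log_conc (hpos _ _) (hpos _ _) (hpos _ _) (hc R T)
  have fc' : ∀ R T, f R T + f R (T + 2) ≤ 2 * f R (T + 1) := fun R T => by
    rw [hf]; exact log_conc (hpos _ _) (hpos _ _) (hpos _ _) (hc' R T)
  have fn : ∀ R T, 0 ≤ f R T := fun R T => by
    rw [hf]
    have := Real.log_nonpos (hpos R T).le (hle R T)
    simp only
    linarith
  -- the scale
  obtain ⟨K, hK⟩ : ∃ K : ℕ, K = ⌊β / (4 * D)⌋₊ := ⟨_, rfl⟩
  have hx2 : 2 ≤ β / (4 * D) := by rw [le_div_iff₀ (by positivity)]; linarith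
  have hKle : (K : ℝ) ≤ β / (4 * D) := by rw [hK]; exact Nat.floor_le (by linarith)
  have hKge : β / (4 * D) < K + 1 := by rw [hK]; exact Nat.lt_floor_add_one _
  have hK1 : 1 ≤ K := by
    have : (1 : ℝ) < K := by linarith
    exact_mod_cast this.le
  have hK0 : (0 : ℝ) < K := by exact_mod_cast hK1
  have hK2 : β / (8 * D) ≤ K := by
    have h1 : β / (8 * D) = β / (4 * D) / 2 := by field_simp; ring
    rw [h1]
    linarith
  have hDK : D * K / β ≤ 1 / 4 := by
    rw [div_le_iff₀ hβ0]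
    rw [le_div_iff₀ (by positivity)] at hKle
    linarith
  have small : ∀ R T : ℕ, R ≤ K → T ≤ K → f R T ≤ 2 * (D * (R + T) / β) := by
    intro R T hR hT
    have e1 : (R : ℝ) ≤ K := by exact_mod_cast hR
    have e2 : (T : ℝ) ≤ K := by exact_mod_cast hT
    obtain ⟨E, hE⟩ : ∃ E : ℝ, E = D * (R + T) / β := ⟨_, rfl⟩
    have hE0 : 0 ≤ E := by rw [hE]; positivity
    have hE1 : E ≤ 1 / 2 := by
      rw [hE]
      have : D * (R + T) / β ≤ D * K / β + D * K / β := by
        rw [← add_div]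
        refine div_le_div_of_nonneg_right ?_ hβ0.le
        nlinarith
      linarith
    have h1 := hw R T
    rw [← hE] at h1 ⊢
    have h2 := Real.log_le_log (by linarith : 0 < 1 - E) h1
    have h3 := neg_log_le hE0 hE1
    rw [hf]
    simp only
    nlinarith
  have hall : ∀ R T : ℕ, f R T ≤ 32 * D ^ 2 * ((R + T) / β + R * T / β ^ 2) := by
    intro R T
    have hR0 : (0 : ℝ) ≤ R := Nat.cast_nonneg _
    have hT0 : (0 : ℝ) ≤ T := Nat.cast_nonneg _
    have hDD : D ≤ D ^ 2 := by nlinarith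
    have hRT : 0 ≤ (R : ℝ) * T / β ^ 2 := by positivity
    have hRT' : 0 ≤ ((R : ℝ) + T) / β := by positivity
    have hgen : 4 * D * ((R + T) / β) ≤ 32 * D ^ 2 * ((R + T) / β + R * T / β ^ 2) := by
      have e1 : 4 * D * (((R : ℝ) + T) / β) ≤ 32 * D ^ 2 * ((R + T) / β) :=
        mul_le_mul_of_nonneg_right (by linarith) hRT'
      have e2 : 0 ≤ 32 * D ^ 2 * ((R : ℝ) * T / β ^ 2) := by positivity
      linarith
    rcases le_or_gt R K with hR | hR
    · rcases le_or_gt T K with hT | hT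
      · refine (small R T hR hT).trans (le_trans ?_ hgen)
        have : 2 * (D * ((R : ℝ) + T) / β) = 2 * D * ((R + T) / β) := by ring
        rw [this]
        have : 0 ≤ D * (((R : ℝ) + T) / β) := by positivity
        linarith
      · have h1 := concave_ratio (f := fun T => f R T) (f0' R) (fc' R) hK1 hT.le
        have h2 := small R K hR le_rfl
        have e1 : (R : ℝ) ≤ K := by exact_mod_cast hR
        have h3 : f R K ≤ 4 * D * K / β := by
          refine h2.trans ?_
          rw [mul_div_assoc', div_le_div_iff_of_pos_right hβ0]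
          nlinarith
        have h4 : (T : ℝ) / K * f R K ≤ T / K * (4 * D * K / β) :=
          mul_le_mul_of_nonneg_left h3 (by positivity)
        have h5 : (T : ℝ) / K * (4 * D * K / β) = 4 * D * (T / β) := by field_simp
        have h6 : 4 * D * ((T : ℝ) / β) ≤ 4 * D * ((R + T) / β) := by
          refine mul_le_mul_of_nonneg_left ?_ (by positivity)
          exact div_le_div_of_nonneg_right (by linarith) hβ0.le
        linarith
    · rcases le_or_gt T K with hT | hT
      · have h1 := concave_ratio (f := fun R => f R T) (f0 T) (fun k => fc k T) hK1 hR.le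
        have h2 := small K T le_rfl hT
        have e1 : (T : ℝ) ≤ K := by exact_mod_cast hT
        have h3 : f K T ≤ 4 * D * K / β := by
          refine h2.trans ?_
          rw [mul_div_assoc', div_le_div_iff_of_pos_right hβ0]
          nlinarith
        have h4 : (R : ℝ) / K * f K T ≤ R / K * (4 * D * K / β) :=
          mul_le_mul_of_nonneg_left h3 (by positivity)
        have h5 : (R : ℝ) / K * (4 * D * K / β) = 4 * D * (R / β) := by field_simp
        have h6 : 4 * D * ((R : ℝ) / β) ≤ 4 * D * ((R + T) / β) := by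
          refine mul_le_mul_of_nonneg_left ?_ (by positivity)
          exact div_le_div_of_nonneg_right (by linarith) hβ0.le
        linarith
      · have h1 := concave_ratio (f := fun R => f R T) (f0 T) (fun k => fc k T) hK1 hR.le
        have h2 := concave_ratio (f := fun T => f K T) (f0' K) (fc' K) hK1 hT.le
        have h3 := small K K le_rfl le_rfl
        have h4 : f K K ≤ 4 * D * K / β := h3.trans (le_of_eq (by ring))
        have h5 : f R T ≤ R / K * (T / K * (4 * D * K / β)) := by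
          refine h1.trans (mul_le_mul_of_nonneg_left (h2.trans ?_) (by positivity))
          exact mul_le_mul_of_nonneg_left h4 (by positivity)
        have h6 : (R : ℝ) / K * (T / K * (4 * D * K / β)) = 4 * D * (R * T) / (K * β) := by
          field_simp
        have h7 : 4 * D * ((R : ℝ) * T) / (K * β) ≤ 4 * D * (R * T) / (β / (8 * D) * β) :=
          div_le_div_of_nonneg_left (by positivity) (by positivity)
            (mul_le_mul_of_nonneg_right hK2 hβ0.le)
        have h8 : 4 * D * ((R : ℝ) * T) / (β / (8 * D) * β) = 32 * D ^ 2 * (R * T / β ^ 2) := by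
          field_simp
          ring
        have h9 : 0 ≤ 32 * D ^ 2 * (((R : ℝ) + T) / β) := by positivity
        rw [h6] at h5
        rw [h8] at h7
        linarith
  refine ⟨fun R T => ?_, P, σ, hP, hσ, ?_, hσ0, ?_⟩
  · have h1 := hall R T
    rw [hf] at h1
    simp only at h1
    rw [← Real.exp_log (hpos R T)]
    exact Real.exp_le_exp.2 (by linarith)
  · intro R
    have hR0 : (0 : ℝ) ≤ R := Nat.cast_nonneg _
    have h1 := hPle R (R + 1) (by omega)
    have h2 := hall R (R + 1)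
    rw [hf] at h2
    simp only at h2
    have hR1 : (0 : ℝ) < R + 1 := by positivity
    refine h1.trans ?_
    push_cast at h2 ⊢
    rw [div_le_iff₀ hR1]
    refine h2.trans ?_
    have e1 : ((R : ℝ) + (R + 1)) / β ≤ 3 * (1 / β) * (R + 1) := by
      rw [mul_one_div, div_mul_eq_mul_div, div_le_div_iff_of_pos_right hβ0]
      linarith
    have e2 : (R : ℝ) * (R + 1) / β ^ 2 ≤ 3 * (R / β ^ 2) * (R + 1) := by
      have : 0 ≤ (R : ℝ) * (R + 1) / β ^ 2 := by positivity
      have e3 : 3 * ((R : ℝ) / β ^ 2) * (R + 1) = 3 * (R * (R + 1) / β ^ 2) := by ring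
      rw [e3]; linarith
    have e4 : 0 ≤ 32 * D ^ 2 := by positivity
    have e5 := mul_le_mul_of_nonneg_left (add_le_add e1 e2) e4
    calc _ ≤ 32 * D ^ 2 * (3 * (1 / β) * (R + 1) + 3 * (R / β ^ 2) * (R + 1)) := e5
      _ = _ := by ring
  · -- the string tension
    obtain ⟨R, hR⟩ : ∃ R : ℕ, β ≤ R := ⟨⌈β⌉₊, Nat.le_ceil β⟩
    have hR0 : (0 : ℝ) < R := by linarith
    have hR1 : 1 ≤ R := by
      have : (0 : ℕ) < R := by exact_mod_cast hR0
      omega
    have h1 := hσle R hR1
    have h2 := hPle R R hR1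
    have h3 := hall R R
    rw [hf] at h3
    simp only at h3
    refine h1.trans ?_
    have h4 : P R / R ≤ (-Real.log (w R R) / R) / R := div_le_div_of_nonneg_right h2 hR0.le
    have h5 : (-Real.log (w R R) / R) / R ≤
        (32 * D ^ 2 * ((R + R) / β + R * R / β ^ 2) / R) / R :=
      div_le_div_of_nonneg_right (div_le_div_of_nonneg_right h3 hR0.le) hR0.le
    refine h4.trans (h5.trans ?_)
    have h6 : (32 * D ^ 2 * (((R : ℝ) + R) / β + R * R / β ^ 2) / R) / R =
        64 * D ^ 2 * (1 / (R * β)) + 32 * D ^ 2 / β ^ 2 := by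
      field_simp
      ring
    rw [h6]
    have h7 : 1 / ((R : ℝ) * β) ≤ 1 / β ^ 2 := by
      refine one_div_le_one_div_of_le (by positivity) ?_
      nlinarith
    have h8 : 64 * D ^ 2 * (1 / ((R : ℝ) * β)) ≤ 64 * D ^ 2 * (1 / β ^ 2) :=
      mul_le_mul_of_nonneg_left h7 (by positivity)
    have h9 : 64 * D ^ 2 * (1 / β ^ 2) + 32 * D ^ 2 / β ^ 2 = 96 * D ^ 2 / β ^ 2 := by ring
    linarith

variable {G : Type*} [Group G] [TopologicalSpace G] [IsTopologicalGroup G] [CompactSpace G]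
  [SecondCountableTopology G] [MeasurableSpace G] [BorelSpace G] (μ : Measure G)
  [IsProbabilityMeasure μ] [μ.IsMulLeftInvariant] [μ.IsMulRightInvariant] [μ.IsInvInvariant]
  {N n' : ℕ} {L : LD G N n'} {d : ℕ}

lemma Cd_ge (d : ℕ) : 1 ≤ Cd d := by
  unfold Cd
  have : (0 : ℝ) ≤ d := Nat.cast_nonneg _
  nlinarith

/-- **The static potential and the string tension.** -/
theorem pot_two (hN : 1 ≤ N) (hd : 4 ≤ d) {β : ℝ} (hβ : 8 * (Cd d * N) ≤ β) {i j : Fin d}
    (hij : i ≠ j) {w : ℕ → ℕ → ℝ} {s : ℕ → ℕ} (hs : Tendsto s atTop atTop)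
    (hw : ∀ R T, Tendsto (fun k => wR2 μ L (s k + 1) β i j R T) atTop (𝓝 (w R T))) :
    (∀ R T : ℕ, Real.exp (-(32 * (Cd d * N) ^ 2 * ((R + T) / β + R * T / β ^ 2))) ≤ w R T) ∧
    ∃ (P : ℕ → ℝ) (σ : ℝ),
      (∀ R, Tendsto (fun T : ℕ => -Real.log (w R T) / T) atTop (𝓝 (P R))) ∧
      Tendsto (fun R : ℕ => P R / R) atTop (𝓝 σ) ∧
      (∀ R : ℕ, P R ≤ 96 * (Cd d * N) ^ 2 * (1 / β + R / β ^ 2)) ∧ 0 ≤ σ ∧
      σ ≤ 96 * (Cd d * N) ^ 2 / β ^ 2 := by
  have hN1 : (1 : ℝ) ≤ N := by exact_mod_cast hN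
  have hD : 1 ≤ Cd d * N := one_le_mul_of_one_le_of_one_le (Cd_ge d) hN1
  have hβ0 : 0 < β := by linarith
  have hev : ∀ K : ℕ, ∀ᶠ k in atTop, K < s k + 1 := fun K => by
    filter_upwards [hs.eventually_ge_atTop K] with k hk
    omega
  refine double_bound hD hβ (fun T => ?_) (fun R => ?_) (fun R T => ?_) (fun R T => ?_)
    (fun R T => ?_) (fun R T => ?_)
  · refine tendsto_nhds_unique (hw 0 T) ?_
    simp only [wR2_zero μ hN]
    exact tendsto_const_nhds
  · refine tendsto_nhds_unique (hw R 0) ?_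
    have : ∀ k, wR2 μ L (s k + 1) β i j R 0 = 1 := fun k => by
      rw [wR2_swap, wR2_zero μ hN]
    simp only [this]
    exact tendsto_const_nhds
  · exact le_of_tendsto' (hw R T) fun k => wR2_le μ hN _ _ _ _ _
  · refine le_of_tendsto_of_tendsto ((hw (R + 1) T).pow 2) ((hw R T).mul (hw (R + 2) T)) ?_
    filter_upwards [hev (R + 2)] with k hk
    exact wR2_cs μ (by omega) hij hβ0.le (by omega) T
  · refine le_of_tendsto_of_tendsto ((hw R (T + 1)).pow 2) ((hw R T).mul (hw R (T + 2))) ?_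
    filter_upwards [hev (T + 2)] with k hk
    rw [wR2_swap μ β i j R (T + 1), wR2_swap μ β i j R T, wR2_swap μ β i j R (T + 2)]
    exact wR2_cs μ (by omega) hij.symm hβ0.le (by omega) R
  · refine ge_of_tendsto (hw R T) ?_
    filter_upwards [hev (R + T + 1)] with k hk
    have := perim μ (L := L) (m := s k + 1) (by omega) hN hd hβ0 hij (R := R) (T := T)
      (by omega) (by omega)
    linarith

end

end Pool.Agent.Q204.PL
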